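import Pool.Agent.Zk72.NS.QA

/-!
# Stability of the exploration path under noise: interpolation between two configurations
-/

set_option autoImplicit false

namespace Pool.Agent.Zk72.NS

open H974 Finset H342P H984P H984N H12S H389NS Pool.Agent.Zk36.TT Pool.Agent.W92.DP

theorem mem_flip {a x : Edg} {F : Finset Edg} :
    x ∈ Pool.Agent.Zk36.TT.flip a F ↔ (x ≠ a ∧ x ∈ F) ∨ (x = a ∧ a ∉ F) := by
  unfold Pool.Agent.Zk36.TT.flip
  by_cases h : a ∈ F
  · rw [if_pos h, Finset.mem_erase]
    tauto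
  · rw [if_neg h, Finset.mem_insert]
    constructor
    · rintro (rfl | h1)
      · exact Or.inr ⟨rfl, h⟩
      · exact Or.inl ⟨fun h2 => h (h2 ▸ h1), h1⟩
    · rintro (h1 | h1)
      · exact Or.inr h1.2
      · exact Or.inl h1.1

theorem Btw_self (U B : Finset Edg) : Btw U B B :=
  ⟨Finset.sdiff_subset, Finset.subset_union_left⟩

theorem Btw_iff {U B F : Finset Edg} : Btw U B F ↔ ∀ x, x ∉ U → (x ∈ F ↔ x ∈ B) := by
  constructor
  · rintro ⟨h1, h2⟩ x hx
    constructor
    · intro h
      rcases Finset.mem_union.1 (h2 h) with h | h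
      · exact h
      · exact absurd h hx
    · intro h
      exact h1 (Finset.mem_sdiff.2 ⟨h, hx⟩)
  · intro h
    constructor
    · intro x hx
      rw [Finset.mem_sdiff] at hx
      exact (h x hx.2).2 hx.1
    · intro x hx
      by_cases hU : x ∈ U
      · exact Finset.mem_union.2 (Or.inr hU)
      · exact Finset.mem_union.2 (Or.inl ((h x hU).1 hx))

theorem Btw_flip {U B F : Finset Edg} {a : Edg} (h : Btw U B F) (ha : a ∈ U) :
    Btw U B (Pool.Agent.Zk36.TT.flip a F) := by
  rw [Btw_iff] at h ⊢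
  intro x hx
  rw [mem_flip, ← h x hx]
  have hne : x ≠ a := fun h1 => hx (h1 ▸ ha)
  tauto

theorem t_CHN : S_CHN := by
  intro U B F W A hF hA
  induction W using Finset.induction_on with
  | empty =>
    left
    have : (F \ ∅) ∪ (B ∩ ∅) = F := by simp
    rw [this]
    exact hA
  | insert a W ha ih =>
    rcases ih with h | ⟨F₁, f, h1, h2, h3, h4, h5⟩
    swap
    · exact Or.inr ⟨F₁, f, h1, Finset.mem_insert_of_mem h2, h3, h4, h5⟩
    have hB : Btw U B ((F \ W) ∪ (B ∩ W)) := by
      rw [Btw_iff] at hF ⊢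
      intro x hx
      have := hF x hx
      simp only [Finset.mem_union, Finset.mem_sdiff, Finset.mem_inter]
      tauto
    by_cases hab : a ∈ F ↔ a ∈ B
    · left
      have e : (F \ insert a W) ∪ (B ∩ insert a W) = (F \ W) ∪ (B ∩ W) := by
        ext x
        simp only [Finset.mem_union, Finset.mem_sdiff, Finset.mem_inter, Finset.mem_insert]
        by_cases hx : x = a
        · subst hx
          tauto
        · tauto
      rw [e]
      exact h
    · have e : (F \ insert a W) ∪ (B ∩ insert a W) =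
          Pool.Agent.Zk36.TT.flip a ((F \ W) ∪ (B ∩ W)) := by
        ext x
        rw [mem_flip]
        simp only [Finset.mem_union, Finset.mem_sdiff, Finset.mem_inter, Finset.mem_insert]
        by_cases hx : x = a
        · subst hx
          tauto
        · tauto
      rw [e]
      by_cases hA' : A (Pool.Agent.Zk36.TT.flip a ((F \ W) ∪ (B ∩ W)))
      · exact Or.inl hA'
      · refine Or.inr ⟨_, a, hB, Finset.mem_insert_self _ _, ?_, h, hA'⟩
        by_contra hU
        rw [Btw_iff] at hF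
        exact hab (hF a hU)

/-! ### Locality -/

theorem gd_inter (b : Bool) (F : Finset Edg) {Y : Set Edg} {T : Finset Edg}
    (h : ∀ g, gm b g ∈ Y → g ∈ T) : gd b F ∩ Y = gd b (F ∩ T) ∩ Y := by
  ext x
  unfold gd
  cases b
  · simp only [Bool.false_eq_true, if_false, Set.mem_inter_iff, Set.mem_image,
      Set.mem_compl_iff, Finset.mem_coe, Finset.mem_inter]
    constructor
    · rintro ⟨⟨g, hg, rfl⟩, hx⟩
      exact ⟨⟨g, fun h1 => hg h1.1, rfl⟩, hx⟩
    · rintro ⟨⟨g, hg, rfl⟩, hx⟩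
      exact ⟨⟨g, fun h1 => hg ⟨h1, h g hx⟩, rfl⟩, hx⟩
  · simp only [if_true, Set.mem_inter_iff, Finset.mem_coe, Finset.mem_inter]
    constructor
    · rintro ⟨h1, h2⟩
      exact ⟨⟨h1, h x h2⟩, h2⟩
    · rintro ⟨⟨h1, _⟩, h2⟩
      exact ⟨h1, h2⟩

theorem mem_rg {b : Bool} {v : Vtx} {d k : ℕ} {h : Edg} :
    h ∈ rg b v d k ↔ gm b h ∈ blk v k \ blk v d := by
  unfold rg
  rw [Finset.mem_filter]
  constructor
  · exact fun h => h.2
  · intro h1
    refine ⟨?_, h1⟩
    have h2 := (Finset.mem_sdiff.1 h1).1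
    cases b
    · have h3 : dl h ∈ blk v k := h2
      have h4 := Pool.Agent.W571.DPad.dls_mem h3
      rwa [Equiv.symm_apply_apply] at h4
    · have h3 : h ∈ blk v k := h2
      revert h3
      unfold blk
      exact fun h3 => RE_subset (by omega) (by omega) (by omega) (by omega) h3

theorem rg_sub (b : Bool) (v : Vtx) (d k : ℕ) : rg b v d k ⊆ blk v (k + 1) :=
  Finset.filter_subset _ _

/-- the region of an annulus is outside of a smaller box -/
theorem rg_out {b : Bool} {v : Vtx} {d k : ℕ} {h : Edg} (hh : h ∈ rg b v (d + 1) k) :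
    h ∉ blk v d := by
  rw [mem_rg] at hh
  intro hd
  apply (Finset.mem_sdiff.1 hh).2
  revert hd
  unfold blk gm
  obtain ⟨x, y, _ | _⟩ := h <;> cases b <;>
    simp only [Bool.false_eq_true, if_false, if_true, dl_f, dl_t, mem_RE_false, mem_RE_true] <;>
    push_cast <;> omega

theorem gd_rg (b : Bool) (F : Finset Edg) (v : Vtx) (d k : ℕ) :
    gd b F ∩ ↑(blk v k \ blk v d) = gd b (F ∩ rg b v d k) ∩ ↑(blk v k \ blk v d) :=
  gd_inter b F fun _ hg => mem_rg.2 (Finset.mem_coe.1 hg)

theorem F4_loc (b : Bool) (v : Vtx) (d k : ℕ) (F : Finset Edg) :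
    F4 b v d k F ↔ F4 b v d k (F ∩ rg b v d k) := by
  unfold F4 A4a
  rw [gd_rg b F]

theorem Cx_loc (b : Bool) (v : Vtx) (d k : ℕ) (F : Finset Edg) :
    Cx v d k (gd b F) ↔ Cx v d k (gd b (F ∩ rg b v d k)) := by
  unfold Cx
  rw [gd_rg b F]

theorem F2_loc (v : Vtx) (d k : ℕ) (F : Finset Edg) :
    F2 v d k F ↔ F2 v d k (F ∩ (rg true v d k ∪ rg false v d k)) := by
  unfold F2
  rw [Cx_loc true v d k F, Cx_loc false v d k F,
    Cx_loc true v d k (F ∩ (rg true v d k ∪ rg false v d k)),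
    Cx_loc false v d k (F ∩ (rg true v d k ∪ rg false v d k))]
  have e1 : F ∩ (rg true v d k ∪ rg false v d k) ∩ rg true v d k = F ∩ rg true v d k := by
    ext x
    simp only [Finset.mem_inter, Finset.mem_union]
    tauto
  have e2 : F ∩ (rg true v d k ∪ rg false v d k) ∩ rg false v d k = F ∩ rg false v d k := by
    ext x
    simp only [Finset.mem_inter, Finset.mem_union]
    tauto
  rw [e1, e2]

theorem Lc_F4 (b : Bool) (v : Vtx) (d k : ℕ) : Lc (rg b v d k) (Sw (F4 b v d k)) :=
  Lc_Sw (F4_loc b v d k)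

theorem Lc_F2 (v : Vtx) (d k : ℕ) :
    Lc (rg true v d k ∪ rg false v d k) (Sw (F2 v d k)) := Lc_Sw (F2_loc v d k)

/-- a change at `f` changes `gd b` only at `gm b f` -/
theorem gd_flip (b : Bool) (f : Edg) (F : Finset Edg) :
    ∀ h, h ≠ gm b f → (h ∈ gd b F ↔ h ∈ gd b (Pool.Agent.Zk36.TT.flip f F)) := by
  intro h hh
  unfold gd
  unfold gm at hh
  cases b
  · simp only [Bool.false_eq_true, if_false, Set.mem_image, Set.mem_compl_iff,
      Finset.mem_coe] at hh ⊢
    constructor
    · rintro ⟨g, hg, rfl⟩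
      refine ⟨g, ?_, rfl⟩
      rw [mem_flip]
      rintro (h1 | h1)
      · exact hg h1.2
      · exact hh (by rw [h1.1])
    · rintro ⟨g, hg, rfl⟩
      refine ⟨g, ?_, rfl⟩
      intro h1
      apply hg
      rw [mem_flip]
      exact Or.inl ⟨fun h2 => hh (by rw [h2]), h1⟩
  · simp only [if_true, Finset.mem_coe] at hh ⊢
    rw [mem_flip]
    tauto

theorem gm_src (b : Bool) (f : Edg) : sd (src f) (src (gm b f)) ≤ 1 := by
  unfold gm sd
  obtain ⟨x, y, _ | _⟩ := f <;> cases b <;> simp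

end Pool.Agent.Zk72.NS
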