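import Pool.Agent.Zk72.NS.Adv

/-!
# Stability of the exploration path under noise: probabilities for the pair `(U, B)`
-/

set_option autoImplicit false

namespace Pool.Agent.Zk72.NS

open H974 Finset H342P H984P H984N H12S H389NS Pool.Agent.Zk36.TT Pool.Agent.W92.DP

theorem ok_eps {ε : ℝ} (h0 : 0 ≤ ε) (h1 : ε ≤ 1) : Ok (fun _ : Edg => ε) := fun _ => ⟨h0, h1⟩

theorem ok_half : Ok (fun _ : Edg => (1/2:ℝ)) := fun _ => ⟨by norm_num, by norm_num⟩

section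
variable {ε : ℝ} {S T : Finset Edg} {A A' : Finset Edg → Finset Edg → Prop}

theorem Q_mono (h0 : 0 ≤ ε) (h1 : ε ≤ 1) (h : ∀ U B, U ⊆ S → B ⊆ S → A U B → A' U B) :
    Q ε S A ≤ Q ε S A' :=
  Ex_mono (ok_eps h0 h1) fun U hU => Pr_mono ok_half fun B hB => h U B hU hB

theorem Q_nonneg (h0 : 0 ≤ ε) (h1 : ε ≤ 1) (S : Finset Edg) (A : Finset Edg → Finset Edg → Prop) :
    0 ≤ Q ε S A := Ex_nonneg (ok_eps h0 h1) fun _ _ => Pr_nonneg ok_half _ _

theorem Q_le_one (h0 : 0 ≤ ε) (h1 : ε ≤ 1) (S : Finset Edg) (A : Finset Edg → Finset Edg → Prop) :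
    Q ε S A ≤ 1 := Ex_le_of_le (ok_eps h0 h1) fun _ _ => Pr_le_one ok_half _ _

theorem Q_congr (h : ∀ U B, U ⊆ S → B ⊆ S → (A U B ↔ A' U B)) : Q ε S A = Q ε S A' :=
  Ex_congr fun U hU => Pr_congr fun B hB => h U B hU hB

theorem Q_B (A : Finset Edg → Prop) : Q ε S (fun _ B => A B) = P S A := by
  unfold Q
  rw [Ex_const]

theorem Q_or_le (h0 : 0 ≤ ε) (h1 : ε ≤ 1) (S : Finset Edg)
    (A A' : Finset Edg → Finset Edg → Prop) :
    Q ε S (fun U B => A U B ∨ A' U B) ≤ Q ε S A + Q ε S A' := by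
  unfold Q
  rw [← Ex_add]
  exact Ex_mono (ok_eps h0 h1) fun U _ => Pr_or_le ok_half _ _ _

theorem Q_ex_le (h0 : 0 ≤ ε) (h1 : ε ≤ 1) (S : Finset Edg) {ι : Type*} (I : Finset ι)
    (A : ι → Finset Edg → Finset Edg → Prop) :
    Q ε S (fun U B => ∃ i ∈ I, A i U B) ≤ ∑ i ∈ I, Q ε S (A i) := by
  classical
  induction I using Finset.induction_on with
  | empty =>
    simp only [Finset.notMem_empty, false_and, exists_false, Finset.sum_empty]
    have : Q ε S (fun _ _ => False) = 0 := by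
      unfold Q P Pr
      simp only [ind_not_of (fun h : False => h)]
      rw [Ex_const, Ex_const]
    exact this.le
  | insert a I ha ih =>
    rw [Finset.sum_insert ha]
    refine le_trans ?_ (add_le_add_right ih _)
    refine le_trans ?_ (Q_or_le h0 h1 S _ _)
    refine Q_mono h0 h1 fun U B _ _ h => ?_
    obtain ⟨i, hi, h⟩ := h
    rcases Finset.mem_insert.1 hi with rfl | hi
    · exact Or.inl h
    · exact Or.inr ⟨i, hi, h⟩

theorem Lc_B (hA : Lc T A) (U B : Finset Edg) : A U B ↔ A U (B ∩ T) := by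
  rw [hA U B, hA U (B ∩ T), Finset.inter_assoc, Finset.inter_self]

theorem Lc_U (hA : Lc T A) (U B : Finset Edg) : A U B ↔ A (U ∩ T) B := by
  rw [hA U B, hA (U ∩ T) B, Finset.inter_assoc, Finset.inter_self]

theorem Lc_mono {T' : Finset Edg} (h : T ⊆ T') (hA : Lc T A) : Lc T' A := by
  intro U B
  rw [hA U B, hA (U ∩ T') (B ∩ T'), Finset.inter_assoc, Finset.inter_assoc,
    Finset.inter_eq_right.2 h]

theorem Lc_and {T₁ T₂ : Finset Edg} {A₁ A₂ : Finset Edg → Finset Edg → Prop} (hA₁ : Lc T₁ A₁)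
    (hA₂ : Lc T₂ A₂) : Lc (T₁ ∪ T₂) (fun U B => A₁ U B ∧ A₂ U B) := by
  intro U B
  simp only
  rw [Lc_mono (T' := T₁ ∪ T₂) Finset.subset_union_left hA₁ U B,
    Lc_mono (T' := T₁ ∪ T₂) Finset.subset_union_right hA₂ U B]

theorem Lc_or {T₁ T₂ : Finset Edg} {A₁ A₂ : Finset Edg → Finset Edg → Prop} (hA₁ : Lc T₁ A₁)
    (hA₂ : Lc T₂ A₂) : Lc (T₁ ∪ T₂) (fun U B => A₁ U B ∨ A₂ U B) := by
  intro U B
  simp only
  rw [Lc_mono (T' := T₁ ∪ T₂) Finset.subset_union_left hA₁ U B,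
    Lc_mono (T' := T₁ ∪ T₂) Finset.subset_union_right hA₂ U B]

theorem Lc_mem (f : Edg) : Lc {f} (fun U _ => f ∈ U) := by
  intro U B
  simp

theorem Btw_inter {U B F : Finset Edg} (T : Finset Edg) (h : Btw U B F) :
    Btw (U ∩ T) (B ∩ T) (F ∩ T) := by
  obtain ⟨h1, h2⟩ := h
  constructor
  · intro x hx
    rw [Finset.mem_sdiff, Finset.mem_inter, Finset.mem_inter] at hx
    exact Finset.mem_inter.2 ⟨h1 (Finset.mem_sdiff.2 ⟨hx.1.1, fun h => hx.2 ⟨h, hx.1.2⟩⟩), hx.1.2⟩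
  · intro x hx
    rw [Finset.mem_inter] at hx
    rcases Finset.mem_union.1 (h2 hx.1) with h | h
    · exact Finset.mem_union.2 (Or.inl (Finset.mem_inter.2 ⟨h, hx.2⟩))
    · exact Finset.mem_union.2 (Or.inr (Finset.mem_inter.2 ⟨h, hx.2⟩))

theorem Btw_ext {U B G T : Finset Edg} (h : Btw (U ∩ T) (B ∩ T) G) :
    Btw U B (G ∪ (B \ T)) ∧ (G ∪ (B \ T)) ∩ T = G := by
  obtain ⟨h1, h2⟩ := h
  have hG : G ⊆ T := by
    intro x hx
    rcases Finset.mem_union.1 (h2 hx) with h | h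
    · exact (Finset.mem_inter.1 h).2
    · exact (Finset.mem_inter.1 h).2
  refine ⟨⟨?_, ?_⟩, ?_⟩
  · intro x hx
    rw [Finset.mem_sdiff] at hx
    by_cases hT : x ∈ T
    · exact Finset.mem_union.2 (Or.inl (h1 (Finset.mem_sdiff.2 ⟨Finset.mem_inter.2 ⟨hx.1, hT⟩,
        fun h => hx.2 (Finset.mem_inter.1 h).1⟩)))
    · exact Finset.mem_union.2 (Or.inr (Finset.mem_sdiff.2 ⟨hx.1, hT⟩))
  · intro x hx
    rcases Finset.mem_union.1 hx with h | h
    · rcases Finset.mem_union.1 (h2 h) with h | h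
      · exact Finset.mem_union.2 (Or.inl (Finset.mem_inter.1 h).1)
      · exact Finset.mem_union.2 (Or.inr (Finset.mem_inter.1 h).1)
    · exact Finset.mem_union.2 (Or.inl (Finset.mem_sdiff.1 h).1)
  · ext x
    simp only [Finset.mem_inter, Finset.mem_union, Finset.mem_sdiff]
    constructor
    · rintro ⟨h | h, hT⟩
      · exact h
      · exact absurd hT h.2
    · intro h
      exact ⟨Or.inl h, hG h⟩

theorem Lc_Sw {T : Finset Edg} {A : Finset Edg → Prop} (h : ∀ F, A F ↔ A (F ∩ T)) :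
    Lc T (Sw A) := by
  intro U B
  constructor
  · rintro ⟨F, hF, hA⟩
    exact ⟨F ∩ T, Btw_inter T hF, (h F).1 hA⟩
  · rintro ⟨G, hG, hA⟩
    obtain ⟨h1, h2⟩ := Btw_ext hG
    exact ⟨_, h1, by rw [h, h2]; exact hA⟩

theorem Btw_sub {U B F : Finset Edg} (hU : U ⊆ S) (hB : B ⊆ S) (h : Btw U B F) : F ⊆ S :=
  h.2.trans (Finset.union_subset hB hU)

theorem Q_local (hT : T ⊆ S) (hA : Lc T A) : Q ε S A = Q ε T A := by
  unfold Q
  have h1 : ∀ U, P S (fun B => A U B) = P T (fun B => A U B) := by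
    intro U
    apply Ex_local hT
    intro B _
    exact ind_congr (Lc_B hA U B)
  rw [Ex_congr (g := fun U => P T (fun B => A U B)) (fun U _ => h1 U)]
  apply Ex_local hT
  intro U _
  apply Ex_congr
  intro B _
  exact ind_congr (Lc_U hA U B)

theorem Q_and {T₁ T₂ : Finset Edg} {A₁ A₂ : Finset Edg → Finset Edg → Prop} (h₁ : T₁ ⊆ S)
    (h₂ : T₂ ⊆ S) (hd : Disjoint T₁ T₂) (hA₁ : Lc T₁ A₁) (hA₂ : Lc T₂ A₂) :
    Q ε S (fun U B => A₁ U B ∧ A₂ U B) = Q ε S A₁ * Q ε S A₂ := by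
  unfold Q
  have h1 : ∀ U, P S (fun B => A₁ U B ∧ A₂ U B) =
      P S (fun B => A₁ U B) * P S (fun B => A₂ U B) := by
    intro U
    unfold P Pr
    rw [← Ex_mul_indep h₁ h₂ hd]
    · apply Ex_congr
      intro B _
      exact ind_and _ _
    · intro B _
      exact ind_congr (Lc_B hA₁ U B)
    · intro B _
      exact ind_congr (Lc_B hA₂ U B)
  rw [Ex_congr (g := fun U => P S (fun B => A₁ U B) * P S (fun B => A₂ U B))
    (fun U _ => h1 U)]
  apply Ex_mul_indep h₁ h₂ hd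
  · intro U _
    apply Ex_congr
    intro B _
    exact ind_congr (Lc_U hA₁ U B)
  · intro U _
    apply Ex_congr
    intro B _
    exact ind_congr (Lc_U hA₂ U B)

theorem Q_mem {f : Edg} (hf : f ∈ S) : Q ε S (fun U _ => f ∈ U) = ε := by
  rw [Q_local (T := {f}) (Finset.singleton_subset_iff.2 hf) (Lc_mem f)]
  unfold Q
  have h1 : ∀ U : Finset Edg, P ({f} : Finset Edg) (fun _ => f ∈ U) = ind (f ∈ U) := by
    intro U
    unfold P Pr
    rw [Ex_const]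
  rw [Ex_congr (g := fun U => ind (f ∈ U)) (fun U _ => h1 U)]
  have h2 : ({f} : Finset Edg) = insert f ∅ := by simp
  rw [h2, Ex_insert _ (Finset.notMem_empty f), Ex_empty, Ex_empty,
    ind_of (Finset.mem_insert_self f ∅), ind_not_of (Finset.notMem_empty f)]
  ring

/-- union bound for the pivotal edge, with independence -/
theorem Q_step (h0 : 0 ≤ ε) (h1 : ε ≤ 1) {W : Finset Edg} (hW : W ⊆ S)
    {A : Finset Edg → Finset Edg → Prop} {C : Finset Edg → Prop}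
    {D : Edg → Finset Edg → Finset Edg → Prop} {T : Edg → Finset Edg}
    (hT : ∀ f ∈ W, T f ⊆ S ∧ f ∉ T f ∧ Lc (T f) (D f))
    (h : ∀ U B, U ⊆ S → B ⊆ S → A U B → C B ∨ ∃ f ∈ W, f ∈ U ∧ D f U B) :
    Q ε S A ≤ P S C + ∑ f ∈ W, ε * Q ε S (D f) := by
  have e1 : Q ε S A ≤ Q ε S (fun U B => C B ∨ ∃ f ∈ W, f ∈ U ∧ D f U B) := Q_mono h0 h1 h
  have e2 := Q_or_le h0 h1 S (fun _ B => C B) (fun U B => ∃ f ∈ W, f ∈ U ∧ D f U B)
  have e3 := Q_ex_le h0 h1 S W (fun f U B => f ∈ U ∧ D f U B)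
  have e4 : ∑ f ∈ W, Q ε S (fun U B => f ∈ U ∧ D f U B) = ∑ f ∈ W, ε * Q ε S (D f) := by
    apply Finset.sum_congr rfl
    intro f hf
    obtain ⟨g1, g2, g3⟩ := hT f hf
    rw [Q_and (Finset.singleton_subset_iff.2 (hW hf)) g1
      (Finset.disjoint_singleton_left.2 g2) (Lc_mem f) g3, Q_mem (hW hf)]
  rw [Q_B] at e2
  rw [e4] at e3
  linarith

end

end Pool.Agent.Zk72.NS
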