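import Pool.Agent.Zk72.NS.Shp

/-!
# Stability of the exploration path: the paths of all modifications are close
-/

set_option autoImplicit false

namespace Pool.Agent.Zk72.NS

open H974 Finset H342P H984P H984N H12S H389NS Pool.Agent.Zk36.TT Pool.Agent.W92.DP

theorem Btw_between {U B F G : Finset Edg} (hF : Btw U B F) (h1 : B ∩ F ⊆ G) (h2 : G ⊆ B ∪ F) :
    Btw U B G := by
  rw [Btw_iff] at hF ⊢
  intro x hx
  have h3 := hF x hx
  constructor
  · intro h
    rcases Finset.mem_union.1 (h2 h) with h | h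
    · exact h
    · exact h3.1 h
  · intro h
    exact h1 (Finset.mem_inter.2 ⟨h, h3.2 h⟩)

theorem Bef_time {D : Dm} (hD : D.Ok) {F : Finset Edg} (hF : F ⊆ D.edges) {a b : ℕ}
    (ha : a ≤ D.len F) (hb : b ≤ D.len F) (h : Bef D F (D.walk F a) (D.walk F b)) : a ≤ b := by
  obtain ⟨i, j, h1, h2, h3, h4⟩ := h
  have e1 := Pool.Agent.Zk36.TT.walk_ne hD hF (h1.trans h2) ha h3
  have e2 := Pool.Agent.Zk36.TT.walk_ne hD hF h2 hb h4
  omega

theorem t_CLO (hO : S_ORD) (hV : S_VIS) (hC : S_CLF) (hM : S_MATCH) : S_CLO := by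
  refine ⟨16, by norm_num, ?_⟩
  intro R δ U B F s hδ hD hU hB hF hs hSm
  have hFS : F ⊆ (R.dm δ).edges := Btw_sub hU hB hF
  have hL : Btw U B (B \ U) := by
    rw [Btw_iff]
    intro x hx
    simp [hx]
  have hH : Btw U B (B ∪ U) := by
    rw [Btw_iff]
    intro x hx
    simp [hx]
  have hsR : (2:ℝ) ≤ s := by exact_mod_cast hs
  -- the pieces
  have piece : ∀ G, Btw U B G → ∀ a j, a ≤ j → j ≤ (R.dm δ).len G →
      Stab (R.dm δ) U B ((R.dm δ).walk G a) →
      (∀ i, a < i → i < j → ¬ Stab (R.dm δ) U B ((R.dm δ).walk G i)) →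
      dist (pos δ ((R.dm δ).walk G j)) (pos δ ((R.dm δ).walk G a)) ≤ 8 * (δ * s) := by
    intro G hG a j haj hj hst hno
    have hGS : G ⊆ (R.dm δ).edges := Btw_sub hU hB hG
    have hδs : 0 ≤ δ * s := by positivity
    have hfar : ∀ t, a < t → t ≤ (R.dm δ).len G →
        (∀ i, a < i → i ≤ t → ¬ Stab (R.dm δ) U B ((R.dm δ).walk G i)) →
        dist (pos δ ((R.dm δ).walk G t)) (pos δ ((R.dm δ).walk G a)) ≤ δ * (6 * s + 3) := by
      intro t hat ht hn
      have h1 := hC (R.dm δ) U B G s a t hD hU hB hG hs hSm hat ht hst hn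
      have h2 : At (R.dm δ) G (ae ((R.dm δ).walk G a)) a := ⟨by omega, rfl⟩
      have h3 := at_near h2
      have h4 := Walk_sd_tri (((R.dm δ).walk G t).1) (src (ae ((R.dm δ).walk G a)))
        ((R.dm δ).walk G a).1
      rw [sd_symm _ (src (ae ((R.dm δ).walk G a)))] at h4
      have h5 : sd ((R.dm δ).walk G t).1 ((R.dm δ).walk G a).1 ≤ 3 * (s:ℤ) + 1 := by omega
      have h6 : ((sd ((R.dm δ).walk G t).1 ((R.dm δ).walk G a).1 : ℤ) : ℝ) ≤ 3 * (s:ℝ) + 1 := by
        exact_mod_cast h5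
      refine (dist_pos_le hδ _ _).trans (mul_le_mul_of_nonneg_left ?_ hδ)
      linarith
    rcases eq_or_lt_of_le haj with rfl | haj
    · rw [dist_self]
      positivity
    · have hstep : dist (pos δ ((R.dm δ).walk G j)) (pos δ ((R.dm δ).walk G (j - 1))) ≤ δ / 2 := by
        obtain ⟨m, rfl⟩ : ∃ m, j = m + 1 := ⟨j - 1, by omega⟩
        rw [Nat.add_sub_cancel, H984N.walk_succ, dist_comm]
        exact pos_nxt hδ _ _
      have h8 : δ / 2 ≤ 8 * (δ * s) := by nlinarith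
      rcases Nat.lt_or_ge a (j - 1) with h | h
      · have h1 := hfar (j - 1) h (by omega) (fun i h1 h2 => hno i h1 (by omega))
        have h2 := dist_triangle (pos δ ((R.dm δ).walk G j)) (pos δ ((R.dm δ).walk G (j - 1)))
          (pos δ ((R.dm δ).walk G a))
        nlinarith
      · have h1 : j - 1 = a := by omega
        rw [h1] at hstep
        linarith
  have hend : ∀ G, Btw U B G → (R.dm δ).walk G ((R.dm δ).len G) = Dm.stop := fun G hG =>
    len_stop hD (Btw_sub hU hB hG)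
  have key : ∀ G G', Btw U B G → Btw U B G' → ∀ a b a' b', a ≤ (R.dm δ).len G →
      b ≤ (R.dm δ).len G' → (R.dm δ).walk G a = (R.dm δ).walk G' b →
      Stab (R.dm δ) U B ((R.dm δ).walk G a) → a' ≤ (R.dm δ).len G →
      b' ≤ (R.dm δ).len G' → (R.dm δ).walk G a' = (R.dm δ).walk G' b' →
      Stab (R.dm δ) U B ((R.dm δ).walk G a') → a < a' → b < b' := by
    intro G G' hG hG' a b a' b' ha hb hab hst ha' hb' hab' hst' hlt
    have hGS : G ⊆ (R.dm δ).edges := Btw_sub hU hB hG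
    have hGS' : G' ⊆ (R.dm δ).edges := Btw_sub hU hB hG'
    have hbt : ∀ K, G ∩ G' ⊆ K → K ⊆ G ∪ G' → Btw U B K := by
      intro K h1 h2
      rw [Btw_iff] at hG hG' ⊢
      intro x hx
      constructor
      · intro h
        rcases Finset.mem_union.1 (h2 h) with h | h
        · exact (hG x hx).1 h
        · exact (hG' x hx).1 h
      · intro h
        exact h1 (Finset.mem_inter.2 ⟨(hG x hx).2 h, (hG' x hx).2 h⟩)
    have h1 : Bef (R.dm δ) G' ((R.dm δ).walk G a) ((R.dm δ).walk G a') :=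
      hO (R.dm δ) G G' _ _ hD hGS hGS' (fun K h1 h2 =>
        ⟨(hV (R.dm δ) U B _ hD hU hB).1 hst K (hbt K h1 h2),
          (hV (R.dm δ) U B _ hD hU hB).1 hst' K (hbt K h1 h2)⟩)
        ⟨a, a', hlt.le, ha', rfl, rfl⟩
    rw [hab, hab'] at h1
    have h2 := Bef_time hD hGS' hb hb' h1
    rcases eq_or_lt_of_le h2 with h | h
    · exfalso
      rw [← h, ← hab] at hab'
      have := Pool.Agent.Zk36.TT.walk_ne hD hGS ha ha' hab'.symm
      omega
    · exact h
  have hBB : Btw U B B := Btw_self U B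
  set T : ℕ → ℕ → Prop := fun a b => a ≤ (R.dm δ).len B ∧ b ≤ (R.dm δ).len F ∧
    (R.dm δ).walk B a = (R.dm δ).walk F b ∧ Stab (R.dm δ) U B ((R.dm δ).walk B a) with hT
  have hmatch := hM ((R.dm δ).len B) ((R.dm δ).len F) (fun k => pos δ ((R.dm δ).walk B k))
    (fun k => pos δ ((R.dm δ).walk F k)) (8 * (δ * s)) T (by positivity)
    ⟨Nat.zero_le _, Nat.zero_le _, rfl, (hV (R.dm δ) U B _ hD hU hB).2
      ⟨0, Nat.zero_le _, rfl⟩ ⟨0, Nat.zero_le _, rfl⟩⟩
    ⟨le_rfl, le_rfl, by rw [hend B hBB, hend F hF], (hV (R.dm δ) U B _ hD hU hB).2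
      ⟨_, le_rfl, by rw [hend _ hL, hend B hBB]⟩ ⟨_, le_rfl, by rw [hend _ hH, hend B hBB]⟩⟩
    (fun a b h => ⟨h.1, h.2.1⟩)
    (fun a b a' b' h h' => ⟨fun hlt => key B F hBB hF a b a' b' h.1 h.2.1 h.2.2.1 h.2.2.2
        h'.1 h'.2.1 h'.2.2.1 h'.2.2.2 hlt,
      fun hlt => key F B hF hBB b a b' a' h.2.1 h.1 h.2.2.1.symm (h.2.2.1 ▸ h.2.2.2)
        h'.2.1 h'.1 h'.2.2.1.symm (h'.2.2.1 ▸ h'.2.2.2) hlt⟩)
    (fun a b h => by
      show pos δ ((R.dm δ).walk B a) = pos δ ((R.dm δ).walk F b)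
      rw [h.2.2.1])
    (fun a b j h haj hj hno => piece B hBB a j haj hj h.2.2.2 (fun i h1 h2 hst => by
      obtain ⟨b', hb', hbb⟩ := (hV (R.dm δ) U B _ hD hU hB).1 hst F hF
      rcases hno i b' ⟨by omega, hb', hbb.symm, hst⟩ with h3 | h3 <;> omega))
    (fun a b j h hbj hj hno => piece F hF b j hbj hj (h.2.2.1 ▸ h.2.2.2) (fun i h1 h2 hst => by
      obtain ⟨a', ha', haa⟩ := (hV (R.dm δ) U B _ hD hU hB).1 hst B hBB
      rcases hno a' i ⟨ha', by omega, haa, haa ▸ hst⟩ with h3 | h3 <;> omega))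
  have hfin : H342L.cdist (R.curve δ B) (R.curve δ F) ≤ 2 * (8 * (δ * s)) := hmatch
  linarith

end Pool.Agent.Zk72.NS
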