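import Pool.Agent.Zk72.NS.Shp3
import Pool.Agent.Zk78.NS.CPL
import Pool.Agent.Zk78.Wk

/-!
# Stability of the exploration path: dependent laws, and the limits of the laws of the curve
-/

set_option autoImplicit false

namespace Pool.Agent.Zk72.NS

open H974 Finset H342P H984P H984N H12S H389NS Pool.Agent.Zk36.TT Pool.Agent.W92.DP
open MeasureTheory TopologicalSpace Filter Topology H342L

/-- the bound for the worst modification, as a statement -/
def Shr (R : Rect) (C δ0 : ℝ) : Prop := ∀ δ : ℝ, 0 < δ → δ ≤ δ0 → (R.dm δ).Ok ∧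
      ∀ ε : ℝ, 0 ≤ ε → ε ≤ 1 → ∀ ρ : ℝ, 0 < ρ →
      Q ε (R.dm δ).edges (fun U B => ρ < worst R δ U B) ≤
        C * (ε * δ ^ (-(3/4) : ℝ)) / ρ

/-- `w` is a probability with conditional edge probabilities near one half -/
def NearP (S : Finset Edg) (ε : ℝ) (w : Finset Edg → ℝ) : Prop :=
  (∀ F ⊆ S, 0 ≤ w F) ∧ ∑ F ∈ S.powerset, w F = 1 ∧
    ∀ e ∈ S, ∀ F ⊆ S, e ∉ F → |w (insert e F) - w F| ≤ 2 * ε * (w (insert e F) + w F)

/-- `c` is a coupling of `w` and the uniform law -/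
def Cpl (S : Finset Edg) (w : Finset Edg → ℝ) (c : Finset Edg → Finset Edg → ℝ) : Prop :=
  (∀ F F', 0 ≤ c F F') ∧ (∀ F ∈ S.powerset, ∑ F' ∈ S.powerset, c F F' = w F) ∧
    ∀ F' ∈ S.powerset, ∑ F ∈ S.powerset, c F F' = (1 / 2) ^ S.card

theorem coupling_of {R : Rect} {C δ0 : ℝ} (h : Shr R C δ0) {δ : ℝ} (hδ : 0 < δ) (hδ0 : δ ≤ δ0)
    {ε : ℝ} (h0 : 0 ≤ ε) (h1 : ε ≤ 1/2) {w : Finset Edg → ℝ}
    (hw : NearP (R.dm δ).edges ε w) : ∃ c, Cpl (R.dm δ).edges w c ∧ ∀ ρ : ℝ, 0 < ρ →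
      ∑ F ∈ (R.dm δ).edges.powerset, ∑ F' ∈ (R.dm δ).edges.powerset,
        c F F' * ind (ρ < cdist (R.curve δ F) (R.curve δ F')) ≤
        2 * C * (ε * δ ^ (-(3/4) : ℝ)) / ρ := by
  obtain ⟨hD, hb⟩ := h δ hδ hδ0
  obtain ⟨c, hc0, hc1, hc2, hc3⟩ := Pool.Agent.Zk78.NS.t_CPL (R.dm δ).edges ε w h0 h1 hw.1
    hw.2.1 hw.2.2
  refine ⟨c, ⟨hc0, hc1, hc2⟩, fun ρ hρ => ?_⟩
  have g1 := hc3 (fun F F' => ind (ρ < cdist (R.curve δ F) (R.curve δ F')))
    (fun U B => ind (ρ < worst R δ U B)) (fun U B F hU hB hF => ind_mono fun h => by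
      have a1 := le_worst hδ.le hD hB (Btw_sub hU hB hF) (Btw_eq hF)
      rw [cdist_comm] at a1
      exact lt_of_lt_of_le h a1)
  have g2 := hb (2 * ε) (by linarith) (by linarith) ρ hρ
  refine g1.trans (g2.trans (le_of_eq ?_))
  ring

/-- The exploration path, modulo reparametrisation. -/
noncomputable def crv (R : Rect) (δ : ℝ) (F : Finset Edg) : Curve := ⟨R.curve δ F⟩

/-- The law of the exploration path when the set of open edges has the law `w`. -/
noncomputable def clawM (R : Rect) (δ : ℝ) (w : Finset Edg → ℝ) : Measure Curve :=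
  ∑ F ∈ (R.dm δ).edges.powerset, ENNReal.ofReal (w F) • Measure.dirac (crv R δ F)

theorem clawM_univ (R : Rect) (δ : ℝ) {w : Finset Edg → ℝ}
    (h0 : ∀ F ⊆ (R.dm δ).edges, 0 ≤ w F)
    (h1 : ∑ F ∈ (R.dm δ).edges.powerset, w F = 1) : clawM R δ w Set.univ = 1 := by
  unfold clawM
  rw [Measure.finsetSum_apply]
  simp only [Measure.smul_apply, measure_univ, smul_eq_mul, mul_one]
  rw [← ENNReal.ofReal_sum_of_nonneg (fun F hF => h0 F (Finset.mem_powerset.1 hF)), h1,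
    ENNReal.ofReal_one]

theorem clawM_integral (R : Rect) (δ : ℝ) {w : Finset Edg → ℝ}
    (h0 : ∀ F ⊆ (R.dm δ).edges, 0 ≤ w F) (G : Curve → ℝ) (hG : Continuous G) :
    ∫ x, G x ∂(clawM R δ w) = ∑ F ∈ (R.dm δ).edges.powerset, w F * G (crv R δ F) := by
  unfold clawM
  rw [integral_finsetSum_measure]
  · refine Finset.sum_congr rfl fun F hF => ?_
    rw [integral_smul_measure, integral_dirac' _ _ hG.stronglyMeasurable,
      ENNReal.toReal_ofReal (h0 F (Finset.mem_powerset.1 hF)), smul_eq_mul]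
  · intro F _
    refine Integrable.smul_measure ?_ ENNReal.ofReal_ne_top
    exact integrable_dirac' hG.stronglyMeasurable (by simp)

/-- The law of the curve as a probability measure. -/
noncomputable def claw (R : Rect) (δ : ℝ) {ε : ℝ} (w : Finset Edg → ℝ)
    (h : NearP (R.dm δ).edges ε w) : ProbabilityMeasure Curve :=
  ⟨clawM R δ w, ⟨clawM_univ R δ h.1 h.2.1⟩⟩

theorem half_nearP (S : Finset Edg) : NearP S 0 (fun _ => (1/2) ^ S.card) := by
  refine ⟨fun F _ => by positivity, ?_, fun e _ F _ _ => ?_⟩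
  · rw [Finset.sum_const, Finset.card_powerset, nsmul_eq_mul]
    push_cast
    rw [← mul_pow]
    norm_num
  · simp

/-- The limits of the laws of the curves in the window. -/
theorem limits_of {R : Rect} {C δ0 : ℝ} (hC : 0 < C) (hδ0' : 0 < δ0) (hδ01 : δ0 < 1)
    (hS : Shr R C δ0) (δ ε : ℕ → ℝ) (w : ℕ → Finset Edg → ℝ) (hδ0 : ∀ n, 0 < δ n)
    (hδ : Tendsto δ atTop (𝓝 0)) (hε0 : ∀ n, 0 ≤ ε n)
    (hε : Tendsto (fun n => ε n * δ n ^ (-(3/4) : ℝ)) atTop (𝓝 0))
    (hw : ∀ n, NearP (R.dm (δ n)).edges (ε n) (w n))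
    (P : ProbabilityMeasure Curve) :
    Tendsto (fun n => claw R (δ n) (w n) (hw n)) atTop (𝓝 P) ↔
      Tendsto (fun n => claw R (δ n) (fun _ => (1/2) ^ (R.dm (δ n)).edges.card)
        (half_nearP _)) atTop (𝓝 P) := by
  have hex : ∀ n, ∃ c, Cpl (R.dm (δ n)).edges (w n) c ∧
      (δ n ≤ δ0 → ε n ≤ 1/2 → ∀ ρ : ℝ, 0 < ρ →
        ∑ F ∈ (R.dm (δ n)).edges.powerset, ∑ F' ∈ (R.dm (δ n)).edges.powerset,
          c F F' * ind (ρ < cdist (R.curve (δ n) F) (R.curve (δ n) F')) ≤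
            2 * C * (ε n * δ n ^ (-(3/4) : ℝ)) / ρ) := by
    intro n
    by_cases hn : δ n ≤ δ0 ∧ ε n ≤ 1/2
    · obtain ⟨c, h1, h2⟩ := coupling_of hS (hδ0 n) hn.1 (hε0 n) hn.2 (hw n)
      exact ⟨c, h1, fun _ _ => h2⟩
    · classical
      refine ⟨fun F F' => if F ∈ (R.dm (δ n)).edges.powerset then
        w n F * (1/2) ^ (R.dm (δ n)).edges.card else 0, ⟨?_, ?_, ?_⟩,
        fun h1 h2 => absurd ⟨h1, h2⟩ hn⟩
      · intro F F'
        show 0 ≤ (if F ∈ (R.dm (δ n)).edges.powerset then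
          w n F * (1/2) ^ (R.dm (δ n)).edges.card else 0)
        split_ifs with h
        · exact mul_nonneg ((hw n).1 F (Finset.mem_powerset.1 h)) (by positivity)
        · exact le_rfl
      · intro F hF
        simp only [if_pos hF]
        rw [Finset.sum_const, Finset.card_powerset, nsmul_eq_mul]
        push_cast
        rw [mul_left_comm, ← mul_pow]
        norm_num
      · intro F' _
        have e1 : ∀ F ∈ (R.dm (δ n)).edges.powerset,
            (if F ∈ (R.dm (δ n)).edges.powerset then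
              w n F * (1/2) ^ (R.dm (δ n)).edges.card else 0) =
            w n F * (1/2) ^ (R.dm (δ n)).edges.card := fun F hF => if_pos hF
        rw [Finset.sum_congr rfl e1, ← Finset.sum_mul, (hw n).2.1, one_mul]
  choose c hc hc3 using hex
  refine Pool.Agent.Zk60.NW.weak_of_coupling (fun n => claw R (δ n) (w n) (hw n))
    (fun n => claw R (δ n) (fun _ => (1/2) ^ (R.dm (δ n)).edges.card) (half_nearP _))
    (fun n => (R.dm (δ n)).edges.powerset) c (fun n => crv R (δ n)) (fun n => (hc n).1)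
    ?_ ?_ ?_ ?_ P
  · intro n
    rw [Finset.sum_congr rfl (fun F hF => (hc n).2.1 F hF)]
    exact (hw n).2.1
  · intro n G hG _
    show ∫ x, G x ∂(clawM R (δ n) (w n)) = _
    rw [clawM_integral R (δ n) (hw n).1 G hG]
    refine Finset.sum_congr rfl fun F hF => ?_
    rw [← (hc n).2.1 F hF, Finset.sum_mul]
  · intro n G hG _
    show ∫ x, G x ∂(clawM R (δ n) (fun _ => (1/2) ^ (R.dm (δ n)).edges.card)) = _
    rw [clawM_integral R (δ n) (half_nearP _).1 G hG, Finset.sum_comm]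
    refine Finset.sum_congr rfl fun F' hF' => ?_
    rw [← Finset.sum_mul, (hc n).2.2 F' hF']
  · intro ρ hρ
    have hlim : Tendsto (fun n => 2 * C * (ε n * δ n ^ (-(3/4) : ℝ)) / ρ) atTop (𝓝 0) := by
      have := (hε.const_mul (2 * C)).div_const ρ
      rw [mul_zero, zero_div] at this
      exact this
    have hev1 : ∀ᶠ n in atTop, δ n ≤ δ0 := (hδ.eventually_lt_const hδ0').mono fun n h => h.le
    have hev2 : ∀ᶠ n in atTop, ε n * δ n ^ (-(3/4) : ℝ) < 1/2 :=
      hε.eventually_lt_const (by norm_num)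
    refine squeeze_zero' (Eventually.of_forall fun n => Finset.sum_nonneg fun F _ =>
      Finset.sum_nonneg fun F' _ => mul_nonneg ((hc n).1 F F') (ind_nonneg _)) ?_ hlim
    filter_upwards [hev1, hev2] with n h1 h2
    have h3 : ε n ≤ 1/2 := by
      have h4 : 1 ≤ δ n ^ (-(3/4) : ℝ) :=
        Real.one_le_rpow_of_pos_of_le_one_of_nonpos (hδ0 n) (h1.trans hδ01.le) (by norm_num)
      nlinarith [hε0 n]
    exact hc3 n h1 h3 ρ hρ

end Pool.Agent.Zk72.NS
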