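import Pool.Agent.Zk72.NS.Stm
import Pool.Agent.H443R3.BT.Conv
import Pool.Agent.H984R4.NP.Two

/-!
# Stability of the exploration path under noise: the arm of an excursion

If an edge is examined twice, the excursion in between follows an open path (if the edge is open)
or a closed dual path (if it is closed) which does not use the boundary condition.
-/

set_option autoImplicit false

namespace Pool.Agent.Zk72.NS

open H974 Finset H342P H984P H984N Pool.Agent.Zk36.TT

variable {D : Dm} {F : Finset Edg} {e : Edg}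

theorem wir_clu (hD : D.Ok) (F : Finset Edg) {f : Edg} (hf : f ∈ D.wir) :
    src f ∈ D.clu F ∧ tgt f ∈ D.clu F := by
  have key : ∀ g ∈ D.wir, src g ∈ D.clu F → tgt g ∈ D.clu F := by
    intro g hg h
    have h' : Reach (D.cfg F) (0, 0) (src g) := h
    exact h'.trans (Adj.reach ⟨g, Or.inr hg, Or.inl ⟨rfl, rfl⟩⟩)
  have hs : src f ∈ D.clu F := by
    obtain ⟨h1, h2, h3, h4, h5⟩ := hD
    obtain ⟨x, y, b⟩ := f
    rcases hf with hf | hf | hf
    · simp only at hf
      obtain ⟨rfl, rfl, hx1, hx2⟩ := hf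
      have e1 := clu_bottom (D := D) F (-D.l).toNat (by omega)
      have e2 := clu_left (D := D) F D.h.toNat (by omega)
      have e3 := clu_top (D := D) F (x - D.l).toNat (by omega)
      have f1 : -(((-D.l).toNat : ℕ) : ℤ) = D.l := by omega
      have f2 : ((D.h.toNat : ℕ) : ℤ) = D.h := by omega
      have f3 : D.l + (((x - D.l).toNat : ℕ) : ℤ) = x := by omega
      rw [f1] at e1
      rw [f2] at e2
      rw [f3] at e3
      exact (e1.trans e2).trans e3
    · simp only at hf
      obtain ⟨rfl, rfl, hy1, hy2⟩ := hf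
      have e1 := clu_bottom (D := D) F (-D.l).toNat (by omega)
      have e2 := clu_left (D := D) F y.toNat (by omega)
      have f1 : -(((-D.l).toNat : ℕ) : ℤ) = D.l := by omega
      have f2 : ((y.toNat : ℕ) : ℤ) = y := by omega
      rw [f1] at e1
      rw [f2] at e2
      exact e1.trans e2
    · simp only at hf
      obtain ⟨rfl, rfl, hx1, hx2⟩ := hf
      have e1 := clu_bottom (D := D) F (-x).toNat (by omega)
      have f1 : -(((-x).toNat : ℕ) : ℤ) = x := by omega
      rw [f1] at e1
      exact e1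
  exact ⟨hs, key f hf hs⟩

theorem cfg_mono {F G : Finset Edg} (h : F ⊆ G) : D.cfg F ⊆ D.cfg G := by
  unfold Dm.cfg
  exact Set.union_subset_union_left _ (by exact_mod_cast h)

theorem clu_mono {F G : Finset Edg} (h : F ⊆ G) : D.clu F ⊆ D.clu G := by
  intro v hv
  have hv' : Reach (D.cfg F) (0, 0) v := hv
  exact Reach.mono (cfg_mono h) hv'

theorem dclu_mono {F G : Finset Edg} (h : F ⊆ G) : D.dclu G ⊆ D.dclu F := by
  rintro f ⟨g, hg, hr⟩
  exact ⟨g, hg, DReach.mono (Set.sdiff_subset_sdiff_right (cfg_mono h)) hr⟩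

/-- the piece which is cut out is not visited any more -/
theorem not_vis (hD : D.Ok) (hF : F ⊆ D.edges) (hw : e ∉ D.wir) {i l : ℕ}
    (hT : Twice D F e i l) {m : ℕ} (him : i < m) (hml : m ≤ l) :
    ¬ ∃ k ≤ D.len (flip e F), D.walk (flip e F) k = D.walk F m := by
  obtain ⟨h1, h2, h3, h4⟩ := cut hD hF hw hT.1 hT.2.1 hT.2.2
  have hl := hT.2.2.1
  rintro ⟨k, hk, hkm⟩
  rw [h1] at hk
  rcases le_or_gt k i with h | h
  · rw [h2 k h] at hkm
    have := walk_ne hD hF (by omega) (by omega) hkm
    omega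
  · obtain ⟨s, rfl⟩ : ∃ s, k = i + s := ⟨k - i, by omega⟩
    rw [h3 s (by omega) (by omega)] at hkm
    have := walk_ne hD hF (by omega) (by omega) hkm
    omega

theorem block_arm (hD : D.Ok) (hF : F ⊆ D.edges) (he : e ∈ D.edges) (hw : e ∉ D.wir) {i l : ℕ}
    (hT : Twice D F e i l) {j : ℕ} (hij : i < j) (hjl : j ≤ l) :
    (e ∈ F ∧ Reach (↑F : Set Edg) (D.walk F (i + 1)).1 (D.walk F j).1) ∨
    (e ∉ F ∧ DReach (↑(D.edges \ F) : Set Edg) (face (D.walk F (i + 1))) (face (D.walk F j))) := by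
  have hF' : flip e F ⊆ D.edges := flip_sub he hF
  have hl := hT.2.2.1
  have hnv : ∀ m, i < m → m ≤ l → ¬ ((D.walk F m).1 ∈ D.clu (flip e F) ∧
      face (D.walk F m) ∈ D.dclu (flip e F)) := by
    rintro m h1 h2 ⟨h3, h4⟩
    exact not_vis hD hF hw hT h1 h2 (H443B.visited hD hF' h3 h4)
  have hat : ∀ m, i < m → m < l → ae (D.walk F m) ≠ e := by
    intro m h1 h2 h3
    have := (hT.iff hD hF m).1 ⟨by omega, h3⟩
    omega
  by_cases heF : e ∈ F
  · left
    refine ⟨heF, ?_⟩
    have hsub : flip e F ⊆ F := by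
      unfold Pool.Agent.Zk36.TT.flip
      rw [if_pos heF]
      exact Finset.erase_subset _ _
    have hnc : ∀ m, i < m → m ≤ l → (D.walk F m).1 ∉ D.clu (flip e F) := by
      intro m h1 h2 h3
      exact hnv m h1 h2 ⟨h3, dclu_mono hsub (walk_clu hD hF (by omega)).2⟩
    induction j, (show i + 1 ≤ j from hij) using Nat.le_induction with
    | base => exact Reach.refl _ _
    | succ m hm ih =>
      refine (ih (by omega) (by omega)).trans ?_
      rw [H984N.walk_succ]
      by_cases hc : ae (D.walk F m) ∈ D.cfg F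
      · rw [nxt_open hc]
        rcases hc with hc | hc
        · exact Adj.reach ⟨_, hc, p2_ends _⟩
        · exfalso
          have h1 := wir_clu hD (flip e F) hc
          have h2 := hnc m (by omega) (by omega)
          rcases p2_ends (D.walk F m) with h3 | h3
          · rw [h3.1] at h1
            exact h2 h1.1
          · rw [h3.2] at h1
            exact h2 h1.2
      · rw [nxt_closed hc, p2_rt_fst]
        exact Reach.refl _ _
  · right
    refine ⟨heF, ?_⟩
    have hsub : F ⊆ flip e F := by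
      unfold Pool.Agent.Zk36.TT.flip
      rw [if_neg heF]
      exact Finset.subset_insert _ _
    have hnc : ∀ m, i < m → m ≤ l → face (D.walk F m) ∉ D.dclu (flip e F) := by
      intro m h1 h2 h3
      exact hnv m h1 h2 ⟨clu_mono hsub (walk_clu hD hF (by omega)).1, h3⟩
    induction j, (show i + 1 ≤ j from hij) using Nat.le_induction with
    | base => exact DReach.refl _ _
    | succ m hm ih =>
      refine (ih (by omega) (by omega)).trans ?_
      rw [H984N.walk_succ]
      by_cases hc : ae (D.walk F m) ∈ D.cfg F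
      · rw [nxt_open hc, p2_face_mv]
        exact DReach.refl _ _
      · rw [nxt_closed hc]
        rcases walk_closed hD hF (show m < D.len F by omega) hc with h1 | h1
        · refine DAdj.reach ⟨ae (D.walk F m), ?_, p2_dends _⟩
          rw [Finset.coe_sdiff]
          exact ⟨h1, fun h2 => hc (Or.inl h2)⟩
        · exfalso
          exact hnc m (by omega) (by omega) ⟨_, h1, DReach.refl _ _⟩

theorem far_of {u v : Vtx} {r R : ℕ} (h : (r : ℤ) ≤ sd u v) (hR : R ≤ r) :
    v.1 ≤ u.1 - R ∨ u.1 + R ≤ v.1 ∨ v.2 ≤ u.2 - R ∨ u.2 + R ≤ v.2 := by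
  unfold sd at h
  rw [le_max_iff, le_abs, le_abs] at h
  omega

theorem near_of {u v : Vtx} {k : ℤ} (h : sd u v ≤ k) :
    (u.1 - k ≤ v.1 ∧ v.1 ≤ u.1 + k) ∧ (u.2 - k ≤ v.2 ∧ v.2 ≤ u.2 + k) := by
  unfold sd at h
  rw [max_le_iff, abs_le, abs_le] at h
  omega

/-- an excursion crosses the annuli, outside of the box of size `k` -/
theorem exc_out (hD : D.Ok) (hF : F ⊆ D.edges) (he : e ∈ D.edges) (hw : e ∉ D.wir) {r k R : ℕ}
    (hk : 3 ≤ k) (hR : R + 1 ≤ r) (h : Exc D F e r) :
    H12S.Crs (src e).1 (src e).2 (k + 1) R (↑(F \ RE ((src e).1 - k) ((src e).1 + k)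
      ((src e).2 - k) ((src e).2 + k)) : Set Edg) ∨
    H12S.DCrs (src e).1 (src e).2 (k + 1) R
      (↑((D.edges \ RE ((src e).1 - k) ((src e).1 + k) ((src e).2 - k) ((src e).2 + k)) \ F) :
        Set Edg) := by
  obtain ⟨i, j, l, hij, hjl, hi, hl, hj⟩ := h
  have hT : Twice D F e i l := ⟨by omega, hi, hl⟩
  have h1 := at_near hi
  have h2 := walk_step D F i
  have h3 := Walk_sd_tri (src e) (D.walk F i).1 (D.walk F (i + 1)).1
  have hu := near_of (show sd (src e) (D.walk F (i + 1)).1 ≤ 2 by omega)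
  have hfw := far_of hj le_rfl
  set c1 := (src e).1 with hc1
  set c2 := (src e).2 with hc2
  rcases block_arm hD hF he hw hT hij hjl.le with ⟨-, hp⟩ | ⟨-, hp⟩
  · left
    obtain ⟨x, hx, hq⟩ := arms_reach
      (X := ((↑(RE (c1 - k) (c1 + k) (c2 - k) (c2 + k)) : Set Edg))ᶜ)
      (G := (↑(F \ RE (c1 - k) (c1 + k) (c2 - k) (c2 + k)) : Set Edg))
      (fun z => ¬ ((c1 - k ≤ z.1 ∧ z.1 ≤ c1 + k) ∧ (c2 - k ≤ z.2 ∧ z.2 ≤ c2 + k)))
      (fun e _ hB => by
        intro hcon
        have hcon' : e ∈ RE (c1 - k) (c1 + k) (c2 - k) (c2 + k) := hcon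
        obtain ⟨x, y, _ | _⟩ := e
        · simp only [mem_RE_false] at hcon'
          simp only [src_mk, tgt_false] at hB
          omega
        · simp only [mem_RE_true] at hcon'
          simp only [src_mk, tgt_true] at hB
          omega)
      (by
        rw [Finset.coe_sdiff]
        exact fun e he => he) hp.symm (by rw [not_not]; omega)
    refine ⟨x, (D.walk F j).1, ?_, by omega, hq.symm⟩
    rw [not_not] at hx
    unfold inR
    push_cast
    omega
  · right
    have g1 := arms_face (D.walk F (i + 1))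
    have g2 := arms_face (D.walk F j)
    obtain ⟨x, hx, hq⟩ := arms_dreach
      (X := ((↑(RE (c1 - k) (c1 + k) (c2 - k) (c2 + k)) : Set Edg))ᶜ)
      (G := (↑((D.edges \ RE (c1 - k) (c1 + k) (c2 - k) (c2 + k)) \ F) : Set Edg))
      (fun z => ¬ ((c1 - k - 1 ≤ z.1 ∧ z.1 ≤ c1 + k) ∧ (c2 - k - 1 ≤ z.2 ∧ z.2 ≤ c2 + k)))
      (fun e _ hB => by
        intro hcon
        have hcon' : e ∈ RE (c1 - k) (c1 + k) (c2 - k) (c2 + k) := hcon
        obtain ⟨x, y, _ | _⟩ := e
        · simp only [mem_RE_false] at hcon'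
          simp only [dsrc_false, dtgt_mk] at hB
          omega
        · simp only [mem_RE_true] at hcon'
          simp only [dsrc_true, dtgt_mk] at hB
          omega)
      (by
        rintro g ⟨hg1, hg2⟩
        rw [Finset.coe_sdiff] at hg1
        rw [Finset.coe_sdiff, Finset.coe_sdiff]
        exact ⟨⟨hg1.1, hg2⟩, hg1.2⟩) hp.symm (by rw [not_not]; omega)
    refine ⟨x, face (D.walk F j), ?_, by omega, hq.symm⟩
    rw [not_not] at hx
    unfold inR
    push_cast
    omega

end Pool.Agent.Zk72.NS
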