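import Pool.Agent.Zk72.NS.Main
import Pool.Agent.Zk72.NS.Clo
import Pool.Agent.Zk72.NS.Lim
import Pool.Agent.Zk82.NS.CLF
import Pool.Agent.Zk67.NS.CLH
import Pool.Agent.Zk11.NS.CLL
import Pool.Agent.Zk96.NS.EXC
import Pool.Agent.Zk78.NS.ORD
import Pool.Agent.Zk76.NS.MATCH

/-!
# Stability of the exploration path: the sharp bound
-/

set_option autoImplicit false

namespace Pool.Agent.Zk72.NS

open H974 Finset H342P H984P H984N H12S H389NS Pool.Agent.Zk36.TT Pool.Agent.W92.DP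

theorem clo : S_CLO := by
  have hx := Pool.Agent.Zk96.NS.EXC.t_EXC
  have hv := Pool.Agent.Zk96.NS.EXC.t_VIS
  have hf := Pool.Agent.Zk96.NS.EXC.t_FST
  have hl := Pool.Agent.Zk11.NS.t_CLL hx hf
  have hh := Pool.Agent.Zk67.NS.CLH.t_CLH hx
  have ho := Pool.Agent.Zk78.NS.t_ORD
  exact t_CLO ho hv (Pool.Agent.Zk82.NS.t_CLF ho hx hv hl hh) Pool.Agent.Zk76.NS.t_MATCH

theorem sharp_main (R : Rect) : ∃ C δ0 : ℝ, 0 < C ∧ 0 < δ0 ∧ δ0 < 1 ∧ Shr R C δ0 :=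
  sharp a4u a2u a1u clo R

end Pool.Agent.Zk72.NS
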