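import Pool.Agent.Zk72.NS.Stm
import Pool.Agent.W571.DPad

/-!
# Stability of the exploration path when an adversary modifies a sparse random set of edges:
definitions and statements of the parts

`U` is a random set of edges (each with probability `ε`), `B` is the critical configuration
(independent of `U`), and the adversary may choose any configuration which is equal to `B`
outside of `U`.
-/

set_option autoImplicit false

namespace Pool.Agent.Zk72.NS

open H974 Finset H342P H984P H984N H12S H389NS Pool.Agent.Zk36.TT Pool.Agent.W92.DP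

/-- `F` is equal to `B` outside of `U` -/
def Btw (U B F : Finset Edg) : Prop := B \ U ⊆ F ∧ F ⊆ B ∪ U

/-- the event `A` holds after some modification on `U` -/
def Sw (A : Finset Edg → Prop) (U B : Finset Edg) : Prop := ∃ F, Btw U B F ∧ A F

/-- probability for the pair `(U, B)` -/
noncomputable def Q (ε : ℝ) (S : Finset Edg) (A : Finset Edg → Finset Edg → Prop) : ℝ :=
  Ex (fun _ => ε) S (fun U => P S (fun B => A U B))

/-- the event depends only on the edges of `T` -/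
def Lc (T : Finset Edg) (A : Finset Edg → Finset Edg → Prop) : Prop :=
  ∀ U B, A U B ↔ A (U ∩ T) (B ∩ T)

/-- the open edges, or the duals of the closed edges -/
def gd (b : Bool) (F : Finset Edg) : Set Edg := if b then ↑F else dl '' (↑F)ᶜ

/-- the edge, or its dual -/
def gm (b : Bool) (f : Edg) : Edg := if b then f else dl f

/-- four arms: two distinct clusters of `gd b F` cross the annulus -/
def F4 (b : Bool) (v : Vtx) (d k : ℕ) (F : Finset Edg) : Prop := A4a v d k (gd b F)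

/-- a path which crosses the annulus -/
def Cx (v : Vtx) (d k : ℕ) (G : Set Edg) : Prop :=
  ∃ u ∈ bdB v d, ∃ w ∈ bdB v k, Reach (G ∩ ↑(blk v k \ blk v d)) u w

/-- two arms: an open path and a closed dual path cross the annulus -/
def F2 (v : Vtx) (d k : ℕ) (F : Finset Edg) : Prop :=
  Cx v d k (gd true F) ∧ Cx v d k (gd false F)

/-- the edges on which these events depend -/
noncomputable def rg (b : Bool) (v : Vtx) (d k : ℕ) : Finset Edg :=
  (blk v (k + 1)).filter (fun h => gm b h ∈ blk v k \ blk v d)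

/-! ### Deterministic statements -/

/-- CHN: if `A` holds for a modification `F` of `B` on `U`, then it holds after `F` is reset to `B`
in the region `W`, or some edge of `U` in `W` is pivotal for `A` in some modification. -/
def S_CHN : Prop := ∀ (U B F W : Finset Edg) (A : Finset Edg → Prop), Btw U B F → A F →
  A ((F \ W) ∪ (B ∩ W)) ∨
    ∃ F₁ f, Btw U B F₁ ∧ f ∈ W ∧ f ∈ U ∧ A F₁ ∧ ¬ A (flip f F₁)

/-- EXI: a path from the box to far away crosses the annulus inside the annulus. -/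
def S_EXI : Prop := ∀ (v : Vtx) (d k : ℕ) (G : Set Edg) (p q : Vtx), d ≤ k → sd v p ≤ d →
  (k : ℤ) ≤ sd v q → Reach G p q → ∃ u ∈ bdB v d, ∃ w ∈ bdB v k,
    Reach (G ∩ ↑(blk v k \ blk v d)) u w ∧ Reach G p u ∧ Reach G w q

/-- MON: monotonicity of the four arm event in the annulus. -/
def S_MON : Prop := ∀ (v : Vtx) (d d' k' k : ℕ) (G : Set Edg), d ≤ d' → d' ≤ k' → k' ≤ k →
  A4a v d k G → A4a v d' k' G

/-- LOC: four arms around an edge. -/
def S_LOC : Prop := ∀ (G : Set Edg) (g : Edg) (p q : Vtx) (m : ℕ), 1 ≤ m →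
  ¬ Reach (G \ {g}) (src g) (tgt g) → Reach (G \ {g}) (src g) p → Reach (G \ {g}) (tgt g) q →
  (m : ℤ) ≤ sd (src g) p → (m : ℤ) ≤ sd (src g) q → A4a (src g) 1 m G

/-- PIV1: four arms around an edge which is pivotal for a connection. -/
def S_PIV1 : Prop := ∀ (G : Set Edg) (g : Edg) (p q : Vtx) (m : ℕ), 1 ≤ m →
  Reach G p q → ¬ Reach (G \ {g}) p q →
  (m : ℤ) ≤ sd (src g) p → (m : ℤ) ≤ sd (src g) q → A4a (src g) 1 m G

/-- PIV4: four arms around an edge which is pivotal for the four arm event of an annulus. -/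
def S_PIV4 : Prop := ∀ (G G' : Set Edg) (g : Edg) (v : Vtx) (d k m : ℕ), 1 ≤ m →
  (∀ h, h ≠ g → (h ∈ G ↔ h ∈ G')) → A4a v d k G → ¬ A4a v d k G' →
  (d : ℤ) + m < sd v (src g) → sd v (src g) + m < k → A4a (src g) 1 m G

/-! ### Probabilistic statements -/

/-- REC4: four arms for some modification. -/
def S_A4U : Prop := ∃ C c : ℝ, 1 ≤ C ∧ 0 < c ∧ ∀ (ε : ℝ) (b : Bool) (v : Vtx) (d k : ℕ)
  (S : Finset Edg), 0 ≤ ε → ε ≤ 1 → 1 ≤ d → d ≤ k → ε * (k : ℝ) ^ (3 / 4 : ℝ) ≤ c →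
  blk v (k + 1) ⊆ S → Q ε S (Sw (F4 b v d k)) ≤ C * ((d : ℝ) / k) ^ (5 / 4 : ℝ)

/-- REC2: two arms for some modification. -/
def S_A2U : Prop := ∃ C c : ℝ, 1 ≤ C ∧ 0 < c ∧ ∀ (ε : ℝ) (v : Vtx) (d k : ℕ)
  (S : Finset Edg), 0 ≤ ε → ε ≤ 1 → 1 ≤ d → d ≤ k → ε * (k : ℝ) ^ (3 / 4 : ℝ) ≤ c →
  blk v (k + 1) ⊆ S → Q ε S (Sw (F2 v d k)) ≤ C * ((d : ℝ) / k) ^ (1 / 4 : ℝ)

/-- REC1: one arm near a side of a rectangle, for some modification. -/
def S_A1U : Prop := ∃ C c : ℝ, 1 ≤ C ∧ 0 < c ∧ ∀ (ε : ℝ) (a₁ a₂ b₁ b₂ : ℤ) (v : Vtx) (k R : ℕ),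
  0 ≤ ε → ε ≤ 1 → 1 ≤ k → k ≤ R → ε * (R : ℝ) ^ (3 / 4 : ℝ) ≤ c →
  inR a₁ a₂ b₁ b₂ v → Side a₁ a₂ b₁ b₂ v k R →
  Q ε (RE a₁ a₂ b₁ b₂) (Sw (fun F => Crs v.1 v.2 k R (↑F : Set Edg))) ≤
    C * ((k : ℝ) / R) ^ (1 / 3 : ℝ) ∧
  Q ε (RE a₁ a₂ b₁ b₂) (Sw (fun F => DCrs v.1 v.2 k R (↑(RE a₁ a₂ b₁ b₂ \ F) : Set Edg))) ≤
    C * ((k : ℝ) / R) ^ (1 / 3 : ℝ)

/-- CPL: coupling of a law with conditional probabilities near one half with the uniform law, by a
modification on `U`. -/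
def S_CPL : Prop := ∀ (S : Finset Edg) (ε : ℝ) (w : Finset Edg → ℝ), 0 ≤ ε → ε ≤ 1 / 2 →
  (∀ F ⊆ S, 0 ≤ w F) → ∑ F ∈ S.powerset, w F = 1 →
  (∀ e ∈ S, ∀ F ⊆ S, e ∉ F → |w (insert e F) - w F| ≤ 2 * ε * (w (insert e F) + w F)) →
  ∃ c : Finset Edg → Finset Edg → ℝ, (∀ F B, 0 ≤ c F B) ∧
    (∀ F ∈ S.powerset, ∑ B ∈ S.powerset, c F B = w F) ∧
    (∀ B ∈ S.powerset, ∑ F ∈ S.powerset, c F B = (1 / 2) ^ S.card) ∧
    ∀ g h : Finset Edg → Finset Edg → ℝ,
      (∀ U B F, U ⊆ S → B ⊆ S → Btw U B F → g F B ≤ h U B) →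
      ∑ F ∈ S.powerset, ∑ B ∈ S.powerset, c F B * g F B ≤
        Ex (fun _ => 2 * ε) S (fun U => E S (fun B => h U B))

end Pool.Agent.Zk72.NS
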