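import Pool.Agent.Zk72.NS.Fin

/-!
# Stability of the exploration path: the bound for the worst modification
-/

set_option autoImplicit false

namespace Pool.Agent.Zk72.NS

open H974 Finset H342P H984P H984N H12S H389NS Pool.Agent.Zk36.TT Pool.Agent.W92.DP

/-- trivial bound -/
theorem cdist_triv {R : Rect} {δ : ℝ} (hδ : 0 ≤ δ) (hD : (R.dm δ).Ok) {N : ℕ} (hN : 1 ≤ N)
    (h1 : (R.dm δ).r - (R.dm δ).l ≤ N) (h2 : (R.dm δ).h ≤ N) {F G : Finset Edg}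
    (hF : F ⊆ (R.dm δ).edges) (hG : G ⊆ (R.dm δ).edges) :
    H342L.cdist (R.curve δ F) (R.curve δ G) ≤ 4 * (δ * N) := by
  have hN' : (1:ℝ) ≤ N := by exact_mod_cast hN
  have hK : 0 ≤ 4 * (δ * N) := by positivity
  refine (H342L.cdist_le _ _ (OrderIso.refl _)).trans ?_
  rw [ContinuousMap.dist_le hK]
  intro t
  rw [H342L.rep_apply]
  have hstep : ∀ (H : Finset Edg), ∀ k < (R.dm δ).len H,
      dist (pos δ ((R.dm δ).walk H k)) (pos δ ((R.dm δ).walk H (k + 1))) ≤ δ / 2 := by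
    intro H k _
    rw [H984N.walk_succ]
    exact pos_nxt hδ _ _
  obtain ⟨k, hk, e1⟩ := pl_close (by linarith : 0 ≤ δ / 2) (hstep F) t
  obtain ⟨k', hk', e2⟩ := pl_close (by linarith : 0 ≤ δ / 2) (hstep G) ((OrderIso.refl _) t)
  have e3 := dist_pos_le hδ ((R.dm δ).walk F k) ((R.dm δ).walk G k')
  have e4 := sd_box (walk_in hD hF k) (walk_in hD hG k') h1 h2
  have e5 : ((sd ((R.dm δ).walk F k).1 ((R.dm δ).walk G k').1 : ℤ) : ℝ) ≤ N := by
    exact_mod_cast e4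
  have e6 := dist_triangle4 (R.curve δ F t) (pos δ ((R.dm δ).walk F k))
    (pos δ ((R.dm δ).walk G k')) (R.curve δ G ((OrderIso.refl _) t))
  have e7 : dist (pos δ ((R.dm δ).walk G k')) (R.curve δ G ((OrderIso.refl _) t)) ≤ δ / 2 := by
    rw [dist_comm]
    exact e2
  have e8 : dist (R.curve δ F t) (pos δ ((R.dm δ).walk F k)) ≤ δ / 2 := e1
  have e9 : δ * (2 * ((sd ((R.dm δ).walk F k).1 ((R.dm δ).walk G k').1 : ℤ) : ℝ) + 1) ≤
      δ * (2 * N + 1) := by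
    apply mul_le_mul_of_nonneg_left _ hδ
    linarith
  have e10 : δ ≤ δ * N := by nlinarith
  linarith

theorem worst_triv {R : Rect} {δ : ℝ} (hδ : 0 ≤ δ) (hD : (R.dm δ).Ok) {N : ℕ} (hN : 1 ≤ N)
    (h1 : (R.dm δ).r - (R.dm δ).l ≤ N) (h2 : (R.dm δ).h ≤ N) {U B : Finset Edg}
    (hB : B ⊆ (R.dm δ).edges) : worst R δ U B ≤ 4 * (δ * N) := by
  unfold worst
  refine csSup_le ⟨_, B, hB, rfl, rfl⟩ ?_
  rintro x ⟨F, hF, -, rfl⟩
  exact cdist_triv hδ hD hN h1 h2 hB hF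

theorem le_worst {R : Rect} {δ : ℝ} (hδ : 0 ≤ δ) (hD : (R.dm δ).Ok) {U B F : Finset Edg}
    (hB : B ⊆ (R.dm δ).edges) (hF : F ⊆ (R.dm δ).edges) (h : F \ U = B \ U) :
    H342L.cdist (R.curve δ B) (R.curve δ F) ≤ worst R δ U B := by
  have h0 := hD.h_pos
  obtain ⟨N, hN⟩ : ∃ N : ℕ, (R.dm δ).r - (R.dm δ).l ≤ N ∧ (R.dm δ).h ≤ N :=
    ⟨(max ((R.dm δ).r - (R.dm δ).l) (R.dm δ).h).toNat, by omega, by omega⟩
  refine le_csSup ⟨4 * (δ * N), ?_⟩ ⟨F, hF, h, rfl⟩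
  rintro x ⟨G, hG, -, rfl⟩
  exact cdist_triv hδ hD (by omega) hN.1 hN.2 hB hG

/-- the bound for the worst modification -/
theorem adv (h4 : S_A4U) (h2 : S_A2U) (h1 : S_A1U) (R : Rect) : ∃ C δ0 : ℝ, 0 < C ∧ 0 < δ0 ∧
    δ0 < 1 ∧ ∀ δ : ℝ, 0 < δ → δ ≤ δ0 → (R.dm δ).Ok ∧ 1 ≤ Real.log (1 / δ) ∧
      ∀ ε : ℝ, 0 ≤ ε → ε ≤ 1 →
      QE ε (R.dm δ).edges (worst R δ) ≤ C * (ε * δ ^ (-(3/4) : ℝ) * Real.log (1 / δ)) := by
  obtain ⟨κ, S, δ0, hκ, hS, hδ0, hδ01, hsh⟩ := R.shape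
  obtain ⟨C, c, hC, hc, hall⟩ := sum_all h4 h2 h1 hκ
  have hS74 : 0 < S ^ (7/4 : ℝ) := by positivity
  have hS34 : 0 < (2 * S) ^ (3/4 : ℝ) := by positivity
  have hL : 0 ≤ |Real.log (2 * S)| := abs_nonneg _
  refine ⟨C * (2 + |Real.log (2 * S)|) * S ^ (7/4 : ℝ) + 8 * S / c * (2 * S) ^ (3/4 : ℝ),
    min δ0 (min S (Real.exp (-1))), by positivity,
    lt_min hδ0 (lt_min hS (Real.exp_pos _)), ?_, ?_⟩
  · refine lt_of_le_of_lt ((min_le_right _ _).trans (min_le_right _ _)) ?_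
    rw [Real.exp_lt_one_iff]
    norm_num
  intro δ hδ hδle
  have hshape := hsh δ hδ (hδle.trans (min_le_left _ _))
  have hδS : δ ≤ S := hδle.trans ((min_le_right _ _).trans (min_le_left _ _))
  have hδe : δ ≤ Real.exp (-1) := hδle.trans ((min_le_right _ _).trans (min_le_right _ _))
  have hlog : 1 ≤ Real.log (1 / δ) := by
    rw [one_div, Real.log_inv]
    have := Real.log_le_log hδ hδe
    rw [Real.log_exp] at this
    linarith
  have hD := hshape.ok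
  refine ⟨hD, hlog, ?_⟩
  intro ε h0 h1'
  set n := S / δ with hn
  have hn1 : 1 ≤ n := by
    rw [hn, le_div_iff₀ hδ, one_mul]
    exact hδS
  have hn0 : 0 < n := by linarith
  obtain ⟨N, hNdef⟩ : ∃ N : ℕ, N = ⌈n⌉₊ := ⟨_, rfl⟩
  have hnN : n ≤ N := hNdef ▸ Nat.le_ceil n
  have hN2 : (N:ℝ) ≤ 2 * n := by
    have := (Nat.ceil_lt_add_one hn0.le).le
    rw [hNdef]
    linarith
  have hNR : (1:ℝ) ≤ N := hn1.trans hnN
  have hN1 : 1 ≤ N := by exact_mod_cast hNR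
  have hw1 : (R.dm δ).r - (R.dm δ).l ≤ N := by
    have := hshape.w_le.trans hnN
    exact_mod_cast this
  have hw2 : (R.dm δ).h ≤ N := by
    have := hshape.h_le.trans hnN
    exact_mod_cast this
  have hd34 : 0 < δ ^ (-(3/4) : ℝ) := by positivity
  set X := ε * δ ^ (-(3/4) : ℝ) * Real.log (1 / δ) with hX
  have hX0 : 0 ≤ X := by positivity
  have hXe : ε * δ ^ (-(3/4) : ℝ) ≤ X := by
    rw [hX]
    have : 0 ≤ ε * δ ^ (-(3/4) : ℝ) := by positivity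
    nlinarith
  rcases le_or_gt (ε * (N:ℝ) ^ (3/4 : ℝ)) c with hsm | hbig
  · have g1 := QE_worst (R := R) hδ.le h0 h1' hD hw1 hw2
    have g2 := hall (R.dm δ) n hshape hn1 ε N h0 h1' hsm hnN hN2
    have g3 := mul_le_mul_of_nonneg_left g2 hδ.le
    have g4 : 1 + Real.log N ≤ (2 + |Real.log (2 * S)|) * Real.log (1 / δ) := by
      have a1 : Real.log N ≤ Real.log (2 * S * (1 / δ)) := by
        apply Real.log_le_log (by linarith)
        refine hN2.trans (le_of_eq ?_)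
        rw [hn]
        ring
      rw [Real.log_mul (by positivity) (by positivity)] at a1
      have a2 := le_abs_self (Real.log (2 * S))
      nlinarith
    have g5 : δ * n ^ (7/4 : ℝ) = S ^ (7/4 : ℝ) * δ ^ (-(3/4) : ℝ) := by
      rw [hn, Real.div_rpow hS.le hδ.le, div_eq_mul_inv, ← Real.rpow_neg hδ.le]
      have : δ ^ (-(3/4) : ℝ) = δ * δ ^ (-(7/4 : ℝ)) := by
        nth_rewrite 2 [← Real.rpow_one δ]
        rw [← Real.rpow_add hδ]
        norm_num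
      rw [this]
      ring
    have g6 : δ * (C * (ε * (1 + Real.log N) * n ^ (7/4 : ℝ))) ≤
        C * (2 + |Real.log (2 * S)|) * S ^ (7/4 : ℝ) * X := by
      have a1 : δ * (C * (ε * (1 + Real.log N) * n ^ (7/4 : ℝ))) =
          C * ε * (1 + Real.log N) * (δ * n ^ (7/4 : ℝ)) := by ring
      rw [a1, g5]
      have a2 : 0 ≤ C * ε * (S ^ (7/4 : ℝ) * δ ^ (-(3/4) : ℝ)) := by positivity
      have a3 := mul_le_mul_of_nonneg_left g4 a2
      rw [hX]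
      nlinarith
    have g7 : 0 ≤ 8 * S / c * (2 * S) ^ (3/4 : ℝ) * X := by positivity
    linarith
  · have g1 : QE ε (R.dm δ).edges (worst R δ) ≤ 8 * S := by
      have a1 : QE ε (R.dm δ).edges (worst R δ) ≤
          QE ε (R.dm δ).edges (fun _ _ => 4 * (δ * N)) :=
        QE_mono h0 h1' fun U B _ hB => worst_triv hδ.le hD hN1 hw1 hw2 hB
      rw [QE_const] at a1
      have a2 : δ * N ≤ 2 * S := by
        have : δ * N ≤ δ * (2 * n) := mul_le_mul_of_nonneg_left hN2 hδ.le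
        have e : δ * (2 * n) = 2 * S := by
          rw [hn]
          field_simp
        linarith
      linarith
    have g2 : (N:ℝ) ^ (3/4 : ℝ) ≤ (2 * S) ^ (3/4 : ℝ) * δ ^ (-(3/4) : ℝ) := by
      have a1 : (N:ℝ) ≤ (2 * S) / δ := by
        refine hN2.trans (le_of_eq ?_)
        rw [hn]
        ring
      refine (Real.rpow_le_rpow (by positivity) a1 (by norm_num)).trans (le_of_eq ?_)
      rw [Real.div_rpow (by positivity) hδ.le, div_eq_mul_inv, ← Real.rpow_neg hδ.le]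
    have g3 : 8 * S ≤ 8 * S / c * (ε * (N:ℝ) ^ (3/4 : ℝ)) := by
      have a1 : 8 * S = 8 * S / c * c := by field_simp
      have a2 : 0 ≤ 8 * S / c := by positivity
      calc 8 * S = 8 * S / c * c := a1
        _ ≤ _ := mul_le_mul_of_nonneg_left hbig.le a2
    have g4 : 8 * S / c * (ε * (N:ℝ) ^ (3/4 : ℝ)) ≤
        8 * S / c * (2 * S) ^ (3/4 : ℝ) * X := by
      have a1 : ε * (N:ℝ) ^ (3/4 : ℝ) ≤ (2 * S) ^ (3/4 : ℝ) * X := by
        calc ε * (N:ℝ) ^ (3/4 : ℝ) ≤ ε * ((2 * S) ^ (3/4 : ℝ) * δ ^ (-(3/4) : ℝ)) :=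
              mul_le_mul_of_nonneg_left g2 h0
          _ = (2 * S) ^ (3/4 : ℝ) * (ε * δ ^ (-(3/4) : ℝ)) := by ring
          _ ≤ _ := mul_le_mul_of_nonneg_left hXe hS34.le
      calc 8 * S / c * (ε * (N:ℝ) ^ (3/4 : ℝ)) ≤ 8 * S / c * ((2 * S) ^ (3/4 : ℝ) * X) :=
            mul_le_mul_of_nonneg_left a1 (by positivity)
        _ = _ := by ring
    have g5 : 0 ≤ C * (2 + |Real.log (2 * S)|) * S ^ (7/4 : ℝ) * X := by positivity
    linarith

end Pool.Agent.Zk72.NS
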