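import Pool.Agent.Zk72.NS.AdvProb

/-!
# Stability of the exploration path: excursions near the boundary for some modification on `U`
-/

set_option autoImplicit false

namespace Pool.Agent.Zk72.NS

open H974 Finset H342P H984P H984N H12S H389NS Pool.Agent.Zk36.TT Pool.Agent.W92.DP

/-- the arm near the boundary, as a local event -/
def B2 (D : Dm) (v : Vtx) (k R : ℕ) (F : Finset Edg) : Prop :=
  Bo D v k R (F ∩ (D.edges \ blk v k))

theorem B2_lc (D : Dm) (v : Vtx) (k R : ℕ) : Lc (D.edges \ blk v k) (Sw (B2 D v k R)) := by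
  apply Lc_Sw
  intro F
  unfold B2
  rw [Finset.inter_assoc, Finset.inter_self]

theorem B2_prob {C c : ℝ} (hS : ∀ (ε : ℝ) (a₁ a₂ b₁ b₂ : ℤ) (v : Vtx) (k R : ℕ),
    0 ≤ ε → ε ≤ 1 → 1 ≤ k → k ≤ R → ε * (R : ℝ) ^ (3 / 4 : ℝ) ≤ c →
    inR a₁ a₂ b₁ b₂ v → Side a₁ a₂ b₁ b₂ v k R →
    Q ε (RE a₁ a₂ b₁ b₂) (Sw (fun F => Crs v.1 v.2 k R (↑F : Set Edg))) ≤
      C * ((k : ℝ) / R) ^ (1 / 3 : ℝ) ∧
    Q ε (RE a₁ a₂ b₁ b₂) (Sw (fun F => DCrs v.1 v.2 k R (↑(RE a₁ a₂ b₁ b₂ \ F) : Set Edg))) ≤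
      C * ((k : ℝ) / R) ^ (1 / 3 : ℝ)) {D : Dm} {ε : ℝ} (h0 : 0 ≤ ε) (h1 : ε ≤ 1) {v : Vtx}
    {k R : ℕ} (hv : inR D.l D.r 0 D.h v) (hkR : k + 1 ≤ R) (hR : ε * (R : ℝ) ^ (3 / 4 : ℝ) ≤ c)
    (g1 : D.bd v ≤ (k + 1 : ℕ)) (g2 : (R : ℤ) ≤ sec D v) :
    Q ε D.edges (Sw (B2 D v k R)) ≤ 2 * (C * (((k + 1 : ℕ) : ℝ) / R) ^ (1 / 3 : ℝ)) := by
  obtain ⟨e1, e2⟩ := hS ε D.l D.r 0 D.h v (k + 1) R h0 h1 (by omega) hkR hR hv (side_of g1 g2)
  have e3 : Q ε D.edges (Sw (B2 D v k R)) ≤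
      Q ε D.edges (Sw (fun F => Crs v.1 v.2 (k + 1) R (↑F : Set Edg) ∨
        DCrs v.1 v.2 (k + 1) R (↑(D.edges \ F) : Set Edg))) := by
    apply Q_mono h0 h1
    intro U B hU hB hs
    refine Sw_mono hU hB (fun F hF hb => ?_) hs
    have hb' : Bo D v k R F := (Bo_local D v k R F hF).2 hb
    rcases hb' with h | h
    · left
      exact Crs_mono (by exact_mod_cast Finset.sdiff_subset) h
    · right
      exact DCrs_mono (by
        exact_mod_cast Finset.sdiff_subset_sdiff Finset.sdiff_subset (Finset.Subset.refl F)) h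
  have e4 := Q_Sw_or h0 h1 D.edges (fun F => Crs v.1 v.2 (k + 1) R (↑F : Set Edg))
    (fun F => DCrs v.1 v.2 (k + 1) R (↑(D.edges \ F) : Set Edg))
  have e5 : Q ε D.edges (Sw (fun F => Crs v.1 v.2 (k + 1) R (↑F : Set Edg))) ≤
      C * (((k + 1 : ℕ) : ℝ) / R) ^ (1 / 3 : ℝ) := e1
  have e6 : Q ε D.edges (Sw (fun F => DCrs v.1 v.2 (k + 1) R (↑(D.edges \ F) : Set Edg))) ≤
      C * (((k + 1 : ℕ) : ℝ) / R) ^ (1 / 3 : ℝ) := e2
  linarith

/-- bound for the excursions which are larger than the distance to the boundary -/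
theorem e2U (h4 : S_A4U) (hS : S_A1U) : ∃ C c : ℝ, 1 ≤ C ∧ 0 < c ∧ ∀ (D : Dm), D.Ok →
    ∀ (ε : ℝ) (e : Edg) (r N : ℕ), 0 ≤ ε → ε ≤ 1 → e ∈ D.edges → e ∉ D.wir →
    ε * (N : ℝ) ^ (3/4 : ℝ) ≤ c → sec D (src e) ≤ N → 1 ≤ r → D.bd (src e) ≤ r →
    Q ε D.edges (fun U B => e ∈ U ∧ Sw (fun F => Exc D F e r) U B) ≤
      ε * (C * (((D.bd (src e) : ℝ) + 1) ^ (-(11/12) : ℝ) *
          (((min (r : ℤ) (sec D (src e)) : ℤ) : ℝ) + 1) ^ (-(1/3) : ℝ))) := by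
  obtain ⟨C1, c1, hC1, hc1, hA⟩ := ArU h4
  obtain ⟨CS, c2, hCS, hc2, hB⟩ := hS
  refine ⟨100000 * C1 * CS, min c1 c2, by nlinarith, lt_min hc1 hc2, ?_⟩
  intro D hD ε e r N h0 h1 he hw hN hsN hr hbr
  have hv := src_in he
  obtain ⟨hb0, hbs⟩ := bd_sec hv
  obtain ⟨d, hdd⟩ : ∃ d : ℕ, (d : ℤ) = D.bd (src e) := ⟨(D.bd (src e)).toNat, by omega⟩
  obtain ⟨t, htt⟩ : ∃ t : ℕ, (t : ℤ) = sec D (src e) := ⟨(sec D (src e)).toNat, by omega⟩
  rw [← hdd, ← htt] at hbs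
  rw [← hdd] at hbr
  rw [← htt] at hsN
  have hmm : min (r : ℤ) (sec D (src e)) = ((min r t : ℕ) : ℤ) := by
    rw [← htt]
    push_cast
    rfl
  rw [← hdd, hmm, Int.cast_natCast, Int.cast_natCast]
  have hsm : ∀ m : ℕ, m ≤ N → ε * (m : ℝ) ^ (3/4 : ℝ) ≤ min c1 c2 := by
    intro m hm
    refine le_trans ?_ hN
    apply mul_le_mul_of_nonneg_left _ h0
    apply Real.rpow_le_rpow (by positivity) _ (by norm_num)
    exact_mod_cast hm
  have heA : ∀ m : ℕ, e ∉ T4 (src e) m := fun m h => T4_out h (src_blk e (by norm_num))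
  have heB : e ∉ D.edges \ blk (src e) (d + 3) := by
    rw [Finset.mem_sdiff, not_and, not_not]
    exact fun _ => src_blk e (by omega)
  -- the four arms
  have hAr : 8 ≤ d → Q ε D.edges (Sw (Ar (src e) d)) ≤
      4 * C1 * ((d:ℝ) + 1) ^ (-(5/4) : ℝ) := by
    intro h8
    have h1 := hA ε (src e) d D.edges h0 h1 h8 ((hsm d (by omega)).trans (min_le_left _ _))
      (blk_edges (by omega))
    have hdp : (0:ℝ) < d := by
      have : 0 < d := by omega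
      exact_mod_cast this
    have h2 : (d:ℝ) ^ (-(5/4) : ℝ) ≤ 2 ^ (2:ℝ) * ((d:ℝ) + 1) ^ (-(5/4) : ℝ) := by
      refine pw_le (5/4) (by norm_num) hdp (by positivity) (by norm_num) (by norm_num) ?_
      have : (8:ℝ) ≤ d := by exact_mod_cast h8
      linarith
    have h3 : (2:ℝ) ^ (2:ℝ) = 4 := by norm_num
    rw [h3] at h2
    have h4 := mul_le_mul_of_nonneg_left h2 (by linarith : 0 ≤ C1)
    linarith
  have hTA : 8 ≤ d → T4 (src e) d ⊆ D.edges := fun h8 =>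
    (T4_sub h8).trans (blk_edges (by omega))
  have hexA : ∀ F, F ⊆ D.edges → 8 ≤ d → Exc D F e r → Ar (src e) d F := fun F hF h8 h =>
    exc_arms hD hF h8 (by omega) (Exc_mono (by omega) h)
  -- the arm near the boundary
  have hBo : d + 4 ≤ min (r - 1) t → Q ε D.edges (Sw (B2 D (src e) (d + 3) (min (r - 1) t))) ≤
      2 * (CS * (((d + 3 + 1 : ℕ) : ℝ) / (min (r - 1) t : ℕ)) ^ (1 / 3 : ℝ)) := by
    intro hR
    exact B2_prob hB h0 h1 hv (by omega)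
      ((hsm _ (by omega)).trans (min_le_right _ _)) (by omega) (by omega)
  have hexB : ∀ F, F ⊆ D.edges → d + 4 ≤ min (r - 1) t → Exc D F e r →
      B2 D (src e) (d + 3) (min (r - 1) t) F := fun F hF hR h =>
    (Bo_local D _ _ _ F hF).1 (exc_out hD hF he hw (by omega) (by omega) h)
  apply scale_le h0 (Q_e_le h0 h1 he _)
  intro hpos
  apply num2 hC1 hCS hr (by omega) (by omega)
  · rw [div_le_one hpos]
    exact Q_e_le h0 h1 he _
  · intro h8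
    rw [div_le_iff₀ hpos]
    have g2 : Q ε D.edges (fun U B => e ∈ U ∧ Sw (fun F => Exc D F e r) U B) ≤
        Q ε D.edges (fun U B => e ∈ U ∧ Sw (Ar (src e) d) U B) :=
      Q_mono h0 h1 fun U B hU hB h => ⟨h.1, Sw_mono hU hB (fun F hF h => hexA F hF h8 h) h.2⟩
    rw [Q_e he (hTA h8) (heA d) (Ar_lc _ _)] at g2
    have g3 := mul_le_mul_of_nonneg_left (hAr h8) h0
    linarith
  · intro hR
    rw [div_le_iff₀ hpos]
    have g2 : Q ε D.edges (fun U B => e ∈ U ∧ Sw (fun F => Exc D F e r) U B) ≤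
        Q ε D.edges (fun U B => e ∈ U ∧ Sw (B2 D (src e) (d + 3) (min (r - 1) t)) U B) :=
      Q_mono h0 h1 fun U B hU hB h => ⟨h.1, Sw_mono hU hB (fun F hF h => hexB F hF hR h) h.2⟩
    rw [Q_e he Finset.sdiff_subset heB (B2_lc _ _ _ _)] at g2
    have g3 := mul_le_mul_of_nonneg_left (hBo hR) h0
    linarith
  · intro h8 hR
    rw [div_le_iff₀ hpos]
    have g2 : Q ε D.edges (fun U B => e ∈ U ∧ Sw (fun F => Exc D F e r) U B) ≤
        Q ε D.edges (fun U B => e ∈ U ∧ (Sw (Ar (src e) d) U B ∧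
          Sw (B2 D (src e) (d + 3) (min (r - 1) t)) U B)) :=
      Q_mono h0 h1 fun U B hU hB h => ⟨h.1, Sw_mono hU hB (fun F hF h => hexA F hF h8 h) h.2,
        Sw_mono hU hB (fun F hF h => hexB F hF hR h) h.2⟩
    have hdj : Disjoint (T4 (src e) d) (D.edges \ blk (src e) (d + 3)) :=
      Finset.disjoint_of_subset_left ((T4_sub h8).trans (blk_mono (by omega : d ≤ d + 3)))
        Finset.disjoint_sdiff
    rw [Q_e (A := fun U B => Sw (Ar (src e) d) U B ∧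
        Sw (B2 D (src e) (d + 3) (min (r - 1) t)) U B) he
      (Finset.union_subset (hTA h8) Finset.sdiff_subset) (by
        rw [Finset.mem_union]
        rintro (h | h)
        · exact heA _ h
        · exact heB h) (Lc_and (Ar_lc _ _) (B2_lc _ _ _ _)),
      Q_and (hTA h8) Finset.sdiff_subset hdj (Ar_lc _ _) (B2_lc _ _ _ _)] at g2
    have g3 := mul_le_mul (hAr h8) (hBo hR) (Q_nonneg h0 h1 _ _) (by positivity)
    have g4 := mul_le_mul_of_nonneg_left g3 h0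
    exact (g2.trans g4).trans (le_of_eq (mul_comm _ _))

end Pool.Agent.Zk72.NS
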