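import Pool.Agent.Zk72.NS.Num
import Pool.Agent.Zk72.NS.Chn
import Pool.Agent.Zk47.NS.EXI

/-!
# Stability of the exploration path: excursions for some modification on `U`
-/

set_option autoImplicit false

namespace Pool.Agent.Zk72.NS

open H974 Finset H342P H984P H984N H12S H389NS Pool.Agent.Zk36.TT Pool.Agent.W92.DP

theorem Sw_mono {A A' : Finset Edg → Prop} {S U B : Finset Edg} (hU : U ⊆ S) (hB : B ⊆ S)
    (h : ∀ F, F ⊆ S → A F → A' F) (hs : Sw A U B) : Sw A' U B := by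
  obtain ⟨F, h1, h2⟩ := hs
  exact ⟨F, h1, h F (Btw_sub hU hB h1) h2⟩

theorem Sw_or {A A' : Finset Edg → Prop} {U B : Finset Edg}
    (h : Sw (fun F => A F ∨ A' F) U B) : Sw A U B ∨ Sw A' U B := by
  obtain ⟨F, h1, h2 | h2⟩ := h
  · exact Or.inl ⟨F, h1, h2⟩
  · exact Or.inr ⟨F, h1, h2⟩

theorem Q_Sw_or {ε : ℝ} (h0 : 0 ≤ ε) (h1 : ε ≤ 1) (S : Finset Edg) (A A' : Finset Edg → Prop) :
    Q ε S (Sw (fun F => A F ∨ A' F)) ≤ Q ε S (Sw A) + Q ε S (Sw A') :=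
  (Q_mono h0 h1 fun _ _ _ _ h => Sw_or h).trans (Q_or_le h0 h1 S _ _)

theorem Q_e {ε : ℝ} {S T : Finset Edg} {e : Edg} {A : Finset Edg → Finset Edg → Prop}
    (he : e ∈ S) (hT : T ⊆ S) (heT : e ∉ T) (hA : Lc T A) :
    Q ε S (fun U B => e ∈ U ∧ A U B) = ε * Q ε S A := by
  rw [Q_and (Finset.singleton_subset_iff.2 he) hT (Finset.disjoint_singleton_left.2 heT)
    (Lc_mem e) hA, Q_mem he]

theorem Q_e_le {ε : ℝ} (h0 : 0 ≤ ε) (h1 : ε ≤ 1) {S : Finset Edg} {e : Edg} (he : e ∈ S)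
    (A : Finset Edg → Finset Edg → Prop) : Q ε S (fun U B => e ∈ U ∧ A U B) ≤ ε := by
  refine (Q_mono (A' := fun U _ => e ∈ U) h0 h1 fun U B _ _ h => h.1).trans ?_
  rw [Q_mem he]

/-! ### Four arms -/

theorem Ar_iff (v : Vtx) (r : ℕ) (F : Finset Edg) :
    Ar v r F ↔ F4 true v 3 (r - 3) F ∨ F4 false v 3 (r - 3) F := by
  unfold Ar F4 A4d gd
  simp

/-- the region of the four arms -/
noncomputable def T4 (v : Vtx) (r : ℕ) : Finset Edg := rg true v 3 (r - 3) ∪ rg false v 3 (r - 3)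

theorem T4_sub {v : Vtx} {r : ℕ} (hr : 8 ≤ r) : T4 v r ⊆ blk v r := by
  unfold T4
  refine Finset.union_subset ?_ ?_
  · exact (rg_sub true v 3 (r - 3)).trans (blk_mono (by omega))
  · exact (rg_sub false v 3 (r - 3)).trans (blk_mono (by omega))

theorem T4_out {v : Vtx} {r : ℕ} {h : Edg} (hh : h ∈ T4 v r) : h ∉ blk v 2 := by
  unfold T4 at hh
  rcases Finset.mem_union.1 hh with h1 | h1
  · exact rg_out h1
  · exact rg_out h1

theorem src_blk (e : Edg) {k : ℕ} (hk : 1 ≤ k) : e ∈ blk (src e) k := by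
  obtain ⟨x, y, _ | _⟩ := e
  · unfold blk
    rw [mem_RE_false]
    simp only [src_mk]
    omega
  · unfold blk
    rw [mem_RE_true]
    simp only [src_mk]
    omega

theorem Ar_lc (v : Vtx) (r : ℕ) : Lc (T4 v r) (Sw (Ar v r)) := by
  apply Lc_Sw
  intro F
  rw [Ar_iff, Ar_iff, F4_loc true, F4_loc false, F4_loc true v 3 (r - 3) (F ∩ T4 v r),
    F4_loc false v 3 (r - 3) (F ∩ T4 v r)]
  have e1 : F ∩ T4 v r ∩ rg true v 3 (r - 3) = F ∩ rg true v 3 (r - 3) := by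
    unfold T4
    ext x
    simp only [Finset.mem_inter, Finset.mem_union]
    tauto
  have e2 : F ∩ T4 v r ∩ rg false v 3 (r - 3) = F ∩ rg false v 3 (r - 3) := by
    unfold T4
    ext x
    simp only [Finset.mem_inter, Finset.mem_union]
    tauto
  rw [e1, e2]

theorem ArU (h4 : S_A4U) : ∃ C c : ℝ, 1 ≤ C ∧ 0 < c ∧ ∀ (ε : ℝ) (v : Vtx) (r : ℕ)
    (S : Finset Edg), 0 ≤ ε → ε ≤ 1 → 8 ≤ r → ε * (r : ℝ) ^ (3/4 : ℝ) ≤ c → blk v r ⊆ S →
    Q ε S (Sw (Ar v r)) ≤ C * (r : ℝ) ^ (-(5/4) : ℝ) := by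
  obtain ⟨C, c, hC, hc, h⟩ := h4
  have h8 : (1:ℝ) ≤ 8 ^ (5/4 : ℝ) := Real.one_le_rpow (by norm_num) (by norm_num)
  refine ⟨2 * C * 8 ^ (5/4 : ℝ), c, by nlinarith, hc, ?_⟩
  intro ε v r S h0 h1 hr he hS
  have hr0 : (0:ℝ) < r := by
    have : 0 < r := by omega
    exact_mod_cast this
  have hle : ∀ b, Q ε S (Sw (F4 b v 3 (r - 3))) ≤ C * (8 / (r:ℝ)) ^ (5/4 : ℝ) := by
    intro b
    have g1 := h ε b v 3 (r - 3) S h0 h1 (by norm_num) (by omega) (by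
      refine le_trans ?_ he
      apply mul_le_mul_of_nonneg_left _ h0
      apply Real.rpow_le_rpow (by positivity) _ (by norm_num)
      exact_mod_cast Nat.sub_le _ _) ((blk_mono (by omega)).trans hS)
    refine g1.trans ?_
    apply mul_le_mul_of_nonneg_left _ (by linarith)
    refine Real.rpow_le_rpow (by positivity) ?_ (by norm_num)
    rw [Nat.cast_sub (by omega)]
    have h8' : (8:ℝ) ≤ r := by exact_mod_cast hr
    push_cast
    rw [div_le_div_iff₀ (by linarith) hr0]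
    linarith
  have g2 : Q ε S (Sw (Ar v r)) ≤ Q ε S (Sw (fun F => F4 true v 3 (r - 3) F ∨
      F4 false v 3 (r - 3) F)) :=
    Q_mono h0 h1 fun U B hU hB hs => Sw_mono hU hB (fun F _ hF => (Ar_iff v r F).1 hF) hs
  have g3 := Q_Sw_or h0 h1 S (F4 true v 3 (r - 3)) (F4 false v 3 (r - 3))
  have g4 : (8 / (r:ℝ)) ^ (5/4 : ℝ) = 8 ^ (5/4 : ℝ) * (r : ℝ) ^ (-(5/4) : ℝ) := by
    rw [Real.div_rpow (by norm_num) hr0.le, Real.rpow_neg hr0.le]
    rfl
  rw [g4] at hle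
  have g5 := hle true
  have g6 := hle false
  linarith

/-! ### Two arms -/

theorem Cx_mono {v : Vtx} {d k : ℕ} {G G' : Set Edg} (h : G ⊆ G') (hC : Cx v d k G) :
    Cx v d k G' := by
  obtain ⟨u, hu, w, hw, hr⟩ := hC
  exact ⟨u, hu, w, hw, hr.mono (Set.inter_subset_inter_left _ h)⟩

theorem sd_far {v y : Vtx} {R : ℕ}
    (h : y.1 ≤ v.1 - R ∨ v.1 + R ≤ y.1 ∨ y.2 ≤ v.2 - R ∨ v.2 + R ≤ y.2) : (R : ℤ) ≤ sd v y := by
  unfold sd
  rw [le_max_iff, le_abs, le_abs]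
  omega

theorem sd_near {v x : Vtx} {k : ℕ} (h : inR (v.1 - k) (v.1 + k) (v.2 - k) (v.2 + k) x) :
    sd v x ≤ k := by
  unfold inR at h
  unfold sd
  rw [max_le_iff, abs_le, abs_le]
  omega

theorem Crs_Cx {v : Vtx} {d k : ℕ} {G : Set Edg} (hdk : d ≤ k) (h : Crs v.1 v.2 d k G) :
    Cx v d k G := by
  obtain ⟨x, y, h1, h2, h3⟩ := h
  obtain ⟨u, hu, w, hw, hr, _⟩ := Pool.Agent.Zk47.NS.t_EXI v d k G x y hdk (sd_near h1)
    (sd_far h2) h3
  exact ⟨u, hu, w, hw, hr⟩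

theorem DCrs_Cx {v : Vtx} {d k : ℕ} {G : Set Edg} (hdk : d ≤ k) (h : DCrs v.1 v.2 d k G) :
    Cx v d k (dl '' G) := by
  obtain ⟨x, y, h1, h2, h3⟩ := h
  exact Crs_Cx hdk ⟨x, y, h1, h2, reach_dl.2 h3⟩

/-- `e` is examined -/
def Exm (D : Dm) (F : Finset Edg) (e : Edg) : Prop := ∃ i, At D F e i

theorem Exc_Exm {D : Dm} {F : Finset Edg} {e : Edg} {r : ℕ} (h : Exc D F e r) : Exm D F e := by
  obtain ⟨i, _, _, _, _, hi, _⟩ := h
  exact ⟨i, hi⟩

theorem exm_F2 {D : Dm} (hD : D.Ok) {F : Finset Edg} (hF : F ⊆ D.edges) {e : Edg} {k R : ℕ}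
    (hR : k + 2 ≤ R) (hk : 1 ≤ k) (hb : (R : ℤ) ≤ D.bd (src e)) (h : Exm D F e) :
    F2 (src e) (k + 1) R F := by
  obtain ⟨i, hi⟩ := h
  have h1 := near_of (at_near hi)
  have hdb : (D.l ≤ (src e).1 - R ∧ (src e).1 + R ≤ D.r) ∧
      (0 ≤ (src e).2 - R ∧ (src e).2 + R ≤ D.h) := by
    unfold Dm.bd at hb
    omega
  obtain ⟨h3, h4⟩ := vis_ann hD hF ⟨i, hi.1.le, rfl⟩ (c1 := (src e).1) (c2 := (src e).2) (k := k)
    (R := R) (by unfold inR; omega) hR (by omega) (by omega) (by omega) (by omega)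
  refine ⟨?_, ?_⟩
  · refine Cx_mono ?_ (Crs_Cx (by omega) h3)
    unfold gd
    rw [if_pos rfl, Finset.coe_sdiff]
    exact Set.sdiff_subset
  · refine Cx_mono ?_ (DCrs_Cx (by omega) h4)
    unfold gd
    simp only [Bool.false_eq_true, if_false]
    apply Set.image_mono
    rw [Finset.coe_sdiff]
    exact fun x hx => hx.2

/-- the region of the two arms -/
noncomputable def T2 (v : Vtx) (k R : ℕ) : Finset Edg := rg true v (k + 1) R ∪ rg false v (k + 1) R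

theorem T2_sub (v : Vtx) (k R : ℕ) : T2 v k R ⊆ blk v (R + 1) := by
  unfold T2
  exact Finset.union_subset (rg_sub true v _ R) (rg_sub false v _ R)

theorem T2_out {v : Vtx} {k R : ℕ} {h : Edg} (hh : h ∈ T2 v k R) : h ∉ blk v k := by
  unfold T2 at hh
  rcases Finset.mem_union.1 hh with h1 | h1
  · exact rg_out h1
  · exact rg_out h1

theorem F2_lc (v : Vtx) (k R : ℕ) : Lc (T2 v k R) (Sw (F2 v (k + 1) R)) := Lc_F2 v (k + 1) R

/-- interior bound for the pair (the edge is in `U`, excursion for some modification) -/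
theorem e1U (h4 : S_A4U) (h2 : S_A2U) : ∃ C c : ℝ, 1 ≤ C ∧ 0 < c ∧ ∀ (D : Dm), D.Ok →
    ∀ (ε : ℝ) (e : Edg) (r N : ℕ), 0 ≤ ε → ε ≤ 1 → e ∈ D.edges → ε * (N : ℝ) ^ (3/4 : ℝ) ≤ c →
    D.bd (src e) ≤ N → 1 ≤ r → (r : ℤ) ≤ D.bd (src e) →
    Q ε D.edges (fun U B => e ∈ U ∧ Sw (fun F => Exc D F e r) U B) ≤
      ε * (C * ((r : ℝ) ^ (-1 : ℝ) * ((D.bd (src e) : ℝ) + 1) ^ (-(1/4) : ℝ))) := by
  obtain ⟨C1, c1, hC1, hc1, hA⟩ := ArU h4
  obtain ⟨C2, c2, hC2, hc2, hB⟩ := h2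
  refine ⟨100 * (1 + C1) * (1 + C2), min c1 c2, by nlinarith, lt_min hc1 hc2, ?_⟩
  intro D hD ε e r N h0 h1 he hN hbN hr hrb
  obtain ⟨d, hdd⟩ : ∃ d : ℕ, (d : ℤ) = D.bd (src e) := ⟨(D.bd (src e)).toNat, by omega⟩
  rw [← hdd, Int.cast_natCast]
  have hdN : d ≤ N := by omega
  have hsm : ∀ m : ℕ, m ≤ N → ε * (m : ℝ) ^ (3/4 : ℝ) ≤ min c1 c2 := by
    intro m hm
    refine le_trans ?_ hN
    apply mul_le_mul_of_nonneg_left _ h0
    apply Real.rpow_le_rpow (by positivity) _ (by norm_num)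
    exact_mod_cast hm
  have heA : ∀ m : ℕ, e ∉ T4 (src e) m := fun m h => T4_out h (src_blk e (by norm_num))
  have heB : ∀ k R : ℕ, 1 ≤ k → e ∉ T2 (src e) k R := fun k R hk h => T2_out h (src_blk e hk)
  have hsB : ∀ k : ℕ, 4 ≤ d → T2 (src e) k (d - 1) ⊆ D.edges := fun k h4 =>
    (T2_sub _ _ _).trans (blk_edges (by omega))
  apply scale_le h0 (Q_e_le h0 h1 he _)
  intro hpos
  apply num1 hC1 hC2 hr (by omega)
  · rw [div_le_one hpos]
    exact Q_e_le h0 h1 he _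
  · intro h8
    rw [div_le_iff₀ hpos]
    have g1 := hA ε (src e) r D.edges h0 h1 h8 ((hsm r (by omega)).trans (min_le_left _ _))
      (blk_edges hrb)
    have g2 : Q ε D.edges (fun U B => e ∈ U ∧ Sw (fun F => Exc D F e r) U B) ≤
        Q ε D.edges (fun U B => e ∈ U ∧ Sw (Ar (src e) r) U B) :=
      Q_mono h0 h1 fun U B hU hB h => ⟨h.1, Sw_mono hU hB
        (fun F hF h => exc_arms hD hF h8 (by omega) h) h.2⟩
    rw [Q_e he ((T4_sub h8).trans (blk_edges hrb)) (heA r) (Ar_lc _ _)] at g2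
    have g3 := mul_le_mul_of_nonneg_left g1 h0
    linarith
  · intro h4
    rw [div_le_iff₀ hpos]
    have g1 := hB ε (src e) 2 (d - 1) D.edges h0 h1 (by norm_num) (by omega)
      ((hsm (d - 1) (by omega)).trans (min_le_right _ _)) (blk_edges (by omega))
    have g2 : Q ε D.edges (fun U B => e ∈ U ∧ Sw (fun F => Exc D F e r) U B) ≤
        Q ε D.edges (fun U B => e ∈ U ∧ Sw (F2 (src e) (1 + 1) (d - 1)) U B) :=
      Q_mono h0 h1 fun U B hU hB h => ⟨h.1, Sw_mono hU hB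
        (fun F hF h => exm_F2 hD hF (by omega) le_rfl (by omega) (Exc_Exm h)) h.2⟩
    rw [Q_e he (hsB 1 h4) (heB 1 _ le_rfl) (F2_lc _ 1 _)] at g2
    have g3 := mul_le_mul_of_nonneg_left g1 h0
    norm_num at g2 g3
    linarith
  · intro h8 h3
    rw [div_le_iff₀ hpos]
    have g1 := hA ε (src e) r D.edges h0 h1 h8 ((hsm r (by omega)).trans (min_le_left _ _))
      (blk_edges hrb)
    have g1' := hB ε (src e) (r + 1) (d - 1) D.edges h0 h1 (by omega) (by omega)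
      ((hsm (d - 1) (by omega)).trans (min_le_right _ _)) (blk_edges (by omega))
    have g2 : Q ε D.edges (fun U B => e ∈ U ∧ Sw (fun F => Exc D F e r) U B) ≤
        Q ε D.edges (fun U B => e ∈ U ∧ (Sw (Ar (src e) r) U B ∧
          Sw (F2 (src e) (r + 1) (d - 1)) U B)) :=
      Q_mono h0 h1 fun U B hU hB h => ⟨h.1, Sw_mono hU hB
        (fun F hF h => exc_arms hD hF h8 (by omega) h) h.2, Sw_mono hU hB
        (fun F hF h => exm_F2 hD hF (by omega) hr (by omega) (Exc_Exm h)) h.2⟩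
    have hdj : Disjoint (T4 (src e) r) (T2 (src e) r (d - 1)) := by
      rw [Finset.disjoint_left]
      intro x hx hx'
      exact T2_out hx' (T4_sub h8 hx)
    have hTA : T4 (src e) r ⊆ D.edges := (T4_sub h8).trans (blk_edges hrb)
    have hTB : T2 (src e) r (d - 1) ⊆ D.edges := hsB r (by omega)
    rw [Q_e (A := fun U B => Sw (Ar (src e) r) U B ∧ Sw (F2 (src e) (r + 1) (d - 1)) U B) he
      (Finset.union_subset hTA hTB) (by
        rw [Finset.mem_union]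
        rintro (h | h)
        · exact heA _ h
        · exact heB _ _ hr h) (Lc_and (Ar_lc _ _) (F2_lc _ _ _)),
      Q_and hTA hTB hdj (Ar_lc _ _) (F2_lc _ _ _)] at g2
    have g3 := mul_le_mul g1 g1' (Q_nonneg h0 h1 _ _) (by positivity)
    have g4 := mul_le_mul_of_nonneg_left g3 h0
    have g5 : ε * (Q ε D.edges (Sw (Ar (src e) r)) *
      Q ε D.edges (Sw (F2 (src e) (r + 1) (d - 1)))) ≤ _ := g4
    exact (g2.trans g5).trans (le_of_eq (mul_comm _ _))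

/-- an edge is examined for some modification -/
theorem emU (h2 : S_A2U) : ∃ C c : ℝ, 1 ≤ C ∧ 0 < c ∧ ∀ (D : Dm), D.Ok →
    ∀ (ε : ℝ) (e : Edg) (N : ℕ), 0 ≤ ε → ε ≤ 1 → e ∈ D.edges → ε * (N : ℝ) ^ (3/4 : ℝ) ≤ c →
    D.bd (src e) ≤ N →
    Q ε D.edges (fun U B => e ∈ U ∧ Sw (fun F => Exm D F e) U B) ≤
      ε * (C * ((D.bd (src e) : ℝ) + 1) ^ (-(1/4) : ℝ)) := by
  obtain ⟨C2, c2, hC2, hc2, hB⟩ := h2
  refine ⟨100 * (1 + 1) * (1 + C2), c2, by nlinarith, hc2, ?_⟩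
  intro D hD ε e N h0 h1 he hN hbN
  obtain ⟨hb0, -⟩ := bd_sec (src_in he)
  obtain ⟨d, hdd⟩ : ∃ d : ℕ, (d : ℤ) = D.bd (src e) := ⟨(D.bd (src e)).toNat, by omega⟩
  rw [← hdd, Int.cast_natCast]
  have hdN : d ≤ N := by omega
  rcases Nat.lt_or_ge d 1 with hd1 | hd1
  · have hd0 : d = 0 := by omega
    subst hd0
    have g1 := Q_e_le h0 h1 he (Sw (fun F => Exm D F e))
    have g2 : (((0:ℕ) : ℝ) + 1) ^ (-(1/4) : ℝ) = 1 := by
      rw [Nat.cast_zero, zero_add, Real.one_rpow]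
    rw [g2]
    nlinarith
  have hone : ∀ x : ℝ, ((1 : ℕ) : ℝ) ^ (-1 : ℝ) * x = x := by
    intro x
    rw [Nat.cast_one, Real.one_rpow, one_mul]
  rw [← hone (((d:ℝ) + 1) ^ (-(1/4) : ℝ))]
  apply scale_le h0 (Q_e_le h0 h1 he _)
  intro hpos
  apply num1 (C1 := 1) le_rfl hC2 le_rfl (by omega)
  · rw [div_le_one hpos]
    exact Q_e_le h0 h1 he _
  · intro h8
    omega
  · intro h4
    rw [div_le_iff₀ hpos]
    have g1 := hB ε (src e) 2 (d - 1) D.edges h0 h1 (by norm_num) (by omega)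
      (le_trans (mul_le_mul_of_nonneg_left (Real.rpow_le_rpow (by positivity) (by
        exact_mod_cast (by omega : d - 1 ≤ N)) (by norm_num)) h0) hN) (blk_edges (by omega))
    have g2 : Q ε D.edges (fun U B => e ∈ U ∧ Sw (fun F => Exm D F e) U B) ≤
        Q ε D.edges (fun U B => e ∈ U ∧ Sw (F2 (src e) (1 + 1) (d - 1)) U B) :=
      Q_mono h0 h1 fun U B hU hB h => ⟨h.1, Sw_mono hU hB
        (fun F hF h => exm_F2 hD hF (by omega) le_rfl (by omega) h) h.2⟩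
    rw [Q_e he ((T2_sub _ _ _).trans (blk_edges (by omega)))
      (fun h => T2_out h (src_blk e le_rfl)) (F2_lc _ 1 _)] at g2
    have g3 := mul_le_mul_of_nonneg_left g1 h0
    norm_num at g2 g3
    linarith
  · intro h8
    omega

end Pool.Agent.Zk72.NS
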