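import Pool.Agent.Zk72.NS.Prob

/-!
# Stability of the exploration path under noise: excursions near the boundary
-/

set_option autoImplicit false

namespace Pool.Agent.Zk72.NS

open H974 Finset H342P H984P H984N H12S H389NS Pool.Agent.Zk36.TT Pool.Agent.W92.DP

/-- the arm of the excursion outside of the box of size `k` -/
def Bo (D : Dm) (v : Vtx) (k R : ℕ) (F : Finset Edg) : Prop :=
  H12S.Crs v.1 v.2 (k + 1) R (↑(F \ blk v k) : Set Edg) ∨
    H12S.DCrs v.1 v.2 (k + 1) R (↑((D.edges \ blk v k) \ F) : Set Edg)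

theorem Bo_local (D : Dm) (v : Vtx) (k R : ℕ) (F : Finset Edg) (hF : F ⊆ D.edges) :
    Bo D v k R F ↔ Bo D v k R (F ∩ (D.edges \ blk v k)) := by
  unfold Bo
  have e1 : (F ∩ (D.edges \ blk v k)) \ blk v k = F \ blk v k := by
    ext g
    simp only [Finset.mem_inter, Finset.mem_sdiff]
    constructor
    · rintro ⟨⟨a1, _⟩, a3⟩
      exact ⟨a1, a3⟩
    · rintro ⟨a1, a3⟩
      exact ⟨⟨a1, hF a1, a3⟩, a3⟩
  have e2 : (D.edges \ blk v k) \ (F ∩ (D.edges \ blk v k)) = (D.edges \ blk v k) \ F := by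
    ext g
    simp only [Finset.mem_inter, Finset.mem_sdiff]
    tauto
  rw [e1, e2]

theorem Crs_mono {c1 c2 : ℤ} {ρ R : ℕ} {F G : Set Edg} (h : F ⊆ G) (hC : Crs c1 c2 ρ R F) :
    Crs c1 c2 ρ R G := by
  obtain ⟨x, y, h1, h2, h3⟩ := hC
  exact ⟨x, y, h1, h2, Reach.mono h h3⟩

theorem DCrs_mono {c1 c2 : ℤ} {ρ R : ℕ} {F G : Set Edg} (h : F ⊆ G) (hC : DCrs c1 c2 ρ R F) :
    DCrs c1 c2 ρ R G := by
  obtain ⟨x, y, h1, h2, h3⟩ := hC
  exact ⟨x, y, h1, h2, DReach.mono h h3⟩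

theorem side_aux {a b c d k R : ℤ} (h1 : min (min a b) (min c d) ≤ k)
    (h2 : R ≤ min (min (max a b) (max c d))
    (min (min (max a c) (max a d))
      (min (max b c) (max b d)))) :
    (a ≤ k ∧ R ≤ b ∧ R ≤ c ∧ R ≤ d) ∨ (b ≤ k ∧ R ≤ a ∧ R ≤ c ∧ R ≤ d) ∨
    (c ≤ k ∧ R ≤ a ∧ R ≤ b ∧ R ≤ d) ∨ (d ≤ k ∧ R ≤ a ∧ R ≤ b ∧ R ≤ c) := by
  simp only [le_min_iff, le_max_iff] at h2
  simp only [min_le_iff] at h1
  obtain ⟨⟨h3, h4⟩, ⟨h5, h6⟩, h7, h8⟩ := h2
  by_cases ha : R ≤ a <;> by_cases hb : R ≤ b <;> by_cases hc : R ≤ c <;> by_cases hd : R ≤ d <;>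
    omega

theorem side_of {D : Dm} {v : Vtx} {k R : ℕ} (h1 : D.bd v ≤ k) (h2 : (R : ℤ) ≤ sec D v) :
    Side D.l D.r 0 D.h v k R := by
  unfold Dm.bd at h1
  unfold sec at h2
  unfold Side
  have h3 : min (min (v.1 - D.l) (D.r - v.1)) (min v.2 (D.h - v.2)) ≤ (k : ℤ) := by
    refine le_trans ?_ h1
    simp only [le_min_iff, min_le_iff]
    omega
  have h4 := side_aux h3 h2
  have e0 : v.2 - 0 = v.2 := sub_zero _
  rw [e0]
  exact h4

theorem Bo_prob {C : ℝ} (hS : ∀ (a b c d : ℤ) (v : Vtx) (k R : ℕ), 1 ≤ k → k ≤ R →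
    inR a b c d v → Side a b c d v k R →
    P (RE a b c d) (fun F => H12S.Crs v.1 v.2 k R (↑F : Set Edg)) ≤ C * ((k : ℝ) / R) ^ (1 / 3 : ℝ) ∧
    P (RE a b c d) (fun F => H12S.DCrs v.1 v.2 k R (↑(RE a b c d \ F) : Set Edg)) ≤
      C * ((k : ℝ) / R) ^ (1 / 3 : ℝ)) {D : Dm} {v : Vtx} {k R : ℕ}
    (hv : inR D.l D.r 0 D.h v) (hkR : k + 1 ≤ R) (h1 : D.bd v ≤ (k + 1 : ℕ))
    (h2 : (R : ℤ) ≤ sec D v) :
    P D.edges (Bo D v k R) ≤ 2 * (C * (((k + 1 : ℕ) : ℝ) / R) ^ (1 / 3 : ℝ)) := by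
  obtain ⟨g1, g2⟩ := hS D.l D.r 0 D.h v (k + 1) R (by omega) hkR hv (side_of h1 h2)
  have h3 := Pr_or_le okh D.edges
    (fun F => H12S.Crs v.1 v.2 (k + 1) R (↑(F \ blk v k) : Set Edg))
    (fun F => H12S.DCrs v.1 v.2 (k + 1) R (↑((D.edges \ blk v k) \ F) : Set Edg))
  have h4 : P D.edges (fun F => H12S.Crs v.1 v.2 (k + 1) R (↑(F \ blk v k) : Set Edg)) ≤
      P D.edges (fun F => H12S.Crs v.1 v.2 (k + 1) R (↑F : Set Edg)) :=
    Pr_mono okh fun F _ h => Crs_mono (by exact_mod_cast Finset.sdiff_subset) h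
  have h5 : P D.edges (fun F => H12S.DCrs v.1 v.2 (k + 1) R
      (↑((D.edges \ blk v k) \ F) : Set Edg)) ≤
      P D.edges (fun F => H12S.DCrs v.1 v.2 (k + 1) R (↑(D.edges \ F) : Set Edg)) :=
    Pr_mono okh fun F _ h => DCrs_mono (by
      exact_mod_cast Finset.sdiff_subset_sdiff Finset.sdiff_subset (Finset.Subset.refl F)) h
  have h6 : P D.edges (fun F => H12S.Crs v.1 v.2 (k + 1) R (↑F : Set Edg)) ≤
      C * (((k + 1 : ℕ) : ℝ) / R) ^ (1 / 3 : ℝ) := g1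
  have h7 : P D.edges (fun F => H12S.DCrs v.1 v.2 (k + 1) R (↑(D.edges \ F) : Set Edg)) ≤
      C * (((k + 1 : ℕ) : ℝ) / R) ^ (1 / 3 : ℝ) := g2
  have h8 : P D.edges (Bo D v k R) ≤ _ := h3
  linarith

theorem src_in {D : Dm} {e : Edg} (he : e ∈ D.edges) : inR D.l D.r 0 D.h (src e) := by
  obtain ⟨x, y, b⟩ := e
  unfold Dm.edges at he
  unfold inR
  cases b
  · rw [mem_RE_false] at he
    simp only [src_mk]
    omega
  · rw [mem_RE_true] at he
    simp only [src_mk]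
    omega

theorem bd_sec {D : Dm} {v : Vtx} (hv : inR D.l D.r 0 D.h v) : 0 ≤ D.bd v ∧ D.bd v ≤ sec D v := by
  unfold inR at hv
  unfold Dm.bd sec
  omega

theorem pw_le {x y c : ℝ} (a : ℝ) (ha : 0 ≤ a) (_hx : 0 < x) (hy : 0 < y) (hc : 1 ≤ c) (ha2 : a ≤ 2)
    (h : y ≤ c * x) : x ^ (-a) ≤ c ^ (2 : ℝ) * y ^ (-a) := by
  have hc0 : 0 < c := by linarith
  have h1 : y / c ≤ x := by
    rw [div_le_iff₀ hc0]
    linarith
  have h2 : x ^ (-a) ≤ (y / c) ^ (-a) :=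
    Real.rpow_le_rpow_of_nonpos (by positivity) h1 (by linarith)
  refine h2.trans ?_
  rw [Real.div_rpow hy.le hc0.le, Real.rpow_neg hc0.le, div_inv_eq_mul, mul_comm]
  apply mul_le_mul_of_nonneg_right _ (by positivity)
  exact Real.rpow_le_rpow_of_exponent_le hc ha2

/-- the bound for the excursions which are larger than the distance to the boundary -/
theorem e2 (hA : St_Aa) (hd : St_Ad) (hS : S_SIDE) :
    ∃ C : ℝ, 1 ≤ C ∧ ∀ (D : Dm), D.Ok → ∀ e ∈ D.edges, e ∉ D.wir → ∀ r : ℕ, 1 ≤ r →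
      D.bd (src e) ≤ r →
      P D.edges (fun F => Exc D F e r) ≤
        C * (((D.bd (src e) : ℝ) + 1) ^ (-(11/12) : ℝ) *
          (((min (r : ℤ) (sec D (src e)) : ℤ) : ℝ) + 1) ^ (-(1/3) : ℝ)) := by
  obtain ⟨C1, hC1, hC⟩ := Ar_prob hA hd
  obtain ⟨CS, hCS, hS'⟩ := hS
  refine ⟨100000 * C1 * CS, by nlinarith, ?_⟩
  intro D hD e he hw r hr hbr
  have hv := src_in he
  obtain ⟨hb0, hbs⟩ := bd_sec hv
  obtain ⟨d, hdd⟩ : ∃ d : ℕ, (d : ℤ) = D.bd (src e) := ⟨(D.bd (src e)).toNat, by omega⟩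
  obtain ⟨t, htt⟩ : ∃ t : ℕ, (t : ℤ) = sec D (src e) := ⟨(sec D (src e)).toNat, by omega⟩
  rw [← hdd, ← htt] at hbs
  rw [← hdd] at hbr
  have hmm : min (r : ℤ) (sec D (src e)) = ((min r t : ℕ) : ℤ) := by
    rw [← htt]
    push_cast
    rfl
  rw [← hdd, hmm, Int.cast_natCast, Int.cast_natCast]
  set m := min r t with hm
  have hd1 : (0:ℝ) < (d:ℝ) + 1 := by positivity
  have hm1 : (0:ℝ) < (m:ℝ) + 1 := by positivity
  set y := ((d:ℝ) + 1) ^ (-(11/12) : ℝ) with hy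
  set z := ((m:ℝ) + 1) ^ (-(1/3) : ℝ) with hz
  have hy0 : 0 < y := by positivity
  have hz0 : 0 < z := by positivity
  have hC0 : 0 < C1 * CS := by positivity
  have hC11 : C1 ≤ C1 * CS := by nlinarith
  have hCS1 : CS ≤ C1 * CS := by nlinarith
  have h1C : 1 ≤ C1 * CS := by nlinarith
  -- the factor of the four arms
  have hq0 : 0 < ((d:ℝ) + 1) ^ (-(5/4) : ℝ) := by positivity
  have hAr : P D.edges (fun F => Exc D F e r) ≤ 1 ∧ (8 ≤ d → P D.edges (Ar (src e) d) ≤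
      4 * C1 * ((d:ℝ) + 1) ^ (-(5/4) : ℝ)) := by
    refine ⟨Pr_le_one okh _ _, fun h8 => ?_⟩
    have h1 := hC (src e) d D.edges h8 (blk_edges (by omega))
    have hdp : (0:ℝ) < d := by
      have : 0 < d := by omega
      exact_mod_cast this
    have h2 : (d:ℝ) ^ (-(5/4) : ℝ) ≤ 2 ^ (2:ℝ) * ((d:ℝ) + 1) ^ (-(5/4) : ℝ) := by
      refine pw_le (5/4) (by norm_num) hdp hd1 (by norm_num) (by norm_num) ?_
      have : (8:ℝ) ≤ d := by exact_mod_cast h8
      linarith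
    have h3 : (2:ℝ) ^ (2:ℝ) = 4 := by norm_num
    rw [h3] at h2
    have h4 := mul_le_mul_of_nonneg_left h2 (by linarith : 0 ≤ C1)
    linarith
  have hsmall : d < 8 → 1 ≤ 64 * ((d:ℝ) + 1) ^ (-(5/4) : ℝ) := by
    intro h8
    have h1 := pw_le (x := 1) (y := (d:ℝ) + 1) (c := 8) (5/4) (by norm_num) one_pos hd1
      (by norm_num) (by norm_num) (by
        have : (d:ℝ) ≤ 7 := by
          have : d ≤ 7 := by omega
          exact_mod_cast this
        linarith)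
    rw [Real.one_rpow] at h1
    have h3 : (8:ℝ) ^ (2:ℝ) = 64 := by norm_num
    rwa [h3] at h1
  rcases Nat.lt_or_ge (min (r - 1) t) (d + 4) with hR | hR
  · -- small `m`
    have hmd : m ≤ d + 4 := by omega
    have h1 : ((d:ℝ) + 1) ^ (-(1/3) : ℝ) ≤ 25 * z := by
      have h1 := pw_le (x := (d:ℝ) + 1) (y := (m:ℝ) + 1) (c := 5) (1/3) (by norm_num) hd1 hm1
        (by norm_num) (by norm_num) (by
          have : (m:ℝ) ≤ d + 4 := by exact_mod_cast hmd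
          have : (0:ℝ) ≤ d := by positivity
          linarith)
      have h3 : (5:ℝ) ^ (2:ℝ) = 25 := by norm_num
      rwa [h3] at h1
    have h2 : ((d:ℝ) + 1) ^ (-(5/4) : ℝ) = y * ((d:ℝ) + 1) ^ (-(1/3) : ℝ) := by
      rw [hy, ← Real.rpow_add hd1]
      norm_num
    have h3 : P D.edges (fun F => Exc D F e r) ≤ 64 * C1 * ((d:ℝ) + 1) ^ (-(5/4) : ℝ) := by
      rcases Nat.lt_or_ge d 8 with h8 | h8
      · have g1 := hsmall h8
        have g2 : 64 * ((d:ℝ) + 1) ^ (-(5/4) : ℝ) ≤ 64 * C1 * ((d:ℝ) + 1) ^ (-(5/4) : ℝ) := by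
          apply mul_le_mul_of_nonneg_right _ hq0.le
          linarith
        exact hAr.1.trans (g1.trans g2)
      · have g1 : P D.edges (fun F => Exc D F e r) ≤ P D.edges (Ar (src e) d) :=
          Pr_mono okh fun F hF h => exc_arms hD hF h8 (by omega) (Exc_mono (by omega) h)
        have g2 := hAr.2 h8
        have g3 : 4 * C1 * ((d:ℝ) + 1) ^ (-(5/4) : ℝ) ≤ 64 * C1 * ((d:ℝ) + 1) ^ (-(5/4) : ℝ) := by
          apply mul_le_mul_of_nonneg_right _ hq0.le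
          linarith
        exact g1.trans (g2.trans g3)
    rw [h2] at h3
    have h4 : 64 * C1 * (y * ((d:ℝ) + 1) ^ (-(1/3) : ℝ)) ≤ 64 * C1 * (y * (25 * z)) := by gcongr
    have h5 : 1600 * C1 * (y * z) ≤ 100000 * C1 * CS * (y * z) := by
      apply mul_le_mul_of_nonneg_right _ (by positivity)
      nlinarith
    linarith
  · -- the arm near the boundary
    set R := min (r - 1) t with hRdef
    have hR1 : R + 1 ≤ r := by omega
    have hRt : (R : ℤ) ≤ sec D (src e) := by omega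
    have hBo : P D.edges (Bo D (src e) (d + 3) R) ≤
        2 * (CS * (((d + 3 + 1 : ℕ) : ℝ) / R) ^ (1 / 3 : ℝ)) :=
      Bo_prob hS' hv (by omega) (by omega) hRt
    have hE : ∀ F ⊆ D.edges, Exc D F e r → Bo D (src e) (d + 3) R F := fun F hF h =>
      exc_out hD hF he hw (by omega) hR1 h
    have hRpos : (0:ℝ) < R := by
      have : 0 < R := by omega
      exact_mod_cast this
    -- the power
    have hpw : (((d + 3 + 1 : ℕ) : ℝ) / R) ^ (1 / 3 : ℝ) ≤ 16 * (((d:ℝ) + 1) ^ (1/3 : ℝ) * z) := by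
      rw [Real.div_rpow (by positivity) hRpos.le, div_eq_mul_inv, ← Real.rpow_neg hRpos.le]
      have g1 : (((d + 3 + 1 : ℕ) : ℝ)) ^ (1/3 : ℝ) ≤ 4 * ((d:ℝ) + 1) ^ (1/3 : ℝ) := by
        calc (((d + 3 + 1 : ℕ) : ℝ)) ^ (1/3 : ℝ) ≤ (4 * ((d:ℝ) + 1)) ^ (1/3 : ℝ) := by
              apply Real.rpow_le_rpow (by positivity) _ (by norm_num)
              push_cast
              have : (0:ℝ) ≤ d := by positivity
              linarith
          _ = 4 ^ (1/3 : ℝ) * ((d:ℝ) + 1) ^ (1/3 : ℝ) := Real.mul_rpow (by norm_num) hd1.le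
          _ ≤ 4 * ((d:ℝ) + 1) ^ (1/3 : ℝ) := by
              apply mul_le_mul_of_nonneg_right _ (by positivity)
              calc (4:ℝ) ^ (1/3 : ℝ) ≤ 4 ^ (1:ℝ) :=
                    Real.rpow_le_rpow_of_exponent_le (by norm_num) (by norm_num)
                _ = 4 := Real.rpow_one 4
      have g2 : (R:ℝ) ^ (-(1/3) : ℝ) ≤ 4 * z := by
        have h1 := pw_le (x := (R:ℝ)) (y := (m:ℝ) + 1) (c := 2) (1/3) (by norm_num) hRpos hm1
          (by norm_num) (by norm_num) (by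
            have h1 : m ≤ R + 1 := by omega
            have h2 : (m:ℝ) ≤ R + 1 := by exact_mod_cast h1
            have h3 : (4:ℝ) ≤ R := by
              have : 4 ≤ R := by omega
              exact_mod_cast this
            linarith)
        have h3 : (2:ℝ) ^ (2:ℝ) = 4 := by norm_num
        rwa [h3] at h1
      have g3 : 0 ≤ (R:ℝ) ^ (-(1/3) : ℝ) := by positivity
      have g4 : (R:ℝ) ^ (-(1/3 : ℝ)) = (R:ℝ) ^ (-(1/3) : ℝ) := rfl
      calc (((d + 3 + 1 : ℕ) : ℝ)) ^ (1/3 : ℝ) * (R:ℝ) ^ (-(1/3 : ℝ))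
          ≤ (4 * ((d:ℝ) + 1) ^ (1/3 : ℝ)) * (4 * z) := mul_le_mul g1 g2 g3 (by positivity)
        _ = 16 * (((d:ℝ) + 1) ^ (1/3 : ℝ) * z) := by ring
    have hyy : ((d:ℝ) + 1) ^ (-(5/4) : ℝ) * ((d:ℝ) + 1) ^ (1/3 : ℝ) = y := by
      rw [hy, ← Real.rpow_add hd1]
      norm_num
    have hBo' : P D.edges (Bo D (src e) (d + 3) R) ≤ 32 * CS * (((d:ℝ) + 1) ^ (1/3 : ℝ) * z) := by
      have g1 := mul_le_mul_of_nonneg_left hpw (by linarith : 0 ≤ CS)
      linarith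
    have hBpos : 0 ≤ ((d:ℝ) + 1) ^ (1/3 : ℝ) * z := by positivity
    have hfin : P D.edges (fun F => Exc D F e r) ≤
        (64 * C1 * ((d:ℝ) + 1) ^ (-(5/4) : ℝ)) * (32 * CS * (((d:ℝ) + 1) ^ (1/3 : ℝ) * z)) := by
      rcases Nat.lt_or_ge d 8 with h8 | h8
      · have g1 := hsmall h8
        have g2 : P D.edges (fun F => Exc D F e r) ≤ P D.edges (Bo D (src e) (d + 3) R) :=
          Pr_mono okh hE
        have g3 : 1 ≤ 64 * C1 * ((d:ℝ) + 1) ^ (-(5/4) : ℝ) := by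
          have : 64 * ((d:ℝ) + 1) ^ (-(5/4) : ℝ) ≤ 64 * C1 * ((d:ℝ) + 1) ^ (-(5/4) : ℝ) := by
            apply mul_le_mul_of_nonneg_right _ hq0.le
            linarith
          linarith
        have g4 : 0 ≤ 32 * CS * (((d:ℝ) + 1) ^ (1/3 : ℝ) * z) := by positivity
        calc P D.edges (fun F => Exc D F e r) ≤ 32 * CS * (((d:ℝ) + 1) ^ (1/3 : ℝ) * z) :=
              g2.trans hBo'
          _ = 1 * (32 * CS * (((d:ℝ) + 1) ^ (1/3 : ℝ) * z)) := (one_mul _).symm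
          _ ≤ _ := mul_le_mul_of_nonneg_right g3 g4
      · have hi : P D.edges (fun F => Ar (src e) d F ∧ Bo D (src e) (d + 3) R F) =
            P D.edges (Ar (src e) d) * P D.edges (Bo D (src e) (d + 3) R) :=
          Pr_indep (blk_edges (by omega)) Finset.sdiff_subset
            (Finset.disjoint_of_subset_left (blk_mono (by omega : d ≤ d + 3))
              Finset.disjoint_sdiff)
            (fun F _ => Ar_local _ h8 (Finset.Subset.refl _) F)
            (fun F hF => Bo_local D _ _ _ F hF)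
        have g1 : P D.edges (fun F => Exc D F e r) ≤
            P D.edges (fun F => Ar (src e) d F ∧ Bo D (src e) (d + 3) R F) :=
          Pr_mono okh fun F hF h =>
            ⟨exc_arms hD hF h8 (by omega) (Exc_mono (by omega) h), hE F hF h⟩
        rw [hi] at g1
        have g2 : P D.edges (Ar (src e) d) ≤ 64 * C1 * ((d:ℝ) + 1) ^ (-(5/4) : ℝ) := by
          have g3 : 4 * C1 * ((d:ℝ) + 1) ^ (-(5/4) : ℝ) ≤
              64 * C1 * ((d:ℝ) + 1) ^ (-(5/4) : ℝ) := by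
            apply mul_le_mul_of_nonneg_right _ hq0.le
            linarith
          exact (hAr.2 h8).trans g3
        exact g1.trans (mul_le_mul g2 hBo' (Pr_nonneg okh _ _) (by positivity))
    have hre : (64 * C1 * ((d:ℝ) + 1) ^ (-(5/4) : ℝ)) *
        (32 * CS * (((d:ℝ) + 1) ^ (1/3 : ℝ) * z)) = 2048 * (C1 * CS) *
        ((((d:ℝ) + 1) ^ (-(5/4) : ℝ) * ((d:ℝ) + 1) ^ (1/3 : ℝ)) * z) := by ring
    rw [hre, hyy] at hfin
    have h5 : 2048 * (C1 * CS) * (y * z) ≤ 100000 * C1 * CS * (y * z) := by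
      apply mul_le_mul_of_nonneg_right _ (by positivity)
      nlinarith
    linarith

end Pool.Agent.Zk72.NS
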