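import Pool.Agent.Zk72.NS.Lim
import Pool.Agent.Zk36.CO.Defs
import Pool.Agent.Results.MP_fe58d8_pr.NaturalCurve

/-!
# The limits of the laws of the curve at criticality: existence along subsequences, and no mass at
curves of dimension different from `7/4`
-/

set_option autoImplicit false

namespace Pool.Agent.Zk72.NS

open H974 Finset H342P H984P H984N
open MeasureTheory TopologicalSpace Filter Topology H342L

theorem seven_four : (1 : ENNReal) < 7 / 4 := by
  rw [ENNReal.lt_div_iff_mul_lt (by norm_num) (by norm_num)]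
  norm_num

/-- The critical law of the curve. -/
noncomputable def critP (R : Rect) (δ : ℝ) : ProbabilityMeasure Curve :=
  claw R δ (fun _ => (1/2) ^ (R.dm δ).edges.card) (half_nearP _)

/-- forget the parametrisation and the natural time -/
noncomputable def toC (p : X) : Curve := ⟨p.1⟩

theorem dist_toC_le (p q : X) : dist (toC p) (toC q) ≤ dist p.1 q.1 := by
  rw [Curve.dist_def]
  show cdist p.1 q.1 ≤ _
  unfold cdist
  refine (ciInf_le ⟨0, ?_⟩ (OrderIso.refl _)).trans ?_
  · rintro x ⟨φ, rfl⟩
    exact Real.iSup_nonneg fun t => dist_nonneg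
  · exact ciSup_le fun t => ContinuousMap.dist_apply_le_dist t

theorem continuous_toC : Continuous toC := by
  rw [Metric.continuous_iff]
  intro p ε hε
  refine ⟨ε, hε, fun q hq => (dist_toC_le q p).trans_lt (lt_of_le_of_lt ?_ hq)⟩
  rw [Prod.dist_eq]
  exact le_max_left _ _

theorem map_law (R : Rect) (δ : ℝ) :
    (R.law δ).map continuous_toC.measurable.aemeasurable = critP R δ := by
  apply Subtype.ext
  show (R.lawM δ).map toC = clawM R δ _
  unfold Rect.lawM clawM
  rw [Measure.map_finset_sum continuous_toC.measurable.aemeasurable]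
  refine Finset.sum_congr rfl fun F _ => ?_
  rw [Measure.map_smul]
  have h := Measure.map_dirac' (f := toC) continuous_toC.measurable (R.curve δ F, R.time δ F)
  rw [h]
  rfl

/-- existence of limits along subsequences -/
theorem crit_tight (R : Rect) {δ : ℕ → ℝ} (hδ : ∀ i, 0 < δ i) (h0 : Tendsto δ atTop (𝓝 0)) :
    ∃ φ : ℕ → ℕ, StrictMono φ ∧ ∃ P : ProbabilityMeasure Curve,
      Tendsto (fun i => critP R (δ (φ i))) atTop (𝓝 P) := by
  obtain ⟨-, -, h, -⟩ := Pool.Agent.Results.MP_fe58d8_pr.NaturalCurve.result R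
  obtain ⟨φ, hφ, μ, hμ⟩ := h δ hδ h0
  refine ⟨φ, hφ, μ.map continuous_toC.measurable.aemeasurable, ?_⟩
  have h1 := ((ProbabilityMeasure.continuous_map continuous_toC).tendsto μ).comp hμ
  refine h1.congr fun i => ?_
  exact map_law R (δ (φ i))

/-- a limit gives no mass to a curve whose trace has a dimension different from `7/4` -/
theorem crit_no_atom (R : Rect) {δ : ℕ → ℝ} (hδ : ∀ i, 0 < δ i) (h0 : Tendsto δ atTop (𝓝 0))
    {P : ProbabilityMeasure Curve} (hP : Tendsto (fun i => critP R (δ i)) atTop (𝓝 P))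
    (γ : Curve) (hγ : dimH (Set.range γ.path) ≠ 7 / 4) :
    (P : Measure Curve) {x | dist x γ = 0} = 0 := by
  obtain ⟨-, -, h, h'⟩ := Pool.Agent.Results.MP_fe58d8_pr.NaturalCurve.result R
  obtain ⟨φ, hφ, μ, hμ⟩ := h δ hδ h0
  have h1 := ((ProbabilityMeasure.continuous_map continuous_toC).tendsto μ).comp hμ
  have h2 : Tendsto (fun i => critP R (δ (φ i))) atTop
      (𝓝 (μ.map continuous_toC.measurable.aemeasurable)) := by
    refine h1.congr fun i => ?_
    exact map_law R (δ (φ i))
  have h3 : P = μ.map continuous_toC.measurable.aemeasurable :=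
    tendsto_nhds_unique (hP.comp hφ.tendsto_atTop) h2
  have hm : MeasurableSet {x : Curve | dist x γ = 0} :=
    (isClosed_eq (continuous_id.dist continuous_const) continuous_const).measurableSet
  rw [h3]
  show (Measure.map toC (μ : Measure X)) _ = 0
  rw [Measure.map_apply continuous_toC.measurable hm]
  have h4 := h' (fun i => δ (φ i)) (fun i => hδ _) (h0.comp hφ.tendsto_atTop) μ hμ
  have h5 : ∀ᵐ p ∂(μ : Measure X), p ∉ toC ⁻¹' {x : Curve | dist x γ = 0} := by
    filter_upwards [h4] with p hp hmem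
    obtain ⟨-, -, -, -, hd, -⟩ := hp
    have h6 := hd 0 1 (by norm_num)
    have h7 : Set.Icc (0 : unitInterval) 1 = Set.univ := by
      ext x
      simp only [Set.mem_Icc, Set.mem_univ, iff_true]
      exact ⟨unitInterval.nonneg', unitInterval.le_one'⟩
    rw [h7, Set.image_univ] at h6
    have h8 : dist (toC p) γ = 0 := hmem
    have h9 := Curve.dist_trace (toC p) γ
    rw [h8] at h9
    have h10 : (toC p).trace = γ.trace := dist_le_zero.1 h9
    have h11 : Set.range p.1 = Set.range γ.path := by
      have := congrArg (fun K : NonemptyCompacts ℂ => (K : Set ℂ)) h10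
      exact this
    rw [h11] at h6
    exact hγ h6
  exact measure_eq_zero_iff_ae_notMem.2 h5

theorem clamp_lip : LipschitzWith 1 clamp := by
  unfold clamp
  exact (LipschitzWith.id.const_min 1).const_max 0

/-- a polygonal curve has dimension at most one -/
theorem dimH_pl (N : ℕ) (p : ℕ → ℂ) : dimH (Set.range (pl N p)) ≤ 1 := by
  have h1 : ∃ K : NNReal, LipschitzWith K (fun s : unitInterval => pl N p s) := by
    show ∃ K : NNReal, LipschitzWith K (fun s : unitInterval =>
      p 0 + ∑ k ∈ Finset.range N, ((clamp ((s : ℝ) * N - k) : ℝ) : ℂ) * (p (k + 1) - p k))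
    have h2 : ∀ n : ℕ, ∃ K : NNReal, LipschitzWith K (fun s : unitInterval =>
        ∑ k ∈ Finset.range n, ((clamp ((s : ℝ) * N - k) : ℝ) : ℂ) * (p (k + 1) - p k)) := by
      intro n
      induction n with
      | zero => exact ⟨0, by simp [LipschitzWith.const (0 : ℂ)]⟩
      | succ n ih =>
        obtain ⟨K, hK⟩ := ih
        have h3 : LipschitzWith (N * ‖p (n + 1) - p n‖₊) (fun s : unitInterval =>
            ((clamp ((s : ℝ) * N - n) : ℝ) : ℂ) * (p (n + 1) - p n)) := by
          refine LipschitzWith.of_dist_le_mul fun s t => ?_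
          rw [dist_eq_norm, ← sub_mul, norm_mul, ← Complex.ofReal_sub, Complex.norm_real,
            Real.norm_eq_abs]
          have h4 := clamp_lip.dist_le_mul ((s : ℝ) * N - n) ((t : ℝ) * N - n)
          rw [Real.dist_eq, Real.dist_eq] at h4
          have h5 : |(s : ℝ) * N - n - ((t : ℝ) * N - n)| = N * dist s t := by
            rw [Subtype.dist_eq, Real.dist_eq]
            rw [show (s : ℝ) * N - n - ((t : ℝ) * N - n) = N * ((s : ℝ) - t) by ring, abs_mul,
              Nat.abs_cast]
          rw [h5] at h4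
          have h6 := mul_le_mul_of_nonneg_right h4 (norm_nonneg (p (n + 1) - p n))
          refine h6.trans (le_of_eq ?_)
          push_cast
          ring
        refine ⟨K + N * ‖p (n + 1) - p n‖₊, ?_⟩
        simp only [Finset.sum_range_succ]
        exact hK.add h3
    obtain ⟨K, hK⟩ := h2 N
    exact ⟨0 + K, (LipschitzWith.const (p 0)).add hK⟩
  obtain ⟨K, hK⟩ := h1
  have h2 : Set.range (pl N p) = (fun s : unitInterval => pl N p s) '' Set.univ :=
    Set.image_univ.symm
  rw [h2]
  refine (hK.dimH_image_le _).trans ?_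
  have h3 : dimH (Set.univ : Set unitInterval) = dimH (Subtype.val '' (Set.univ : Set unitInterval)) :=
    (isometry_subtype_coe.dimH_image _).symm
  rw [h3]
  refine (dimH_mono (Set.subset_univ _)).trans ?_
  rw [Real.dimH_univ]

theorem dimH_arcR (R : Rect) : dimH (Set.range (Pool.Agent.Zk36.CO.arcR R)) ≠ 7 / 4 := by
  have h := dimH_pl 3 (fun k => match k with
    | 0 => R.a
    | 1 => (⟨R.B, R.H⟩ : ℂ)
    | 2 => ⟨R.B, 0⟩
    | _ => 0)
  intro h1
  have h2 : dimH (Set.range (Pool.Agent.Zk36.CO.arcR R)) ≤ 1 := h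
  rw [h1] at h2
  exact absurd h2 (not_le.2 seven_four)

theorem dimH_arcL (R : Rect) : dimH (Set.range (Pool.Agent.Zk36.CO.arcL R)) ≠ 7 / 4 := by
  have h := dimH_pl 3 (fun k => match k with
    | 0 => R.a
    | 1 => (⟨-R.A, R.H⟩ : ℂ)
    | 2 => ⟨-R.A, 0⟩
    | _ => 0)
  intro h1
  have h2 : dimH (Set.range (Pool.Agent.Zk36.CO.arcL R)) ≤ 1 := h
  rw [h1] at h2
  exact absurd h2 (not_le.2 seven_four)

end Pool.Agent.Zk72.NS
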