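import Pool.Agent.Zk72.NS.Tot
import Pool.Agent.Zk96.NS.SUM
import Pool.Agent.H984R4.NP.PL

/-!
# Stability of the exploration path: the expected distance for the worst modification
-/

set_option autoImplicit false

namespace Pool.Agent.Zk72.NS

open H974 Finset H342P H984P H984N H12S H389NS Pool.Agent.Zk36.TT Pool.Agent.W92.DP

/-- the largest distance between the path of `B` and the path of a configuration which is equal to
`B` outside of `U` -/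
noncomputable def worst (R : Rect) (δ : ℝ) (U B : Finset Edg) : ℝ :=
  sSup {x | ∃ F, F ⊆ (R.dm δ).edges ∧ F \ U = B \ U ∧
    x = H342L.cdist (R.curve δ B) (R.curve δ F)}

theorem Btw_of {U B F : Finset Edg} (h : F \ U = B \ U) : Btw U B F := by
  rw [Btw_iff]
  intro x hx
  have := congrArg (fun G => x ∈ G) h
  simp only [Finset.mem_sdiff, hx, not_false_eq_true, and_true] at this
  exact Iff.of_eq this

theorem Btw_eq {U B F : Finset Edg} (h : Btw U B F) : F \ U = B \ U := by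
  rw [Btw_iff] at h
  ext x
  simp only [Finset.mem_sdiff]
  constructor
  · rintro ⟨h1, h2⟩
    exact ⟨(h x h2).1 h1, h2⟩
  · rintro ⟨h1, h2⟩
    exact ⟨(h x h2).2 h1, h2⟩

/-- expectation for the pair -/
noncomputable def QE (ε : ℝ) (S : Finset Edg) (f : Finset Edg → Finset Edg → ℝ) : ℝ :=
  Ex (fun _ => ε) S (fun U => E S (fun B => f U B))

section
variable {ε : ℝ} {S : Finset Edg}

theorem QE_mono (h0 : 0 ≤ ε) (h1 : ε ≤ 1) {f g : Finset Edg → Finset Edg → ℝ}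
    (h : ∀ U B, U ⊆ S → B ⊆ S → f U B ≤ g U B) : QE ε S f ≤ QE ε S g :=
  Ex_mono (ok_eps h0 h1) fun U hU => Ex_mono ok_half fun B hB => h U B hU hB

theorem QE_const (c : ℝ) : QE ε S (fun _ _ => c) = c := by
  unfold QE E
  simp only [Ex_const]

theorem QE_add (f g : Finset Edg → Finset Edg → ℝ) :
    QE ε S (fun U B => f U B + g U B) = QE ε S f + QE ε S g := by
  unfold QE E
  simp only [Ex_add]

theorem QE_mul (c : ℝ) (f : Finset Edg → Finset Edg → ℝ) :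
    QE ε S (fun U B => c * f U B) = c * QE ε S f := by
  unfold QE E
  simp only [Ex_mul_left]

theorem QE_sum {ι : Type*} (T : Finset ι) (f : ι → Finset Edg → Finset Edg → ℝ) :
    QE ε S (fun U B => ∑ i ∈ T, f i U B) = ∑ i ∈ T, QE ε S (f i) := by
  unfold QE E
  simp only [Ex_sum]

end

/-- the modification by the worst choice -/
theorem worst_le {R : Rect} {δ : ℝ} (hδ : 0 ≤ δ) (hD : (R.dm δ).Ok) {N : ℕ}
    (h1 : (R.dm δ).r - (R.dm δ).l ≤ N) (h2 : (R.dm δ).h ≤ N) {U B : Finset Edg}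
    (hU : U ⊆ (R.dm δ).edges) (hB : B ⊆ (R.dm δ).edges) :
    worst R δ U B ≤ ∑ e ∈ U, ind (e ∉ (R.dm δ).wir) *
      (δ * (5 * ind (Sw (fun F => Exm (R.dm δ) F e) U B) +
        4 * ∑ r ∈ Icc 1 N, ind (Sw (fun F => Exc (R.dm δ) F e r) U B))) := by
  unfold worst
  refine csSup_le ⟨_, B, hB, rfl, rfl⟩ ?_
  rintro x ⟨F, hF, hFB, rfl⟩
  refine chain (d := fun F G => H342L.cdist (R.curve δ F) (R.curve δ G))
    (fun F => H342L.cdist_self _) (fun F G H => H342L.cdist_triangle _ _ _)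
    (U := U) ?_ (Btw_of hFB)
  intro G hG e he
  have hGS : G ⊆ (R.dm δ).edges := Btw_sub hU hB hG
  refine (flip_one hδ hD hGS (hU he) h1 h2).trans ?_
  apply mul_le_mul_of_nonneg_left _ (ind_nonneg _)
  apply mul_le_mul_of_nonneg_left _ hδ
  have g1 : ind (Exm (R.dm δ) G e) ≤ ind (Sw (fun F => Exm (R.dm δ) F e) U B) :=
    ind_mono fun h => ⟨G, hG, h⟩
  have g2 : nEx (R.dm δ) N G e ≤ ∑ r ∈ Icc 1 N, ind (Sw (fun F => Exc (R.dm δ) F e r) U B) :=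
    Finset.sum_le_sum fun r _ => ind_mono fun h => ⟨G, hG, h⟩
  have g3 : nEx (R.dm δ) N (flip e G) e ≤
      ∑ r ∈ Icc 1 N, ind (Sw (fun F => Exc (R.dm δ) F e r) U B) :=
    Finset.sum_le_sum fun r _ => ind_mono fun h => ⟨_, Btw_flip hG he, h⟩
  linarith

/-- expectation of the worst distance -/
theorem QE_worst {R : Rect} {δ ε : ℝ} (hδ : 0 ≤ δ) (h0 : 0 ≤ ε) (h1' : ε ≤ 1)
    (hD : (R.dm δ).Ok) {N : ℕ} (h1 : (R.dm δ).r - (R.dm δ).l ≤ N) (h2 : (R.dm δ).h ≤ N) :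
    QE ε (R.dm δ).edges (worst R δ) ≤ δ * ∑ e ∈ (R.dm δ).edges, ind (e ∉ (R.dm δ).wir) *
      (5 * Q ε (R.dm δ).edges (fun U B => e ∈ U ∧ Sw (fun F => Exm (R.dm δ) F e) U B) +
      4 * ∑ r ∈ Icc 1 N, Q ε (R.dm δ).edges
        (fun U B => e ∈ U ∧ Sw (fun F => Exc (R.dm δ) F e r) U B)) := by
  have g1 : QE ε (R.dm δ).edges (worst R δ) ≤ QE ε (R.dm δ).edges (fun U B =>
      δ * ∑ e ∈ (R.dm δ).edges, ind (e ∉ (R.dm δ).wir) *
        (5 * ind (e ∈ U ∧ Sw (fun F => Exm (R.dm δ) F e) U B) +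
        4 * ∑ r ∈ Icc 1 N, ind (e ∈ U ∧ Sw (fun F => Exc (R.dm δ) F e r) U B))) := by
    apply QE_mono h0 h1'
    intro U B hU hB
    refine (worst_le hδ hD h1 h2 hU hB).trans ?_
    rw [Finset.mul_sum]
    have hnn : ∀ e ∈ (R.dm δ).edges, e ∉ U → 0 ≤ δ * (ind (e ∉ (R.dm δ).wir) *
        (5 * ind (e ∈ U ∧ Sw (fun F => Exm (R.dm δ) F e) U B) +
        4 * ∑ r ∈ Icc 1 N, ind (e ∈ U ∧ Sw (fun F => Exc (R.dm δ) F e r) U B))) := by
      intro e _ _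
      have a1 := ind_nonneg (e ∉ (R.dm δ).wir)
      have a2 := ind_nonneg (e ∈ U ∧ Sw (fun F => Exm (R.dm δ) F e) U B)
      have a3 : 0 ≤ ∑ r ∈ Icc 1 N, ind (e ∈ U ∧ Sw (fun F => Exc (R.dm δ) F e r) U B) :=
        Finset.sum_nonneg fun _ _ => ind_nonneg _
      positivity
    refine le_trans (le_of_eq ?_) (Finset.sum_le_sum_of_subset_of_nonneg hU hnn)
    apply Finset.sum_congr rfl
    intro e he
    have e1 : ∀ A : Prop, ind (e ∈ U ∧ A) = ind A := fun A => ind_congr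
      ⟨fun h => h.2, fun h => ⟨he, h⟩⟩
    simp only [e1]
    ring
  refine g1.trans (le_of_eq ?_)
  rw [QE_mul, QE_sum]
  congr 1
  apply Finset.sum_congr rfl
  intro e _
  rw [QE_mul, QE_add, QE_mul, QE_mul, QE_sum]
  rfl

/-- the sum over all edges -/
theorem sum_all (h4 : S_A4U) (h2 : S_A2U) (h1 : S_A1U) {κ : ℝ} (hκ : 0 < κ) :
    ∃ C c : ℝ, 0 < C ∧ 0 < c ∧ ∀ (D : Dm) (n : ℝ), D.Shape κ n → 1 ≤ n →
    ∀ (ε : ℝ) (N : ℕ), 0 ≤ ε → ε ≤ 1 → ε * (N : ℝ) ^ (3/4 : ℝ) ≤ c → n ≤ N → (N : ℝ) ≤ 2 * n →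
    ∑ e ∈ D.edges, ind (e ∉ D.wir) *
      (5 * Q ε D.edges (fun U B => e ∈ U ∧ Sw (fun F => Exm D F e) U B) +
      4 * ∑ r ∈ Icc 1 N, Q ε D.edges (fun U B => e ∈ U ∧ Sw (fun F => Exc D F e r) U B)) ≤
    C * (ε * (1 + Real.log N) * n ^ (7/4 : ℝ)) := by
  obtain ⟨C1, c, hC1, hc, hP⟩ := per_edge h4 h2 h1
  obtain ⟨CS, hCS, hS⟩ := Pool.Agent.Zk96.NS.t_SUM κ hκ
  refine ⟨2 * C1 * (8 * (1 + 1 / (1 - 1/4)) + 2 * CS), c, by positivity, hc, ?_⟩
  intro D n hSh hn ε N h0 h1' hN hnN hN2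
  have hD := hSh.ok
  have hw1 : D.r - D.l ≤ N := by
    have := hSh.w_le.trans hnN
    exact_mod_cast this
  have hw2 : D.h ≤ N := by
    have := hSh.h_le.trans hnN
    exact_mod_cast this
  have hNR : (1:ℝ) ≤ N := hn.trans hnN
  have hlog : 0 ≤ Real.log N := Real.log_nonneg hNR
  have hn0 : 0 < n := by linarith
  set G : Vtx → ℝ := fun v => |(1 + Real.log N) * ((D.bd v : ℝ) + 1) ^ (-(1/4) : ℝ) +
      N * (((D.bd v : ℝ) + 1) ^ (-(11/12) : ℝ) * ((sec D v : ℝ) + 1) ^ (-(1/3) : ℝ))| with hG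
  have g1 : ∀ e ∈ D.edges, ind (e ∉ D.wir) *
      (5 * Q ε D.edges (fun U B => e ∈ U ∧ Sw (fun F => Exm D F e) U B) +
      4 * ∑ r ∈ Icc 1 N, Q ε D.edges (fun U B => e ∈ U ∧ Sw (fun F => Exc D F e r) U B)) ≤
      ε * C1 * G (src e) := by
    intro e he
    have hGn : 0 ≤ G (src e) := abs_nonneg _
    by_cases hw : e ∈ D.wir
    · rw [ind_not_of (by rw [not_not]; exact hw), zero_mul]
      positivity
    · rw [ind_of hw, one_mul]
      refine (hP D hD ε N h0 h1' hN hw1 hw2 e he hw).trans ?_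
      rw [mul_assoc]
      apply mul_le_mul_of_nonneg_left _ h0
      exact mul_le_mul_of_nonneg_left (le_abs_self _) (by linarith)
  refine (Finset.sum_le_sum g1).trans ?_
  rw [← Finset.mul_sum]
  have g2 := sum_edges D G (fun v => abs_nonneg _)
  have g3 : ∑ v ∈ Finset.Icc D.l D.r ×ˢ Finset.Icc 0 D.h, G v =
      (1 + Real.log N) * ∑ v ∈ Finset.Icc D.l D.r ×ˢ Finset.Icc 0 D.h,
        ((D.bd v : ℝ) + 1) ^ (-(1/4) : ℝ) +
      N * ∑ v ∈ Finset.Icc D.l D.r ×ˢ Finset.Icc 0 D.h,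
        (((D.bd v : ℝ) + 1) ^ (-(11/12) : ℝ) * ((sec D v : ℝ) + 1) ^ (-(1/3) : ℝ)) := by
    rw [Finset.mul_sum, Finset.mul_sum, ← Finset.sum_add_distrib]
    apply Finset.sum_congr rfl
    intro v hv
    have hb0 := sumb_bd0 hv
    have hv' : inR D.l D.r 0 D.h v := by
      rw [Finset.mem_product, Finset.mem_Icc, Finset.mem_Icc] at hv
      exact hv
    have hs0 : 0 ≤ sec D v := (bd_sec hv').1.trans (bd_sec hv').2
    have hb0' : (0:ℝ) ≤ D.bd v := by exact_mod_cast hb0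
    have hs0' : (0:ℝ) ≤ sec D v := by exact_mod_cast hs0
    rw [hG]
    apply abs_of_nonneg
    positivity
  have g4 : ∑ v ∈ Finset.Icc D.l D.r ×ˢ Finset.Icc 0 D.h, ((D.bd v : ℝ) + 1) ^ (-(1/4) : ℝ) ≤
      8 * (1 + 1 / (1 - 1/4)) * n ^ (7/4 : ℝ) := by
    have a1 := suma_bd (C := 1) (b := 1/4) zero_le_one (by norm_num) (by norm_num) D n hD hn
      hSh.w_le hSh.h_le
    have a2 : (2:ℝ) - 1/4 = 7/4 := by norm_num
    rw [a2] at a1
    refine (Finset.sum_le_sum fun v hv => ?_).trans a1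
    exact sumb_ph (by norm_num) hv
  have g5 := hS D n hSh hn
  have g6 : (N:ℝ) * (CS * n ^ (3/4 : ℝ)) ≤ 2 * CS * n ^ (7/4 : ℝ) := by
    have a1 : n ^ (7/4 : ℝ) = n * n ^ (3/4 : ℝ) := by
      nth_rewrite 2 [← Real.rpow_one n]
      rw [← Real.rpow_add hn0]
      norm_num
    rw [a1]
    have a2 : 0 ≤ CS * n ^ (3/4 : ℝ) := by positivity
    nlinarith
  have hnp : 0 < n ^ (7/4 : ℝ) := by positivity
  have g7 : ∑ v ∈ Finset.Icc D.l D.r ×ˢ Finset.Icc 0 D.h, G v ≤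
      (1 + Real.log N) * ((8 * (1 + 1 / (1 - 1/4)) + 2 * CS) * n ^ (7/4 : ℝ)) := by
    rw [g3]
    have b1 := mul_le_mul_of_nonneg_left g4 (by linarith : 0 ≤ 1 + Real.log N)
    have b2 := mul_le_mul_of_nonneg_left g5 (by linarith : (0:ℝ) ≤ N)
    have b3 : 0 ≤ Real.log N * (2 * CS * n ^ (7/4 : ℝ)) := by positivity
    nlinarith
  have g8 : ε * C1 * ∑ e ∈ D.edges, G (src e) ≤ ε * C1 * (2 * ((1 + Real.log N) *
      ((8 * (1 + 1 / (1 - 1/4)) + 2 * CS) * n ^ (7/4 : ℝ)))) := by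
    apply mul_le_mul_of_nonneg_left _ (by positivity)
    linarith
  refine g8.trans (le_of_eq ?_)
  ring

end Pool.Agent.Zk72.NS
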