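import Pool.Agent.Zk72.NS.AdvBdy
import Pool.Agent.Zk25.NS.CUT
import Pool.Agent.H984R4.NP.ModelLem

/-!
# Stability of the exploration path: the change of one edge, and of a set of edges
-/

set_option autoImplicit false

namespace Pool.Agent.Zk72.NS

open H974 Finset H342P H984P H984N H12S H389NS Pool.Agent.Zk36.TT Pool.Agent.W92.DP

theorem pl_congr {N N' : ℕ} {p p' : ℕ → ℂ} (hN : N = N') (h : ∀ j ≤ N, p j = p' j) :
    pl N p = pl N' p' := by
  subst hN
  ext s
  show p 0 + ∑ k ∈ Finset.range N, ((clamp (s * N - k) : ℝ) : ℂ) * (p (k + 1) - p k) =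
    p' 0 + ∑ k ∈ Finset.range N, ((clamp (s * N - k) : ℝ) : ℂ) * (p' (k + 1) - p' k)
  rw [h 0 (Nat.zero_le _)]
  congr 1
  apply Finset.sum_congr rfl
  intro k hk
  rw [Finset.mem_range] at hk
  rw [h k (by omega), h (k + 1) (by omega)]

/-- the number of sizes of excursions -/
noncomputable def nEx (D : Dm) (N : ℕ) (F : Finset Edg) (e : Edg) : ℝ :=
  ∑ r ∈ Finset.Icc 1 N, ind (Exc D F e r)

theorem nEx_nonneg (D : Dm) (N : ℕ) (F : Finset Edg) (e : Edg) : 0 ≤ nEx D N F e :=
  Finset.sum_nonneg fun _ _ => ind_nonneg _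

theorem le_nEx {D : Dm} {N : ℕ} {F : Finset Edg} {e : Edg} {s : ℕ} (hs : s ≤ N)
    (h : Exc D F e s) : (s : ℝ) ≤ nEx D N F e := by
  unfold nEx
  have h1 : ∑ r ∈ Finset.Icc 1 s, ind (Exc D F e r) ≤ ∑ r ∈ Finset.Icc 1 N, ind (Exc D F e r) :=
    Finset.sum_le_sum_of_subset_of_nonneg (Finset.Icc_subset_Icc_right hs)
      fun _ _ _ => ind_nonneg _
  refine le_trans (le_of_eq ?_) h1
  rw [Finset.sum_congr rfl (g := fun _ => (1:ℝ))]
  · simp
  · intro r hr
    rw [Finset.mem_Icc] at hr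
    exact ind_of (Exc_mono hr.2 h)

theorem sd_symm (u v : Vtx) : sd u v = sd v u := by
  unfold sd
  rw [abs_sub_comm, abs_sub_comm u.2]

theorem walk_in' {D : Dm} (hD : D.Ok) {F : Finset Edg} (hF : F ⊆ D.edges) {k : ℕ}
    (_hk : k ≤ D.len F) : inR D.l D.r 0 D.h (D.walk F k).1 := walk_in hD hF k

theorem sd_box {D : Dm} {u v : Vtx} (hu : inR D.l D.r 0 D.h u) (hv : inR D.l D.r 0 D.h v) {N : ℕ}
    (h1 : D.r - D.l ≤ N) (h2 : D.h ≤ N) : sd u v ≤ N := by
  unfold inR at hu hv
  unfold sd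
  rw [max_le_iff, abs_le, abs_le]
  omega

/-- the case of an edge which is examined twice -/
theorem flip_twice {R : Rect} {δ : ℝ} (hδ : 0 ≤ δ) (hD : (R.dm δ).Ok) {F : Finset Edg}
    (hF : F ⊆ (R.dm δ).edges) {e : Edg} (he : e ∈ (R.dm δ).edges) (hw : e ∉ (R.dm δ).wir) {N : ℕ}
    (h1 : (R.dm δ).r - (R.dm δ).l ≤ N) (h2 : (R.dm δ).h ≤ N) {i l : ℕ}
    (hT : Twice (R.dm δ) F e i l) :
    H342L.cdist (R.curve δ F) (R.curve δ (flip e F)) ≤ δ * (5 + 2 * nEx (R.dm δ) N F e) := by
  obtain ⟨hil, hi, hl⟩ := hT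
  obtain ⟨c1, c2, c3, c4⟩ := cut hD hF hw hil hi hl
  refine Pool.Agent.Zk25.NS.t_CUT _ _ i l _ _ _ hil hl.1 c1 (fun j hj => by rw [c2 j hj])
    (fun m hm hm2 => by rw [c3 m hm hm2]) ?_
  intro j hij hjl
  refine (dist_pos_le hδ _ _).trans ?_
  apply mul_le_mul_of_nonneg_left _ hδ
  have a1 := at_near hi
  have a2 := at_near hl
  have a3 := Walk_sd_tri (((R.dm δ).walk F j).1) (src e) ((R.dm δ).walk F i).1
  rw [sd_symm _ (src e)] at a3
  have hn := nEx_nonneg (R.dm δ) N F e
  rcases eq_or_lt_of_le hij with h | h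
  · subst h
    have a4 : sd ((R.dm δ).walk F i).1 ((R.dm δ).walk F i).1 ≤ 2 := by omega
    have a5 : ((sd ((R.dm δ).walk F i).1 ((R.dm δ).walk F i).1 : ℤ) : ℝ) ≤ 2 := by
      exact_mod_cast a4
    linarith
  rcases eq_or_lt_of_le hjl with h' | h'
  · subst h'
    have a5 : ((sd ((R.dm δ).walk F j).1 ((R.dm δ).walk F i).1 : ℤ) : ℝ) ≤ 2 := by
      exact_mod_cast (by omega : sd ((R.dm δ).walk F j).1 ((R.dm δ).walk F i).1 ≤ 2)
    linarith
  · have b1 : 0 ≤ sd (src e) ((R.dm δ).walk F j).1 := by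
      unfold sd
      exact le_max_of_le_left (abs_nonneg _)
    obtain ⟨s, hs⟩ : ∃ s : ℕ, (s : ℤ) = sd (src e) ((R.dm δ).walk F j).1 :=
      ⟨(sd (src e) ((R.dm δ).walk F j).1).toNat, by omega⟩
    have b2 := sd_box (src_in he) (walk_in' hD hF (k := j) (by have := hl.1; omega)) h1 h2
    have b3 := le_nEx (D := R.dm δ) (N := N) (F := F) (e := e) (s := s) (by omega)
      ⟨i, j, l, h, h', hi, hl, by omega⟩
    have b4 : ((sd ((R.dm δ).walk F j).1 ((R.dm δ).walk F i).1 : ℤ) : ℝ) ≤ (s:ℝ) + 1 := by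
      have : sd ((R.dm δ).walk F j).1 ((R.dm δ).walk F i).1 ≤ (s:ℤ) + 1 := by omega
      exact_mod_cast this
    linarith

/-- the change of one edge -/
theorem flip_one {R : Rect} {δ : ℝ} (hδ : 0 ≤ δ) (hD : (R.dm δ).Ok) {F : Finset Edg}
    (hF : F ⊆ (R.dm δ).edges) {e : Edg} (he : e ∈ (R.dm δ).edges) {N : ℕ}
    (h1 : (R.dm δ).r - (R.dm δ).l ≤ N) (h2 : (R.dm δ).h ≤ N) :
    H342L.cdist (R.curve δ F) (R.curve δ (flip e F)) ≤ ind (e ∉ (R.dm δ).wir) *
      (δ * (5 * ind (Exm (R.dm δ) F e) +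
        2 * (nEx (R.dm δ) N F e + nEx (R.dm δ) N (flip e F) e))) := by
  have hn := nEx_nonneg (R.dm δ) N F e
  have hn' := nEx_nonneg (R.dm δ) N (flip e F) e
  by_cases hw : e ∈ (R.dm δ).wir
  · have hc : (R.dm δ).cfg (flip e F) = (R.dm δ).cfg F := by
      ext f
      by_cases hf : f = e
      · subst hf
        unfold Dm.cfg
        exact ⟨fun _ => Or.inr hw, fun _ => Or.inr hw⟩
      · exact mem_cfg_ne hf
    have hcv : R.curve δ (flip e F) = R.curve δ F := by
      unfold Rect.curve Dm.len Dm.walk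
      rw [hc]
    rw [hcv, H342L.cdist_self, ind_not_of (by rw [not_not]; exact hw), zero_mul]
  rw [ind_of hw, one_mul]
  rcases tricho (R.dm δ) F e with h | ⟨i, h⟩ | ⟨i, l, h⟩
  · obtain ⟨g1, g2⟩ := none_len hD hF h
    have hcv : R.curve δ (flip e F) = R.curve δ F := by
      unfold Rect.curve
      exact pl_congr g1 fun j hj => by rw [g2 j (by rw [← g1]; exact hj)]
    rw [hcv, H342L.cdist_self]
    have := ind_nonneg (Exm (R.dm δ) F e)
    positivity
  · obtain ⟨l, g1, g2, g3⟩ := once_twice hD hF he hw h.1 h.2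
    have g4 := flip_twice hδ hD (flip_sub he hF) he hw h1 h2 ⟨g1, g2, g3⟩
    rw [Pool.Agent.Zk36.TT.flip_flip, H342L.cdist_comm] at g4
    rw [ind_of (show Exm (R.dm δ) F e from ⟨i, h.1⟩)]
    refine g4.trans (mul_le_mul_of_nonneg_left ?_ hδ)
    linarith
  · have g4 := flip_twice hδ hD hF he hw h1 h2 h
    rw [ind_of (show Exm (R.dm δ) F e from ⟨i, h.2.1⟩)]
    refine g4.trans (mul_le_mul_of_nonneg_left ?_ hδ)
    linarith

/-- a chain of changes -/
theorem chain {d : Finset Edg → Finset Edg → ℝ} (h0 : ∀ F, d F F = 0)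
    (ht : ∀ F G H, d F H ≤ d F G + d G H) {U B : Finset Edg} {b : Edg → ℝ}
    (hb : ∀ F, Btw U B F → ∀ e ∈ U, d F (flip e F) ≤ b e) {F : Finset Edg} (hF : Btw U B F) :
    d B F ≤ ∑ e ∈ U, b e := by
  have key : ∀ T : Finset Edg, T ⊆ U → ∀ F, Btw T B F → d B F ≤ ∑ e ∈ T, b e := by
    intro T
    induction T using Finset.induction_on with
    | empty =>
      intro _ F hF
      have : F = B := by
        rw [Btw_iff] at hF
        ext x
        exact hF x (Finset.notMem_empty x)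
      rw [this, h0, Finset.sum_empty]
    | insert a T ha ih =>
      intro hT F hF
      have haU : a ∈ U := hT (Finset.mem_insert_self _ _)
      have hTU : T ⊆ U := (Finset.subset_insert _ _).trans hT
      rw [Finset.sum_insert ha]
      have hbtU : ∀ G, Btw T B G → Btw U B G := by
        intro G hG
        rw [Btw_iff] at hG ⊢
        exact fun x hx => hG x fun h => hx (hTU h)
      have hba : 0 ≤ b a := by
        have g1 := hb B (Btw_self U B) a haU
        have g2 := hb _ (Btw_flip (Btw_self U B) haU) a haU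
        rw [Pool.Agent.Zk36.TT.flip_flip] at g2
        have g3 := ht B (flip a B) B
        rw [h0] at g3
        linarith
      rw [Btw_iff] at hF
      by_cases hab : a ∈ F ↔ a ∈ B
      · have hF' : Btw T B F := by
          rw [Btw_iff]
          intro x hx
          by_cases hxa : x = a
          · subst hxa
            exact hab
          · exact hF x (by rw [Finset.mem_insert]; tauto)
        have := ih hTU F hF'
        linarith
      · have hF' : Btw T B (flip a F) := by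
          rw [Btw_iff]
          intro x hx
          by_cases hxa : x = a
          · subst hxa
            rw [mem_flip_self]
            tauto
          · rw [mem_flip_ne hxa]
            exact hF x (by rw [Finset.mem_insert]; tauto)
        have g1 := ih hTU _ hF'
        have g2 := hb _ (hbtU _ hF') a haU
        rw [Pool.Agent.Zk36.TT.flip_flip] at g2
        have g3 := ht B (flip a F) F
        linarith
  exact key U (Finset.Subset.refl _) F hF

end Pool.Agent.Zk72.NS
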