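import Pool.Agent.Zk72.NS.Adv2
import Pool.Agent.Zk36.NS.REC1
import Pool.Agent.Zk85.NS.REC2b
import Pool.Agent.Zk62.NS.REC4
import Pool.Agent.Zk67.NS.LOC
import Pool.Agent.Zk47.NS.SIDE
import Pool.Agent.Zk78.NS.CPL
import Pool.Agent.W347.DPAA
import Pool.Agent.Results.MP_fe58d8_pr.NaturalCurve

/-!
# Stability of the exploration path: the parts are put together
-/

set_option autoImplicit false

namespace Pool.Agent.Zk72.NS

open H974 Finset H342P H984P H984N H12S H389NS Pool.Agent.Zk36.TT Pool.Agent.W92.DP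

theorem a4u : S_A4U := Pool.Agent.Zk62.NS.t_REC4 Pool.Agent.W347.DPAA.aa
  (Pool.Agent.W571.DPad.ad Pool.Agent.W347.DPAA.aa) t_CHN Pool.Agent.Zk47.NS.t_MON
  Pool.Agent.Zk67.NS.t_PIV4

theorem a2u : S_A2U := by
  obtain ⟨-, -, C, _, hA⟩ := Pool.Agent.Results.MP_fe58d8_pr.NaturalCurve.inputs
  exact Pool.Agent.Zk85.NS.t_REC2 hA a4u t_CHN Pool.Agent.Zk47.NS.t_EXI
    Pool.Agent.Zk67.NS.t_PIV1

theorem a1u : S_A1U := Pool.Agent.Zk36.NS.t_REC1 Pool.Agent.Zk47.NS.t_SIDE a4u t_CHN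
  Pool.Agent.Zk47.NS.t_EXI Pool.Agent.Zk67.NS.t_PIV1

end Pool.Agent.Zk72.NS
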