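import Pool.Agent.Zk72.NS.Bdy

/-!
# Stability of the exploration path under noise: numerical lemmas
-/

set_option autoImplicit false

namespace Pool.Agent.Zk72.NS

open H974 Finset H342P H984P H984N H12S H389NS Pool.Agent.Zk36.TT Pool.Agent.W92.DP

theorem scale_le {p ε X : ℝ} (hε : 0 ≤ ε) (hp : p ≤ ε)
    (h : 0 < ε → p / ε ≤ X) : p ≤ ε * X := by
  rcases hε.eq_or_lt with h0 | h0
  · rw [← h0] at hp ⊢
    linarith
  · have := h h0
    rw [div_le_iff₀ h0] at this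
    linarith

/-- interior bound, numerical part -/
theorem num1 {C1 C2 p : ℝ} {r d : ℕ} (hC1 : 1 ≤ C1) (hC2 : 1 ≤ C2) (hr : 1 ≤ r) (hrd : r ≤ d)
    (h0 : p ≤ 1) (h1 : 8 ≤ r → p ≤ C1 * (r : ℝ) ^ (-(5/4) : ℝ))
    (h2 : 4 ≤ d → p ≤ C2 * ((2 : ℝ) / (d - 1 : ℕ)) ^ (1/4 : ℝ))
    (h3 : 8 ≤ r → r + 3 ≤ d → p ≤ (C1 * (r : ℝ) ^ (-(5/4) : ℝ)) *
      (C2 * (((r + 1 : ℕ) : ℝ) / (d - 1 : ℕ)) ^ (1/4 : ℝ))) :
    p ≤ 100 * (1 + C1) * (1 + C2) * ((r : ℝ) ^ (-1 : ℝ) * ((d : ℝ) + 1) ^ (-(1/4) : ℝ)) := by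
  have hr0 : (0:ℝ) < r := by exact_mod_cast hr
  have hd0 : (0:ℝ) < d := by
    have : 0 < d := by omega
    exact_mod_cast this
  have hrdR : (r : ℝ) ≤ d := by exact_mod_cast hrd
  have hr1 : (1:ℝ) ≤ r := by exact_mod_cast hr
  set y := ((d : ℝ) + 1) ^ (-(1/4) : ℝ) with hy
  have hy0 : 0 < y := by positivity
  have hd1 : 4 ≤ d → (0:ℝ) < ((d - 1 : ℕ) : ℝ) ∧
      (((d - 1 : ℕ) : ℝ)) ^ (-(1/4) : ℝ) ≤ 2 * y := by
    intro h4
    have g1 : (((d - 1 : ℕ)) : ℝ) = (d:ℝ) - 1 := by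
      rw [Nat.cast_sub (by omega)]
      simp
    have g2 : (4:ℝ) ≤ d := by exact_mod_cast h4
    rw [g1]
    refine ⟨by linarith, ?_⟩
    exact two_inv (x := (d:ℝ) - 1) (y := (d:ℝ) + 1) (M := 2) (by linarith) (by positivity)
      (by norm_num) (by linarith)
  have hCC : 0 ≤ C1 * C2 := by positivity
  have hCr : 0 ≤ C1 := by linarith
  have hm1 : (r:ℝ) ^ (-1 : ℝ) = (r:ℝ)⁻¹ := Real.rpow_neg_one _
  rw [hm1]
  rcases Nat.lt_or_ge r 8 with h8 | h8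
  · have hri : (1:ℝ)/8 ≤ (r:ℝ)⁻¹ := by
      rw [one_div]
      apply inv_anti₀ hr0
      exact_mod_cast h8.le
    rcases Nat.lt_or_ge d 4 with h4 | h4
    · have h2 : 1 ≤ 4 * y := by
        have := two_inv (x := 1) (y := (d:ℝ) + 1) (M := 4) one_pos (by positivity) (by norm_num)
          (by
            have : (d:ℝ) ≤ 3 := by
              have : d ≤ 3 := by omega
              exact_mod_cast this
            linarith)
        rwa [Real.one_rpow] at this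
      have h4 : y / 8 ≤ (r:ℝ)⁻¹ * y := by nlinarith
      have h5 : 100 * ((r:ℝ)⁻¹ * y) ≤ 100 * (1 + C1) * (1 + C2) * ((r:ℝ)⁻¹ * y) := by
        apply mul_le_mul_of_nonneg_right _ (by positivity)
        nlinarith
      linarith
    · obtain ⟨hdp, hyd⟩ := hd1 h4
      have h1 := h2 h4
      have h2 : ((2:ℝ)/((d - 1 : ℕ) : ℝ)) ^ (1/4 : ℝ) ≤ 4 * y := by
        rw [Real.div_rpow (by norm_num) hdp.le, div_eq_mul_inv, ← Real.rpow_neg hdp.le]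
        have h3 : (2:ℝ) ^ (1/4 : ℝ) ≤ 2 := by
          calc (2:ℝ) ^ (1/4 : ℝ) ≤ 2 ^ (1 : ℝ) :=
                Real.rpow_le_rpow_of_exponent_le (by norm_num) (by norm_num)
            _ = 2 := Real.rpow_one 2
        have h4 : 0 ≤ (((d - 1 : ℕ) : ℝ)) ^ (-(1/4) : ℝ) := by positivity
        calc (2:ℝ) ^ (1/4 : ℝ) * (((d - 1 : ℕ) : ℝ)) ^ (-(1/4) : ℝ) ≤ 2 * (2 * y) :=
              mul_le_mul h3 hyd h4 (by norm_num)
          _ = 4 * y := by ring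
      have h4 : y / 8 ≤ (r:ℝ)⁻¹ * y := by nlinarith
      have h5 : 100 * C2 * ((r:ℝ)⁻¹ * y) ≤ 100 * (1 + C1) * (1 + C2) * ((r:ℝ)⁻¹ * y) := by
        apply mul_le_mul_of_nonneg_right _ (by positivity)
        nlinarith
      have hC20 : 0 < C2 := by linarith
      have h6 := mul_le_mul_of_nonneg_left h2 hC20.le
      have h7 := mul_le_mul_of_nonneg_left h4 (by positivity : 0 ≤ 100 * C2)
      have h8 : C2 * (4 * y) ≤ 100 * C2 * (y / 8) := by nlinarith [mul_pos hC20 hy0]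
      linarith
  · have e54 : (r : ℝ) ^ (-(5/4) : ℝ) = (r:ℝ)⁻¹ * (r:ℝ) ^ (-(1/4) : ℝ) := by
      rw [← Real.rpow_neg_one, ← Real.rpow_add hr0]
      norm_num
    rcases Nat.lt_or_ge d (r + 3) with h4 | h4
    · have h1 := h1 h8
      have h2 : (r:ℝ) ^ (-(1/4) : ℝ) ≤ 2 * y := by
        refine two_inv (x := (r:ℝ)) (y := (d:ℝ) + 1) (M := 2) hr0 (by positivity) (by norm_num) ?_
        have h4 : (d:ℝ) ≤ r + 2 := by
          have : d ≤ r + 2 := by omega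
          exact_mod_cast this
        have h5 : (8:ℝ) ≤ r := by exact_mod_cast h8
        linarith
      rw [e54] at h1
      have h6 : C1 * ((r:ℝ)⁻¹ * (r:ℝ) ^ (-(1/4) : ℝ)) ≤ C1 * ((r:ℝ)⁻¹ * (2 * y)) := by gcongr
      have h5 : 2 * C1 * ((r:ℝ)⁻¹ * y) ≤ 100 * (1 + C1) * (1 + C2) * ((r:ℝ)⁻¹ * y) := by
        apply mul_le_mul_of_nonneg_right _ (by positivity)
        nlinarith
      linarith
    · obtain ⟨hdp, hyd⟩ := hd1 (by omega)
      have h1 := h3 h8 h4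
      have h2 : (((r + 1 : ℕ) : ℝ) / (((d - 1 : ℕ) : ℝ))) ^ (1/4 : ℝ) ≤
          4 * ((r:ℝ) ^ (1/4 : ℝ) * y) := by
        rw [Real.div_rpow (by positivity) hdp.le, div_eq_mul_inv, ← Real.rpow_neg hdp.le]
        have h3 : (((r + 1 : ℕ) : ℝ)) ^ (1/4 : ℝ) ≤ 2 * (r:ℝ) ^ (1/4 : ℝ) := by
          refine two_pow (by positivity) hr0.le (by norm_num) ?_
          push_cast
          linarith
        have h4 : 0 ≤ (((d - 1 : ℕ) : ℝ)) ^ (-(1/4) : ℝ) := by positivity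
        calc (((r + 1 : ℕ) : ℝ)) ^ (1/4 : ℝ) * (((d - 1 : ℕ) : ℝ)) ^ (-(1/4) : ℝ)
            ≤ (2 * (r:ℝ) ^ (1/4 : ℝ)) * (2 * y) := mul_le_mul h3 hyd h4 (by positivity)
          _ = 4 * ((r:ℝ) ^ (1/4 : ℝ) * y) := by ring
      rw [e54] at h1
      have h3 : (r:ℝ) ^ (-(1/4) : ℝ) * (r:ℝ) ^ (1/4 : ℝ) = 1 := by
        rw [← Real.rpow_add hr0]
        norm_num
      have h6 : (C1 * ((r:ℝ)⁻¹ * (r:ℝ) ^ (-(1/4) : ℝ))) *
          (C2 * (((r + 1 : ℕ) : ℝ) / (((d - 1 : ℕ) : ℝ))) ^ (1/4 : ℝ)) ≤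
          (C1 * ((r:ℝ)⁻¹ * (r:ℝ) ^ (-(1/4) : ℝ))) * (C2 * (4 * ((r:ℝ) ^ (1/4 : ℝ) * y))) := by
        gcongr
      have h7 : (C1 * ((r:ℝ)⁻¹ * (r:ℝ) ^ (-(1/4) : ℝ))) * (C2 * (4 * ((r:ℝ) ^ (1/4 : ℝ) * y))) =
          4 * (C1 * C2) * ((r:ℝ)⁻¹ * y) * ((r:ℝ) ^ (-(1/4) : ℝ) * (r:ℝ) ^ (1/4 : ℝ)) := by ring
      rw [h7, h3, mul_one] at h6
      have h5 : 4 * (C1 * C2) * ((r:ℝ)⁻¹ * y) ≤ 100 * (1 + C1) * (1 + C2) * ((r:ℝ)⁻¹ * y) := by
        apply mul_le_mul_of_nonneg_right _ (by positivity)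
        nlinarith
      linarith

/-- boundary bound, numerical part -/
theorem num2 {C1 CS p : ℝ} {r d t : ℕ} (hC1 : 1 ≤ C1) (hCS : 1 ≤ CS) (hr : 1 ≤ r)
    (hbr : d ≤ r) (hbs : d ≤ t)
    (h0 : p ≤ 1) (h1 : 8 ≤ d → p ≤ 4 * C1 * ((d:ℝ) + 1) ^ (-(5/4) : ℝ))
    (h2 : d + 4 ≤ min (r - 1) t →
      p ≤ 2 * (CS * (((d + 3 + 1 : ℕ) : ℝ) / (min (r - 1) t : ℕ)) ^ (1 / 3 : ℝ)))
    (h3 : 8 ≤ d → d + 4 ≤ min (r - 1) t → p ≤ (4 * C1 * ((d:ℝ) + 1) ^ (-(5/4) : ℝ)) *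
      (2 * (CS * (((d + 3 + 1 : ℕ) : ℝ) / (min (r - 1) t : ℕ)) ^ (1 / 3 : ℝ)))) :
    p ≤ 100000 * C1 * CS * (((d : ℝ) + 1) ^ (-(11/12) : ℝ) *
          (((min r t : ℕ) : ℝ) + 1) ^ (-(1/3) : ℝ)) := by
  set m := min r t with hm
  have hd1 : (0:ℝ) < (d:ℝ) + 1 := by positivity
  have hm1 : (0:ℝ) < (m:ℝ) + 1 := by positivity
  set y := ((d:ℝ) + 1) ^ (-(11/12) : ℝ) with hy
  set z := ((m:ℝ) + 1) ^ (-(1/3) : ℝ) with hz
  have hy0 : 0 < y := by positivity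
  have hz0 : 0 < z := by positivity
  have hC0 : 0 < C1 * CS := by positivity
  have hC11 : C1 ≤ C1 * CS := by nlinarith
  have hCS1 : CS ≤ C1 * CS := by nlinarith
  have h1C : 1 ≤ C1 * CS := by nlinarith
  -- the factor of the four arms
  have hq0 : 0 < ((d:ℝ) + 1) ^ (-(5/4) : ℝ) := by positivity
  have hsmall : d < 8 → 1 ≤ 64 * ((d:ℝ) + 1) ^ (-(5/4) : ℝ) := by
    intro h8
    have h1 := pw_le (x := 1) (y := (d:ℝ) + 1) (c := 8) (5/4) (by norm_num) one_pos hd1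
      (by norm_num) (by norm_num) (by
        have : (d:ℝ) ≤ 7 := by
          have : d ≤ 7 := by omega
          exact_mod_cast this
        linarith)
    rw [Real.one_rpow] at h1
    have h3 : (8:ℝ) ^ (2:ℝ) = 64 := by norm_num
    rwa [h3] at h1
  rcases Nat.lt_or_ge (min (r - 1) t) (d + 4) with hR | hR
  · -- small `m`
    have hmd : m ≤ d + 4 := by omega
    have h4 : ((d:ℝ) + 1) ^ (-(1/3) : ℝ) ≤ 25 * z := by
      have h1 := pw_le (x := (d:ℝ) + 1) (y := (m:ℝ) + 1) (c := 5) (1/3) (by norm_num) hd1 hm1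
        (by norm_num) (by norm_num) (by
          have : (m:ℝ) ≤ d + 4 := by exact_mod_cast hmd
          have : (0:ℝ) ≤ d := by positivity
          linarith)
      have h3 : (5:ℝ) ^ (2:ℝ) = 25 := by norm_num
      rwa [h3] at h1
    have h2' : ((d:ℝ) + 1) ^ (-(5/4) : ℝ) = y * ((d:ℝ) + 1) ^ (-(1/3) : ℝ) := by
      rw [hy, ← Real.rpow_add hd1]
      norm_num
    have h3' : p ≤ 64 * C1 * ((d:ℝ) + 1) ^ (-(5/4) : ℝ) := by
      rcases Nat.lt_or_ge d 8 with h8 | h8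
      · have g1 := hsmall h8
        have g2 : 64 * ((d:ℝ) + 1) ^ (-(5/4) : ℝ) ≤ 64 * C1 * ((d:ℝ) + 1) ^ (-(5/4) : ℝ) := by
          apply mul_le_mul_of_nonneg_right _ hq0.le
          linarith
        exact h0.trans (g1.trans g2)
      · have g2 := h1 h8
        have g3 : 4 * C1 * ((d:ℝ) + 1) ^ (-(5/4) : ℝ) ≤ 64 * C1 * ((d:ℝ) + 1) ^ (-(5/4) : ℝ) := by
          apply mul_le_mul_of_nonneg_right _ hq0.le
          linarith
        exact g2.trans g3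
    rw [h2'] at h3'
    have h5 : 64 * C1 * (y * ((d:ℝ) + 1) ^ (-(1/3) : ℝ)) ≤ 64 * C1 * (y * (25 * z)) := by gcongr
    have h6 : 1600 * C1 * (y * z) ≤ 100000 * C1 * CS * (y * z) := by
      apply mul_le_mul_of_nonneg_right _ (by positivity)
      nlinarith
    linarith
  · -- the arm near the boundary
    have hBo := h2 hR
    have hBo2 := fun h8 => h3 h8 hR
    set R := min (r - 1) t with hRdef
    have hRpos : (0:ℝ) < R := by
      have : 0 < R := by omega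
      exact_mod_cast this
    -- the power
    have hpw : (((d + 3 + 1 : ℕ) : ℝ) / R) ^ (1 / 3 : ℝ) ≤ 16 * (((d:ℝ) + 1) ^ (1/3 : ℝ) * z) := by
      rw [Real.div_rpow (by positivity) hRpos.le, div_eq_mul_inv, ← Real.rpow_neg hRpos.le]
      have g1 : (((d + 3 + 1 : ℕ) : ℝ)) ^ (1/3 : ℝ) ≤ 4 * ((d:ℝ) + 1) ^ (1/3 : ℝ) := by
        calc (((d + 3 + 1 : ℕ) : ℝ)) ^ (1/3 : ℝ) ≤ (4 * ((d:ℝ) + 1)) ^ (1/3 : ℝ) := by
              apply Real.rpow_le_rpow (by positivity) _ (by norm_num)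
              push_cast
              have : (0:ℝ) ≤ d := by positivity
              linarith
          _ = 4 ^ (1/3 : ℝ) * ((d:ℝ) + 1) ^ (1/3 : ℝ) := Real.mul_rpow (by norm_num) hd1.le
          _ ≤ 4 * ((d:ℝ) + 1) ^ (1/3 : ℝ) := by
              apply mul_le_mul_of_nonneg_right _ (by positivity)
              calc (4:ℝ) ^ (1/3 : ℝ) ≤ 4 ^ (1:ℝ) :=
                    Real.rpow_le_rpow_of_exponent_le (by norm_num) (by norm_num)
                _ = 4 := Real.rpow_one 4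
      have g2 : (R:ℝ) ^ (-(1/3) : ℝ) ≤ 4 * z := by
        have h1 := pw_le (x := (R:ℝ)) (y := (m:ℝ) + 1) (c := 2) (1/3) (by norm_num) hRpos hm1
          (by norm_num) (by norm_num) (by
            have h1 : m ≤ R + 1 := by omega
            have h2 : (m:ℝ) ≤ R + 1 := by exact_mod_cast h1
            have h3 : (4:ℝ) ≤ R := by
              have : 4 ≤ R := by omega
              exact_mod_cast this
            linarith)
        have h3 : (2:ℝ) ^ (2:ℝ) = 4 := by norm_num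
        rwa [h3] at h1
      have g3 : 0 ≤ (R:ℝ) ^ (-(1/3) : ℝ) := by positivity
      calc (((d + 3 + 1 : ℕ) : ℝ)) ^ (1/3 : ℝ) * (R:ℝ) ^ (-(1/3 : ℝ))
          ≤ (4 * ((d:ℝ) + 1) ^ (1/3 : ℝ)) * (4 * z) := mul_le_mul g1 g2 g3 (by positivity)
        _ = 16 * (((d:ℝ) + 1) ^ (1/3 : ℝ) * z) := by ring
    have hyy : ((d:ℝ) + 1) ^ (-(5/4) : ℝ) * ((d:ℝ) + 1) ^ (1/3 : ℝ) = y := by
      rw [hy, ← Real.rpow_add hd1]
      norm_num
    have hX : 2 * (CS * (((d + 3 + 1 : ℕ) : ℝ) / R) ^ (1 / 3 : ℝ)) ≤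
        32 * CS * (((d:ℝ) + 1) ^ (1/3 : ℝ) * z) := by
      have g1 := mul_le_mul_of_nonneg_left hpw (by linarith : 0 ≤ CS)
      linarith
    have hfin : p ≤
        (64 * C1 * ((d:ℝ) + 1) ^ (-(5/4) : ℝ)) * (32 * CS * (((d:ℝ) + 1) ^ (1/3 : ℝ) * z)) := by
      rcases Nat.lt_or_ge d 8 with h8 | h8
      · have g1 := hsmall h8
        have g3 : 1 ≤ 64 * C1 * ((d:ℝ) + 1) ^ (-(5/4) : ℝ) := by
          have : 64 * ((d:ℝ) + 1) ^ (-(5/4) : ℝ) ≤ 64 * C1 * ((d:ℝ) + 1) ^ (-(5/4) : ℝ) := by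
            apply mul_le_mul_of_nonneg_right _ hq0.le
            linarith
          linarith
        have g4 : 0 ≤ 32 * CS * (((d:ℝ) + 1) ^ (1/3 : ℝ) * z) := by positivity
        calc p ≤ 32 * CS * (((d:ℝ) + 1) ^ (1/3 : ℝ) * z) := hBo.trans hX
          _ = 1 * (32 * CS * (((d:ℝ) + 1) ^ (1/3 : ℝ) * z)) := (one_mul _).symm
          _ ≤ _ := mul_le_mul_of_nonneg_right g3 g4
      · have g1 := hBo2 h8
        have g3 : 4 * C1 * ((d:ℝ) + 1) ^ (-(5/4) : ℝ) ≤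
              64 * C1 * ((d:ℝ) + 1) ^ (-(5/4) : ℝ) := by
            apply mul_le_mul_of_nonneg_right _ hq0.le
            linarith
        exact g1.trans (mul_le_mul g3 hX (by positivity) (by positivity))
    have hre : (64 * C1 * ((d:ℝ) + 1) ^ (-(5/4) : ℝ)) *
        (32 * CS * (((d:ℝ) + 1) ^ (1/3 : ℝ) * z)) = 2048 * (C1 * CS) *
        ((((d:ℝ) + 1) ^ (-(5/4) : ℝ) * ((d:ℝ) + 1) ^ (1/3 : ℝ)) * z) := by ring
    rw [hre, hyy] at hfin
    have h5 : 2048 * (C1 * CS) * (y * z) ≤ 100000 * C1 * CS * (y * z) := by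
      apply mul_le_mul_of_nonneg_right _ (by positivity)
      nlinarith
    linarith

end Pool.Agent.Zk72.NS
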