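import Pool.Agent.Zk72.NS.Arm
import Pool.Agent.W571.DPad

/-!
# Stability of the exploration path under noise: probability of an excursion
-/

set_option autoImplicit false

namespace Pool.Agent.Zk72.NS

open H974 Finset H342P H984P H984N H12S H389NS Pool.Agent.Zk36.TT Pool.Agent.W92.DP

/-- four arms around `v` -/
def Ar (v : Vtx) (r : ℕ) (F : Finset Edg) : Prop :=
  A4a v 3 (r - 3) (↑F : Set Edg) ∨ A4d v 3 (r - 3) (↑F : Set Edg)

theorem blk_mono {v : Vtx} {j k : ℕ} (h : j ≤ k) : blk v j ⊆ blk v k := by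
  unfold blk
  exact RE_subset (by omega) (by omega) (by omega) (by omega)

theorem Ar_local (v : Vtx) {r : ℕ} (hr : 8 ≤ r) {T : Finset Edg} (hT : blk v r ⊆ T)
    (F : Finset Edg) : Ar v r F ↔ Ar v r (F ∩ T) := by
  unfold Ar
  have h1 : A4a v 3 (r - 3) (↑F : Set Edg) ↔ A4a v 3 (r - 3) (↑(F ∩ T) : Set Edg) := by
    apply Pool.Agent.W571.DPad.A4a_congr
    ext e
    simp only [Set.mem_inter_iff, Finset.coe_inter, Finset.mem_coe]
    constructor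
    · rintro ⟨a1, a2⟩
      exact ⟨⟨a1, hT (blk_mono (by omega) a2)⟩, a2⟩
    · rintro ⟨⟨a1, _⟩, a2⟩
      exact ⟨a1, a2⟩
  have h2 : A4d v 3 (r - 3) (↑F : Set Edg) ↔ A4d v 3 (r - 3) (↑(F ∩ T) : Set Edg) := by
    unfold A4d
    apply Pool.Agent.W571.DPad.A4a_congr
    ext e
    simp only [Set.mem_inter_iff, Set.mem_image, Set.mem_compl_iff, Finset.coe_inter,
      Finset.mem_coe]
    constructor
    · rintro ⟨⟨g, hg, rfl⟩, he⟩
      exact ⟨⟨g, fun h => hg h.1, rfl⟩, he⟩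
    · rintro ⟨⟨g, hg, rfl⟩, he⟩
      have h3 := Pool.Agent.W571.DPad.dls_mem he
      rw [Equiv.symm_apply_apply] at h3
      exact ⟨⟨g, fun h => hg ⟨h, hT (blk_mono (by omega) h3)⟩, rfl⟩, he⟩
  rw [h1, h2]

theorem Ar_prob (hA : St_Aa) (hd : St_Ad) : ∃ C : ℝ, 1 ≤ C ∧ ∀ (v : Vtx) (r : ℕ) (S : Finset Edg),
    8 ≤ r → blk v r ⊆ S → P S (Ar v r) ≤ C * (r : ℝ) ^ (-(5/4) : ℝ) := by
  obtain ⟨Ca, hCa, hA'⟩ := hA
  obtain ⟨Cd, hCd, hD'⟩ := hd
  refine ⟨8 ^ (5/4 : ℝ) * (Ca + Cd + 1), ?_, ?_⟩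
  · have : (1:ℝ) ≤ 8 ^ (5/4 : ℝ) := Real.one_le_rpow (by norm_num) (by norm_num)
    nlinarith
  intro v r S h8 hS
  have hr0 : (0:ℝ) < r := by
    have : 0 < r := by omega
    exact_mod_cast this
  have key : 8 ^ (5/4 : ℝ) * (Ca + Cd + 1) * (r : ℝ) ^ (-(5/4) : ℝ) =
      (Ca + Cd + 1) * (8 / (r:ℝ)) ^ (5/4 : ℝ) := by
    rw [Real.div_rpow (by norm_num) hr0.le, Real.rpow_neg hr0.le]
    ring
  rw [key]
  have h1 := hA' v 3 (r - 3) (by norm_num) (by omega) S ((blk_mono (by omega)).trans hS)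
  have h2 := hD' v 3 (r - 3) (by norm_num) (by omega) S ((blk_mono (by omega)).trans hS)
  have h4 := Pr_or_le okh S (fun F => A4a v 3 (r - 3) (↑F : Set Edg))
    (fun F => A4d v 3 (r - 3) (↑F : Set Edg))
  have h5 : (((3:ℕ):ℝ) / ((r - 3 : ℕ) : ℝ)) ^ (5/4 : ℝ) ≤ (8 / (r:ℝ)) ^ (5/4 : ℝ) := by
    refine Real.rpow_le_rpow (by positivity) ?_ (by norm_num)
    rw [Nat.cast_sub (by omega)]
    have h8' : (8:ℝ) ≤ r := by exact_mod_cast h8
    push_cast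
    rw [div_le_div_iff₀ (by linarith) hr0]
    linarith
  have h6 : 0 ≤ (8 / (r:ℝ)) ^ (5/4 : ℝ) := by positivity
  have h7 := mul_le_mul_of_nonneg_left h5 hCa.le
  have h9 := mul_le_mul_of_nonneg_left h5 hCd.le
  have h10 : P S (Ar v r) ≤ _ := h4.trans (add_le_add (h1.trans h7) (h2.trans h9))
  refine h10.trans ?_
  nlinarith

theorem blk_edges {D : Dm} {v : Vtx} {k : ℕ} (hk : (k : ℤ) ≤ D.bd v) : blk v k ⊆ D.edges :=
  one_box hk

theorem Exc_mono {D : Dm} {F : Finset Edg} {e : Edg} {r r' : ℕ} (h : r' ≤ r) (hE : Exc D F e r) :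
    Exc D F e r' := by
  obtain ⟨i, j, l, h1, h2, h3, h4, h5⟩ := hE
  exact ⟨i, j, l, h1, h2, h3, h4, by omega⟩

/-- the annulus event around an examined edge -/
theorem exc_ann {D : Dm} (hD : D.Ok) {F : Finset Edg} (hF : F ⊆ D.edges) {e : Edg} {r k R : ℕ}
    (hk : 1 ≤ k) (hR : k + 2 ≤ R) (hb : (R : ℤ) ≤ D.bd (src e)) (h : Exc D F e r) :
    two_An (D.edges \ blk (src e) k) (src e) (k + 1) R F := by
  obtain ⟨i, j, l, hij, hjl, hi, hl, hj⟩ := h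
  have h1 := near_of (at_near hi)
  have hdb : (D.l ≤ (src e).1 - R ∧ (src e).1 + R ≤ D.r) ∧
      (0 ≤ (src e).2 - R ∧ (src e).2 + R ≤ D.h) := by
    unfold Dm.bd at hb
    omega
  have h3 := vis_ann hD hF ⟨i, hi.1.le, rfl⟩ (c1 := (src e).1) (c2 := (src e).2) (k := k) (R := R)
    (by unfold inR; omega) hR (by omega) (by omega) (by omega) (by omega)
  unfold two_An
  have e1 : F ∩ (D.edges \ blk (src e) k) = F \ blk (src e) k := by
    ext g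
    simp only [Finset.mem_inter, Finset.mem_sdiff]
    constructor
    · rintro ⟨a1, a2, a3⟩
      exact ⟨a1, a3⟩
    · rintro ⟨a1, a3⟩
      exact ⟨a1, hF a1, a3⟩
  rw [e1]
  exact h3

theorem e1_a {C2 : ℝ} (hA : AnnUp C2) {D : Dm} (hD : D.Ok) {e : Edg} {r R : ℕ}
    (hR : 3 ≤ R) (hb : (R : ℤ) ≤ D.bd (src e)) :
    P D.edges (fun F => Exc D F e r) ≤ C2 * ((2 : ℝ) / R) ^ (1/4 : ℝ) := by
  have h1 := two_pr hA (X := D.edges \ blk (src e) 1) (S := D.edges) Finset.sdiff_subset (src e)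
    (r := 2) (R := R) (by norm_num) (by omega)
  refine (Pr_mono okh fun F hF h => exc_ann hD hF (k := 1) le_rfl (by omega) hb h).trans ?_
  exact_mod_cast h1

theorem e1_b {C1 C2 : ℝ} (hC1 : 0 ≤ C1) (hC : ∀ (v : Vtx) (r : ℕ) (S : Finset Edg),
    8 ≤ r → blk v r ⊆ S → P S (Ar v r) ≤ C1 * (r : ℝ) ^ (-(5/4) : ℝ)) (hA : AnnUp C2)
    {D : Dm} (hD : D.Ok) {e : Edg} {r R : ℕ} (hr : 8 ≤ r) (hR : r + 2 ≤ R)
    (hb : (R : ℤ) ≤ D.bd (src e)) :
    P D.edges (fun F => Exc D F e r) ≤ (C1 * (r : ℝ) ^ (-(5/4) : ℝ)) *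
      (C2 * (((r + 1 : ℕ) : ℝ) / R) ^ (1/4 : ℝ)) := by
  have hs : blk (src e) r ⊆ D.edges := blk_edges (by omega)
  have hi : P D.edges (fun F => Ar (src e) r F ∧
      two_An (D.edges \ blk (src e) r) (src e) (r + 1) R F) =
      P D.edges (Ar (src e) r) * P D.edges (two_An (D.edges \ blk (src e) r) (src e) (r + 1) R) :=
    Pr_indep hs Finset.sdiff_subset Finset.disjoint_sdiff
      (fun F _ => Ar_local _ hr (Finset.Subset.refl _) F) (fun F _ => two_loc _ _ _ _ F)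
  have h1 : P D.edges (fun F => Exc D F e r) ≤ P D.edges (fun F => Ar (src e) r F ∧
      two_An (D.edges \ blk (src e) r) (src e) (r + 1) R F) :=
    Pr_mono okh fun F hF h => ⟨exc_arms hD hF hr (by omega) h,
      exc_ann hD hF (by omega) hR hb h⟩
  rw [hi] at h1
  refine h1.trans (mul_le_mul (hC _ _ _ hr hs)
    (two_pr hA Finset.sdiff_subset (src e) (by omega) (by omega)) (Pr_nonneg okh _ _)
    (by positivity))

/-- the interior bound -/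
theorem e1 (hA : St_Aa) (hd : St_Ad) {C2 : ℝ} (hC2 : 0 < C2) (hA2 : AnnUp C2) :
    ∃ C : ℝ, 1 ≤ C ∧ ∀ (D : Dm), D.Ok → ∀ (e : Edg) (r : ℕ), 1 ≤ r → (r : ℤ) ≤ D.bd (src e) →
      P D.edges (fun F => Exc D F e r) ≤
        C * ((r : ℝ) ^ (-1 : ℝ) * ((D.bd (src e) : ℝ) + 1) ^ (-(1/4) : ℝ)) := by
  obtain ⟨C1, hC1, hC⟩ := Ar_prob hA hd
  refine ⟨100 * (1 + C1) * (1 + C2), by nlinarith, ?_⟩
  intro D hD e r hr hb
  obtain ⟨d, hdd⟩ : ∃ d : ℕ, (d : ℤ) = D.bd (src e) := ⟨(D.bd (src e)).toNat, by omega⟩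
  rw [← hdd, Int.cast_natCast]
  have hrd : r ≤ d := by omega
  have hr0 : (0:ℝ) < r := by exact_mod_cast hr
  have hd0 : (0:ℝ) < d := by
    have : 0 < d := by omega
    exact_mod_cast this
  have hrdR : (r : ℝ) ≤ d := by exact_mod_cast hrd
  have hr1 : (1:ℝ) ≤ r := by exact_mod_cast hr
  set y := ((d : ℝ) + 1) ^ (-(1/4) : ℝ) with hy
  have hy0 : 0 < y := by positivity
  have hyd : (d : ℝ) ^ (-(1/4) : ℝ) ≤ 2 * y := by
    have := two_inv (x := (d:ℝ)) (y := (d:ℝ) + 1) (M := 2) hd0 (by positivity) (by norm_num)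
      (by linarith)
    exact this
  have hCC : 0 ≤ C1 * C2 := by positivity
  have hCr : 0 ≤ C1 := by linarith
  have hm1 : (r:ℝ) ^ (-1 : ℝ) = (r:ℝ)⁻¹ := Real.rpow_neg_one _
  rw [hm1]
  rcases Nat.lt_or_ge r 8 with h8 | h8
  · have hri : (1:ℝ)/8 ≤ (r:ℝ)⁻¹ := by
      rw [one_div]
      apply inv_anti₀ hr0
      exact_mod_cast h8.le
    rcases Nat.lt_or_ge d 3 with h3 | h3
    · have h1 : P D.edges (fun F => Exc D F e r) ≤ 1 := Pr_le_one okh _ _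
      have h2 : 1 ≤ 3 * y := by
        have := two_inv (x := 1) (y := (d:ℝ) + 1) (M := 3) one_pos (by positivity) (by norm_num)
          (by
            have : (d:ℝ) ≤ 2 := by
              have : d ≤ 2 := by omega
              exact_mod_cast this
            linarith)
        rwa [Real.one_rpow] at this
      have h4 : y / 8 ≤ (r:ℝ)⁻¹ * y := by nlinarith
      have h5 : 100 * ((r:ℝ)⁻¹ * y) ≤ 100 * (1 + C1) * (1 + C2) * ((r:ℝ)⁻¹ * y) := by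
        apply mul_le_mul_of_nonneg_right _ (by positivity)
        nlinarith
      linarith
    · have h1 := e1_a hA2 hD (e := e) (r := r) (R := d) h3 (by omega)
      have h2 : ((2:ℝ)/d) ^ (1/4 : ℝ) ≤ 4 * y := by
        rw [Real.div_rpow (by norm_num) hd0.le, div_eq_mul_inv, ← Real.rpow_neg hd0.le]
        have h3 : (2:ℝ) ^ (1/4 : ℝ) ≤ 2 := by
          calc (2:ℝ) ^ (1/4 : ℝ) ≤ 2 ^ (1 : ℝ) :=
                Real.rpow_le_rpow_of_exponent_le (by norm_num) (by norm_num)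
            _ = 2 := Real.rpow_one 2
        have h4 : 0 ≤ (d : ℝ) ^ (-(1/4) : ℝ) := by positivity
        calc (2:ℝ) ^ (1/4 : ℝ) * (d:ℝ) ^ (-(1/4) : ℝ) ≤ 2 * (2 * y) :=
              mul_le_mul h3 hyd h4 (by norm_num)
          _ = 4 * y := by ring
      have h4 : y / 8 ≤ (r:ℝ)⁻¹ * y := by nlinarith
      have h5 : 100 * C2 * ((r:ℝ)⁻¹ * y) ≤ 100 * (1 + C1) * (1 + C2) * ((r:ℝ)⁻¹ * y) := by
        apply mul_le_mul_of_nonneg_right _ (by positivity)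
        nlinarith
      have h6 := mul_le_mul_of_nonneg_left h2 hC2.le
      have h7 := mul_le_mul_of_nonneg_left h4 (by positivity : 0 ≤ 100 * C2)
      have h8 : C2 * (4 * y) ≤ 100 * C2 * (y / 8) := by nlinarith [mul_pos hC2 hy0]
      linarith
  · have e54 : (r : ℝ) ^ (-(5/4) : ℝ) = (r:ℝ)⁻¹ * (r:ℝ) ^ (-(1/4) : ℝ) := by
      rw [← Real.rpow_neg_one, ← Real.rpow_add hr0]
      norm_num
    rcases Nat.lt_or_ge d (r + 2) with h3 | h3
    · have h1 : P D.edges (fun F => Exc D F e r) ≤ C1 * (r : ℝ) ^ (-(5/4) : ℝ) :=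
        (Pr_mono okh fun F hF h => exc_arms hD hF h8 hb h).trans
          (hC _ _ _ h8 (blk_edges hb))
      have h2 : (r:ℝ) ^ (-(1/4) : ℝ) ≤ 2 * y := by
        refine two_inv (x := (r:ℝ)) (y := (d:ℝ) + 1) (M := 2) hr0 (by positivity) (by norm_num) ?_
        have h4 : (d:ℝ) ≤ r + 1 := by
          have : d ≤ r + 1 := by omega
          exact_mod_cast this
        have h5 : (8:ℝ) ≤ r := by exact_mod_cast h8
        linarith
      rw [e54] at h1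
      have h6 : C1 * ((r:ℝ)⁻¹ * (r:ℝ) ^ (-(1/4) : ℝ)) ≤ C1 * ((r:ℝ)⁻¹ * (2 * y)) := by gcongr
      have h5 : 2 * C1 * ((r:ℝ)⁻¹ * y) ≤ 100 * (1 + C1) * (1 + C2) * ((r:ℝ)⁻¹ * y) := by
        apply mul_le_mul_of_nonneg_right _ (by positivity)
        nlinarith
      linarith
    · have h1 := e1_b hCr hC hA2 hD (e := e) (r := r) (R := d) h8 h3 (by omega)
      have h2 : (((r + 1 : ℕ) : ℝ) / d) ^ (1/4 : ℝ) ≤ 4 * ((r:ℝ) ^ (1/4 : ℝ) * y) := by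
        rw [Real.div_rpow (by positivity) hd0.le, div_eq_mul_inv, ← Real.rpow_neg hd0.le]
        have h3 : (((r + 1 : ℕ) : ℝ)) ^ (1/4 : ℝ) ≤ 2 * (r:ℝ) ^ (1/4 : ℝ) := by
          refine two_pow (by positivity) hr0.le (by norm_num) ?_
          push_cast
          linarith
        have h4 : 0 ≤ (d : ℝ) ^ (-(1/4) : ℝ) := by positivity
        calc (((r + 1 : ℕ) : ℝ)) ^ (1/4 : ℝ) * (d:ℝ) ^ (-(1/4) : ℝ)
            ≤ (2 * (r:ℝ) ^ (1/4 : ℝ)) * (2 * y) := mul_le_mul h3 hyd h4 (by positivity)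
          _ = 4 * ((r:ℝ) ^ (1/4 : ℝ) * y) := by ring
      rw [e54] at h1
      have h3 : (r:ℝ) ^ (-(1/4) : ℝ) * (r:ℝ) ^ (1/4 : ℝ) = 1 := by
        rw [← Real.rpow_add hr0]
        norm_num
      have h6 : (C1 * ((r:ℝ)⁻¹ * (r:ℝ) ^ (-(1/4) : ℝ))) *
          (C2 * (((r + 1 : ℕ) : ℝ) / d) ^ (1/4 : ℝ)) ≤
          (C1 * ((r:ℝ)⁻¹ * (r:ℝ) ^ (-(1/4) : ℝ))) * (C2 * (4 * ((r:ℝ) ^ (1/4 : ℝ) * y))) := by
        gcongr
      have h7 : (C1 * ((r:ℝ)⁻¹ * (r:ℝ) ^ (-(1/4) : ℝ))) * (C2 * (4 * ((r:ℝ) ^ (1/4 : ℝ) * y))) =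
          4 * (C1 * C2) * ((r:ℝ)⁻¹ * y) * ((r:ℝ) ^ (-(1/4) : ℝ) * (r:ℝ) ^ (1/4 : ℝ)) := by ring
      rw [h7, h3, mul_one] at h6
      have h5 : 4 * (C1 * C2) * ((r:ℝ)⁻¹ * y) ≤ 100 * (1 + C1) * (1 + C2) * ((r:ℝ)⁻¹ * y) := by
        apply mul_le_mul_of_nonneg_right _ (by positivity)
        nlinarith
      linarith

end Pool.Agent.Zk72.NS
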