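import Pool.Agent.Zk72.NS.Adv2

/-!
# Stability of the exploration path: the sharp version, statements of the parts

If for every modification on `U` all excursions at the edges of `U` are small, then the paths of
all modifications are close. No sum over the edges of `U` is needed: the states visited by the paths
of all modifications (`Stab`) are visited in the same order, and the pieces in between are small.
-/

set_option autoImplicit false

namespace Pool.Agent.Zk72.NS

open H974 Finset H342P H984P H984N H12S H389NS Pool.Agent.Zk36.TT Pool.Agent.W92.DP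

/-- all excursions at the edges of `U` are small, for all modifications -/
def Small (D : Dm) (U B : Finset Edg) (s : ℕ) : Prop :=
  ∀ F, Btw U B F → ∀ e ∈ U, e ∉ D.wir → ¬ Exc D F e s

/-- visited for all modifications -/
def Stab (D : Dm) (U B : Finset Edg) (σ : St) : Prop :=
  σ.1 ∈ D.clu (B \ U) ∧ face σ ∈ D.dclu (B ∪ U)

/-- the path visits `σ`, and then (or at the same time) `τ` -/
def Bef (D : Dm) (F : Finset Edg) (σ τ : St) : Prop :=
  ∃ i j, i ≤ j ∧ j ≤ D.len F ∧ D.walk F i = σ ∧ D.walk F j = τ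

/-- ORD: the order of two states does not change as long as both are visited. -/
def S_ORD : Prop := ∀ (D : Dm) (F F' : Finset Edg) (σ τ : St), D.Ok → F ⊆ D.edges →
  F' ⊆ D.edges → (∀ G, F ∩ F' ⊆ G → G ⊆ F ∪ F' → D.Vis G σ ∧ D.Vis G τ) →
  Bef D F σ τ → Bef D F' σ τ

/-- EXC: a state which is not visited any more after the change of `e` is in the excursion at
`e`. -/
def S_EXC : Prop := ∀ (D : Dm) (F : Finset Edg) (e : Edg) (t : ℕ), D.Ok → F ⊆ D.edges →
  e ∈ D.edges → e ∉ D.wir → t ≤ D.len F → ¬ D.Vis (flip e F) (D.walk F t) →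
  ∃ i l, i < t ∧ t ≤ l ∧ At D F e i ∧ At D F e l

/-- VIS: a stable state is visited by all paths; a state visited by the lowest and the highest path
is stable. -/
def S_VIS : Prop := ∀ (D : Dm) (U B : Finset Edg) (σ : St), D.Ok → U ⊆ D.edges → B ⊆ D.edges →
  (Stab D U B σ → ∀ F, Btw U B F → D.Vis F σ) ∧
  (D.Vis (B \ U) σ → D.Vis (B ∪ U) σ → Stab D U B σ)

/-- FST: after a stable state, the path examines an edge of `U`, or the next state is stable. -/
def S_FST : Prop := ∀ (D : Dm) (U B F : Finset Edg) (k : ℕ), D.Ok → U ⊆ D.edges → B ⊆ D.edges →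
  Btw U B F → k < D.len F → Stab D U B (D.walk F k) → ¬ Stab D U B (D.walk F (k + 1)) →
  ae (D.walk F k) ∈ U ∧ ae (D.walk F k) ∉ D.wir

/-- CLL: the lowest path (all edges of `U` closed). -/
def S_CLL : Prop := ∀ (D : Dm) (U B : Finset Edg) (s k t : ℕ), D.Ok → U ⊆ D.edges →
  B ⊆ D.edges → 2 ≤ s → Small D U B s → k < t → t ≤ D.len (B \ U) →
  Stab D U B (D.walk (B \ U) k) → (∀ j, k < j → j ≤ t → ¬ Stab D U B (D.walk (B \ U) j)) →
  sd (src (ae (D.walk (B \ U) k))) (D.walk (B \ U) t).1 ≤ s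

/-- CLH: the highest path (all edges of `U` open). -/
def S_CLH : Prop := ∀ (D : Dm) (U B : Finset Edg) (s k t : ℕ), D.Ok → U ⊆ D.edges →
  B ⊆ D.edges → 2 ≤ s → Small D U B s → k < t → t ≤ D.len (B ∪ U) →
  Stab D U B (D.walk (B ∪ U) k) → (∀ j, k < j → j ≤ t → ¬ Stab D U B (D.walk (B ∪ U) j)) →
  sd (src (ae (D.walk (B ∪ U) k))) (D.walk (B ∪ U) t).1 ≤ s

/-- CLF: an arbitrary modification. -/
def S_CLF : Prop := ∀ (D : Dm) (U B F : Finset Edg) (s k t : ℕ), D.Ok → U ⊆ D.edges →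
  B ⊆ D.edges → Btw U B F → 2 ≤ s → Small D U B s → k < t → t ≤ D.len F →
  Stab D U B (D.walk F k) → (∀ j, k < j → j ≤ t → ¬ Stab D U B (D.walk F j)) →
  sd (src (ae (D.walk F k))) (D.walk F t).1 ≤ 3 * s

/-- MATCH: two curves which pass through the same points in the same order. -/
def S_MATCH : Prop := ∀ (N N' : ℕ) (p p' : ℕ → ℂ) (x : ℝ) (R : ℕ → ℕ → Prop), 0 ≤ x →
  R 0 0 → R N N' → (∀ a b, R a b → a ≤ N ∧ b ≤ N') →
  (∀ a b a' b', R a b → R a' b' → (a < a' ↔ b < b')) →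
  (∀ a b, R a b → p a = p' b) →
  (∀ a b j, R a b → a ≤ j → j ≤ N → (∀ a' b', R a' b' → a' ≤ a ∨ j ≤ a') →
    dist (p j) (p a) ≤ x) →
  (∀ a b j, R a b → b ≤ j → j ≤ N' → (∀ a' b', R a' b' → b' ≤ b ∨ j ≤ b') →
    dist (p' j) (p' b) ≤ x) →
  H342L.cdist (pl N p) (pl N' p') ≤ 2 * x

/-- CLO: the paths of all modifications are close. -/
def S_CLO : Prop := ∃ K : ℝ, 0 < K ∧ ∀ (R : Rect) (δ : ℝ) (U B F : Finset Edg) (s : ℕ), 0 ≤ δ →
  (R.dm δ).Ok → U ⊆ (R.dm δ).edges → B ⊆ (R.dm δ).edges → Btw U B F → 2 ≤ s →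
  Small (R.dm δ) U B s → H342L.cdist (R.curve δ B) (R.curve δ F) ≤ K * (δ * s)

end Pool.Agent.Zk72.NS
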