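import Pool.Agent.Zk72.NS.Sum2

/-!
# Stability of the exploration path: the sharp bound for the worst modification
-/

set_option autoImplicit false

namespace Pool.Agent.Zk72.NS

open H974 Finset H342P H984P H984N H12S H389NS Pool.Agent.Zk36.TT Pool.Agent.W92.DP

theorem Q_false {ε : ℝ} {S : Finset Edg} {A : Finset Edg → Finset Edg → Prop}
    (h : ∀ U B, U ⊆ S → B ⊆ S → ¬ A U B) : Q ε S A = 0 := by
  have h1 : Q ε S A = Q ε S (fun _ _ => False) :=
    Q_congr fun U B hU hB => ⟨fun h' => h U B hU hB h', fun h' => h'.elim⟩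
  rw [h1]
  unfold Q P Pr
  simp only [ind_not_of (fun h : False => h)]
  rw [Ex_const, Ex_const]

theorem Q_small {ε : ℝ} (h0 : 0 ≤ ε) (h1 : ε ≤ 1) (D : Dm) (s : ℕ) :
    Q ε D.edges (fun U B => ¬ Small D U B s) ≤ ∑ e ∈ D.edges, ind (e ∉ D.wir) *
      Q ε D.edges (fun U B => e ∈ U ∧ Sw (fun F => Exc D F e s) U B) := by
  have g1 : Q ε D.edges (fun U B => ¬ Small D U B s) ≤
      Q ε D.edges (fun U B => ∃ e ∈ D.edges, e ∉ D.wir ∧
        (e ∈ U ∧ Sw (fun F => Exc D F e s) U B)) := by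
    refine Q_mono h0 h1 fun U B hU hB h => ?_
    unfold Small at h
    push Not at h
    obtain ⟨F, hF, e, he, hw, hx⟩ := h
    exact ⟨e, hU he, hw, he, F, hF, hx⟩
  refine (g1.trans (Q_ex_le h0 h1 D.edges D.edges _)).trans ?_
  apply Finset.sum_le_sum
  intro e _
  by_cases hw : e ∈ D.wir
  · rw [ind_not_of (by rw [not_not]; exact hw), zero_mul]
    exact (Q_false fun U B _ _ h => h.1 hw).le
  · rw [ind_of hw, one_mul]
    exact Q_mono h0 h1 fun U B _ _ h => h.2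

/-- **The sharp bound for the worst modification.** -/
theorem sharp (h4 : S_A4U) (h2 : S_A2U) (h1 : S_A1U) (hK : S_CLO) (R : Rect) :
    ∃ C δ0 : ℝ, 0 < C ∧ 0 < δ0 ∧ δ0 < 1 ∧ ∀ δ : ℝ, 0 < δ → δ ≤ δ0 → (R.dm δ).Ok ∧
      ∀ ε : ℝ, 0 ≤ ε → ε ≤ 1 → ∀ ρ : ℝ, 0 < ρ →
      Q ε (R.dm δ).edges (fun U B => ρ < worst R δ U B) ≤
        C * (ε * δ ^ (-(3/4) : ℝ)) / ρ := by
  obtain ⟨κ, S, δ0, hκ, hS, hδ0, hδ01, hsh⟩ := R.shape
  obtain ⟨C1, c1, hC1, hc1, hall⟩ := sum_s h4 h2 h1 hκ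
  obtain ⟨C2, c2, hC2, hc2, hexm⟩ := sum_m (κ := κ) h2
  obtain ⟨K0, hK0, hclo'⟩ := hK
  obtain ⟨K, hK, hKpos, hclo⟩ : ∃ K : ℝ, 4 ≤ K ∧ 0 < K ∧ ∀ (R : Rect) (δ : ℝ)
      (U B F : Finset Edg) (s : ℕ), 0 ≤ δ → (R.dm δ).Ok → U ⊆ (R.dm δ).edges →
      B ⊆ (R.dm δ).edges → Btw U B F → 2 ≤ s → Small (R.dm δ) U B s →
      H342L.cdist (R.curve δ B) (R.curve δ F) ≤ K * (δ * s) := by
    refine ⟨max K0 4, le_max_right _ _, lt_of_lt_of_le (by norm_num) (le_max_right K0 4), ?_⟩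
    intro R δ U B F s a1 a2 a3 a4 a5 a6 a7
    refine (hclo' R δ U B F s a1 a2 a3 a4 a5 a6 a7).trans ?_
    exact mul_le_mul_of_nonneg_right (le_max_left _ _) (by positivity)
  have hS74 : 0 < S ^ (7/4 : ℝ) := by positivity
  have hS34 : 0 < (2 * S) ^ (3/4 : ℝ) := by positivity
  have hc : 0 < min c1 c2 := lt_min hc1 hc2
  refine ⟨2 * K * (C1 + C2) * S ^ (7/4 : ℝ) + 8 * S / min c1 c2 * (2 * S) ^ (3/4 : ℝ),
    min δ0 (min S (1/2)), by positivity,
    lt_min hδ0 (lt_min hS (by norm_num)), ?_, ?_⟩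
  · refine lt_of_le_of_lt ((min_le_right _ _).trans (min_le_right _ _)) ?_
    norm_num
  intro δ hδ hδle
  have hshape := hsh δ hδ (hδle.trans (min_le_left _ _))
  have hδS : δ ≤ S := hδle.trans ((min_le_right _ _).trans (min_le_left _ _))
  have hD := hshape.ok
  refine ⟨hD, ?_⟩
  intro ε h0 h1' ρ hρ
  set n := S / δ with hn
  have hn1 : 1 ≤ n := by
    rw [hn, le_div_iff₀ hδ, one_mul]
    exact hδS
  have hn0 : 0 < n := by linarith
  obtain ⟨N, hNdef⟩ : ∃ N : ℕ, N = ⌈n⌉₊ := ⟨_, rfl⟩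
  have hnN : n ≤ N := hNdef ▸ Nat.le_ceil n
  have hN2 : (N:ℝ) ≤ 2 * n := by
    have := (Nat.ceil_lt_add_one hn0.le).le
    rw [hNdef]
    linarith
  have hNR : (1:ℝ) ≤ N := hn1.trans hnN
  have hN1 : 1 ≤ N := by exact_mod_cast hNR
  have hw1 : (R.dm δ).r - (R.dm δ).l ≤ N := by
    have := hshape.w_le.trans hnN
    exact_mod_cast this
  have hw2 : (R.dm δ).h ≤ N := by
    have := hshape.h_le.trans hnN
    exact_mod_cast this
  have hd34 : 0 < δ ^ (-(3/4) : ℝ) := by positivity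
  have hδN : δ * N ≤ 2 * S := by
    have : δ * N ≤ δ * (2 * n) := mul_le_mul_of_nonneg_left hN2 hδ.le
    have e : δ * (2 * n) = 2 * S := by
      rw [hn]
      field_simp
    linarith
  set X := ε * δ ^ (-(3/4) : ℝ) with hX
  have hX0 : 0 ≤ X := by positivity
  -- the worst distance is bounded
  have hwt : ∀ U B, U ⊆ (R.dm δ).edges → B ⊆ (R.dm δ).edges → worst R δ U B ≤ 4 * (δ * N) :=
    fun U B _ hB => worst_triv hδ.le hD hN1 hw1 hw2 hB
  have hRHS : 0 ≤ (2 * K * (C1 + C2) * S ^ (7/4 : ℝ) +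
      8 * S / min c1 c2 * (2 * S) ^ (3/4 : ℝ)) * X / ρ := by positivity
  rcases le_or_gt (4 * (δ * N)) ρ with hbigρ | hρ8
  · rw [Q_false fun U B hU hB h => absurd (hwt U B hU hB) (by linarith)]
    exact hRHS
  have hρS : ρ < 8 * S := by linarith
  have g5 : n ^ (7/4 : ℝ) * δ = S ^ (7/4 : ℝ) * δ ^ (-(3/4) : ℝ) := by
    rw [hn, Real.div_rpow hS.le hδ.le, div_eq_mul_inv, ← Real.rpow_neg hδ.le]
    have : δ ^ (-(3/4) : ℝ) = δ ^ (-(7/4 : ℝ)) * δ := by
      nth_rewrite 3 [← Real.rpow_one δ]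
      rw [← Real.rpow_add hδ]
      norm_num
    rw [this]
    ring
  rcases le_or_gt (ε * (N:ℝ) ^ (3/4 : ℝ)) (min c1 c2) with hsm | hbig
  · set A := ρ / (K * δ) with hA
    have hKδ : 0 < K * δ := by positivity
    obtain ⟨s, hs⟩ : ∃ s : ℕ, s = ⌊A⌋₊ := ⟨_, rfl⟩
    have hA0 : 0 < A := by positivity
    have hsA : (s:ℝ) ≤ A := hs ▸ Nat.floor_le hA0.le
    have hAs : A < s + 1 := hs ▸ Nat.lt_floor_add_one A
    have hAρ : A * (K * δ) = ρ := by
      rw [hA]
      field_simp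
    rcases Nat.lt_or_ge s 2 with h2s | h2s
    · -- very small distance
      have hA2 : A < 2 := by
        have : (s:ℝ) ≤ 1 := by
          have : s ≤ 1 := by omega
          exact_mod_cast this
        linarith
      have g1 : Q ε (R.dm δ).edges (fun U B => ρ < worst R δ U B) ≤
          ∑ e ∈ (R.dm δ).edges,
            Q ε (R.dm δ).edges (fun U B => e ∈ U ∧ Sw (fun F => Exm (R.dm δ) F e) U B) := by
        refine (Q_mono h0 h1' fun U B hU hB h => ?_).trans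
          (Q_ex_le h0 h1' (R.dm δ).edges (R.dm δ).edges _)
        by_contra hcon
        push Not at hcon
        have a1 := worst_le (R := R) hδ.le hD hw1 hw2 hU hB
        have a2 : ∑ e ∈ U, ind (e ∉ (R.dm δ).wir) *
            (δ * (5 * ind (Sw (fun F => Exm (R.dm δ) F e) U B) +
            4 * ∑ r ∈ Icc 1 N, ind (Sw (fun F => Exc (R.dm δ) F e r) U B))) = 0 := by
          apply Finset.sum_eq_zero
          intro e he
          have b1 := hcon e (hU he) he
          have b2 : ∀ r ∈ Icc 1 N, ind (Sw (fun F => Exc (R.dm δ) F e r) U B) = 0 := by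
            intro r _
            apply ind_not_of
            rintro ⟨F, hF, hE⟩
            exact b1 ⟨F, hF, Exc_Exm hE⟩
          rw [Finset.sum_eq_zero b2, ind_not_of b1]
          ring
        linarith
      have g2 := hexm (R.dm δ) n hshape hn1 ε N h0 h1' (hsm.trans (min_le_right _ _)) hnN
      refine (g1.trans g2).trans ?_
      rw [le_div_iff₀ hρ]
      have g3 : ρ ≤ 2 * K * δ := by
        rw [← hAρ]
        nlinarith
      have g4 : C2 * (ε * n ^ (7/4 : ℝ)) * ρ ≤ C2 * (ε * n ^ (7/4 : ℝ)) * (2 * K * δ) :=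
        mul_le_mul_of_nonneg_left g3 (by positivity)
      have g6 : C2 * (ε * n ^ (7/4 : ℝ)) * (2 * K * δ) = 2 * K * C2 * S ^ (7/4 : ℝ) * X := by
        have : C2 * (ε * n ^ (7/4 : ℝ)) * (2 * K * δ) =
            C2 * ε * (2 * K) * (n ^ (7/4 : ℝ) * δ) := by ring
        rw [this, g5, hX]
        ring
      have g7 : 0 ≤ (2 * K * C1 * S ^ (7/4 : ℝ) +
        8 * S / min c1 c2 * (2 * S) ^ (3/4 : ℝ)) * X := by positivity
      nlinarith
    · have hs1 : (2:ℝ) ≤ s := by exact_mod_cast h2s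
      have hs0 : (0:ℝ) < s := by linarith
      have hsN : s ≤ N := by
        by_contra hcon
        push Not at hcon
        have a1 : (N:ℝ) ≤ s := by exact_mod_cast hcon.le
        have a2 : (N:ℝ) * (K * δ) ≤ ρ := by
          rw [← hAρ]
          exact mul_le_mul_of_nonneg_right (a1.trans hsA) hKδ.le
        have a3 : 4 * (δ * N) ≤ (N:ℝ) * (K * δ) := by
          have : 0 ≤ δ * N := by positivity
          nlinarith
        linarith
      have g1 : Q ε (R.dm δ).edges (fun U B => ρ < worst R δ U B) ≤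
          Q ε (R.dm δ).edges (fun U B => ¬ Small (R.dm δ) U B s) := by
        refine Q_mono h0 h1' fun U B hU hB h hSm => ?_
        have a1 : worst R δ U B ≤ K * (δ * s) := by
          unfold worst
          refine csSup_le ⟨_, B, hB, rfl, rfl⟩ ?_
          rintro x ⟨F, hF, hFB, rfl⟩
          exact hclo R δ U B F s hδ.le hD hU hB (Btw_of hFB) h2s hSm
        have a2 : K * (δ * s) ≤ ρ := by
          have a3 : (s:ℝ) * (K * δ) ≤ A * (K * δ) := mul_le_mul_of_nonneg_right hsA hKδ.le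
          rw [hAρ] at a3
          refine le_trans (le_of_eq ?_) a3
          ring
        exact absurd h (not_lt.2 (a1.trans a2))
      have h1s : 1 ≤ s := by omega
      have g2 := hall (R.dm δ) n hshape hn1 ε N s h0 h1' (hsm.trans (min_le_left _ _)) hnN hN2
        h1s hsN
      refine ((g1.trans (Q_small h0 h1' (R.dm δ) s)).trans g2).trans ?_
      rw [le_div_iff₀ hρ]
      have g3 : ρ / s ≤ 2 * K * δ := by
        rw [div_le_iff₀ hs0, ← hAρ]
        have : A ≤ 2 * s := by linarith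
        have := mul_le_mul_of_nonneg_right this hKδ.le
        linarith
      have g4 : C1 * (ε * (n ^ (7/4 : ℝ) / s)) * ρ = C1 * (ε * n ^ (7/4 : ℝ)) * (ρ / s) := by
        ring
      have g4' : C1 * (ε * n ^ (7/4 : ℝ)) * (ρ / s) ≤ C1 * (ε * n ^ (7/4 : ℝ)) * (2 * K * δ) :=
        mul_le_mul_of_nonneg_left g3 (by positivity)
      have g6 : C1 * (ε * n ^ (7/4 : ℝ)) * (2 * K * δ) = 2 * K * C1 * S ^ (7/4 : ℝ) * X := by
        have : C1 * (ε * n ^ (7/4 : ℝ)) * (2 * K * δ) =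
            C1 * ε * (2 * K) * (n ^ (7/4 : ℝ) * δ) := by ring
        rw [this, g5, hX]
        ring
      have g7 : 0 ≤ (2 * K * C2 * S ^ (7/4 : ℝ) +
        8 * S / min c1 c2 * (2 * S) ^ (3/4 : ℝ)) * X := by positivity
      nlinarith
  · refine (Q_le_one h0 h1' _ _).trans ?_
    rw [le_div_iff₀ hρ, one_mul]
    have g2 : (N:ℝ) ^ (3/4 : ℝ) ≤ (2 * S) ^ (3/4 : ℝ) * δ ^ (-(3/4) : ℝ) := by
      have a1 : (N:ℝ) ≤ (2 * S) / δ := by
        refine hN2.trans (le_of_eq ?_)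
        rw [hn]
        ring
      refine (Real.rpow_le_rpow (by positivity) a1 (by norm_num)).trans (le_of_eq ?_)
      rw [Real.div_rpow (by positivity) hδ.le, div_eq_mul_inv, ← Real.rpow_neg hδ.le]
    have g3 : min c1 c2 ≤ (2 * S) ^ (3/4 : ℝ) * X := by
      calc min c1 c2 ≤ ε * (N:ℝ) ^ (3/4 : ℝ) := hbig.le
        _ ≤ ε * ((2 * S) ^ (3/4 : ℝ) * δ ^ (-(3/4) : ℝ)) := mul_le_mul_of_nonneg_left g2 h0
        _ = _ := by rw [hX]; ring
    have g4 : 8 * S ≤ 8 * S / min c1 c2 * (2 * S) ^ (3/4 : ℝ) * X := by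
      have a1 : 8 * S = 8 * S / min c1 c2 * min c1 c2 := by field_simp
      have a2 : 0 ≤ 8 * S / min c1 c2 := by positivity
      calc 8 * S = 8 * S / min c1 c2 * min c1 c2 := a1
        _ ≤ 8 * S / min c1 c2 * ((2 * S) ^ (3/4 : ℝ) * X) := mul_le_mul_of_nonneg_left g3 a2
        _ = _ := by ring
    have g5 : 0 ≤ 2 * K * (C1 + C2) * S ^ (7/4 : ℝ) * X := by positivity
    nlinarith

end Pool.Agent.Zk72.NS
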