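import Pool.Agent.Zk36.TT.Exc
import Pool.Agent.H342R3.Lim.Curve

/-!
# Stability of the exploration path under noise: statements of the parts
-/

set_option autoImplicit false

namespace Pool.Agent.Zk72.NS

open H974 Finset H342P H984P H984N Pool.Agent.Zk36.TT

/-- The configuration after the noise: the coins of the edges of `U` are replaced by those of `C`. -/
def mixN (U B C : Finset Edg) : Finset Edg := (B \ U) ∪ (C ∩ U)

/-- CUT: the curve of a path, and the curve of the path without the piece between the times `i` and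
`l`. -/
def S_CUT : Prop := ∀ (N N' i l : ℕ) (p p' : ℕ → ℂ) (x : ℝ), i < l → l < N → N' = i + (N - l) →
  (∀ j ≤ i, p' j = p j) → (∀ m, 1 ≤ m → l + m ≤ N → p' (i + m) = p (l + m)) →
  (∀ j, i ≤ j → j ≤ l → dist (p j) (p i) ≤ x) →
  H342L.cdist (pl N p) (pl N' p') ≤ x

/-- RES: the edges are resampled one after the other. -/
def S_RES : Prop := ∀ (S : Finset Edg) (ε : ℝ) (d : Finset Edg → Finset Edg → ℝ), 0 ≤ ε → ε ≤ 1 →
  (∀ F, d F F = 0) → (∀ F G H, d F H ≤ d F G + d G H) →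
  Ex (fun _ => ε) S (fun U => E S (fun B => E S (fun C => d B (mixN U B C)))) ≤
    ε / 2 * ∑ e ∈ S, E S (fun F => d F (flip e F))

/-- The point `v` is at distance at most `k` from one side of the rectangle `[a, b] × [c, d]` and at
distance at least `R` from the three other sides. -/
def Side (a b c d : ℤ) (v : Vtx) (k R : ℕ) : Prop :=
  (v.1 - a ≤ k ∧ R ≤ b - v.1 ∧ R ≤ v.2 - c ∧ R ≤ d - v.2) ∨
  (b - v.1 ≤ k ∧ R ≤ v.1 - a ∧ R ≤ v.2 - c ∧ R ≤ d - v.2) ∨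
  (v.2 - c ≤ k ∧ R ≤ v.1 - a ∧ R ≤ b - v.1 ∧ R ≤ d - v.2) ∨
  (d - v.2 ≤ k ∧ R ≤ v.1 - a ∧ R ≤ b - v.1 ∧ R ≤ v.2 - c)

/-- SIDE: one arm near a side of a rectangle. -/
def S_SIDE : Prop := ∃ C : ℝ, 1 ≤ C ∧ ∀ (a b c d : ℤ) (v : Vtx) (k R : ℕ), 1 ≤ k → k ≤ R →
  inR a b c d v → Side a b c d v k R →
  P (RE a b c d) (fun F => H12S.Crs v.1 v.2 k R (↑F : Set Edg)) ≤ C * ((k : ℝ) / R) ^ (1 / 3 : ℝ) ∧
  P (RE a b c d) (fun F => H12S.DCrs v.1 v.2 k R (↑(RE a b c d \ F) : Set Edg)) ≤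
    C * ((k : ℝ) / R) ^ (1 / 3 : ℝ)

/-- The second smallest of the distances of `v` to the four sides. -/
def sec (D : Dm) (v : Vtx) : ℤ :=
  min (min (max (v.1 - D.l) (D.r - v.1)) (max v.2 (D.h - v.2)))
    (min (min (max (v.1 - D.l) v.2) (max (v.1 - D.l) (D.h - v.2)))
      (min (max (D.r - v.1) v.2) (max (D.r - v.1) (D.h - v.2))))

/-- SUM: sum over the vertices of a rectangle. -/
def S_SUM : Prop := ∀ κ : ℝ, 0 < κ → ∃ C : ℝ, 0 < C ∧ ∀ (D : Dm) (n : ℝ), D.Shape κ n → 1 ≤ n →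
  ∑ v ∈ Icc D.l D.r ×ˢ Icc 0 D.h,
    ((D.bd v : ℝ) + 1) ^ (-(11/12) : ℝ) * ((sec D v : ℝ) + 1) ^ (-(1/3) : ℝ) ≤
      C * n ^ (3/4 : ℝ)

end Pool.Agent.Zk72.NS
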