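import Pool.Agent.Zk72.NS.Shp

/-!
# Stability of the exploration path, sharp version: the expected number of large excursions
-/

set_option autoImplicit false

namespace Pool.Agent.Zk72.NS

open H974 Finset H342P H984P H984N H12S H389NS Pool.Agent.Zk36.TT Pool.Agent.W92.DP

/-- the function `ph` near the boundary -/
noncomputable def pk (b : ℝ) (s : ℕ) (x : ℤ) : ℝ := if x ≤ s then ph 1 b x else 0

theorem pk_nonneg (b : ℝ) (s : ℕ) (x : ℤ) : 0 ≤ pk b s x := by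
  unfold pk
  split_ifs
  · exact ph_nonneg zero_le_one _
  · exact le_rfl

theorem pk_line {b : ℝ} (hb0 : 0 ≤ b) (hb1 : b < 1) {s : ℕ} (hs : 1 ≤ s) (N : ℕ) :
    ∑ x ∈ Finset.Icc (0:ℤ) N, pk b s x ≤ (1 + 1 / (1 - b)) * (s : ℝ) ^ (1 - b) := by
  have h1 := suma_line (C := 1) zero_le_one hb0 hb1 s (n := (s:ℝ)) (by exact_mod_cast hs) le_rfl
  refine le_trans ?_ h1
  have h2 : ∑ x ∈ Finset.Icc (0:ℤ) N, pk b s x =
      ∑ x ∈ (Finset.Icc (0:ℤ) N).filter (fun x => x ≤ (s:ℤ)), ph 1 b x := by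
    unfold pk
    rw [Finset.sum_filter]
  rw [h2]
  apply Finset.sum_le_sum_of_subset_of_nonneg
  · intro x hx
    rw [Finset.mem_filter, Finset.mem_Icc] at hx
    rw [Finset.mem_Icc]
    exact ⟨hx.1.1, hx.2⟩
  · intro x _ _
    exact ph_nonneg zero_le_one _

theorem pk_min (b : ℝ) (s : ℕ) (D : Dm) (u : Vtx) :
    pk b s (D.bd u) ≤ pk b s (u.1 - D.l) + pk b s (D.r - u.1) +
      (pk b s (u.2 - 0) + pk b s (D.h - u.2)) := by
  have h2 := pk_nonneg b s (u.1 - D.l)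
  have h3 := pk_nonneg b s (D.r - u.1)
  have h4 := pk_nonneg b s (u.2 - 0)
  have h5 := pk_nonneg b s (D.h - u.2)
  rw [sub_zero] at *
  unfold Dm.bd
  rcases min_choice (min (u.1 - D.l) (D.r - u.1)) (min u.2 (D.h - u.2)) with h | h
  · rw [h]
    rcases min_choice (u.1 - D.l) (D.r - u.1) with h' | h' <;> rw [h'] <;> linarith
  · rw [h]
    rcases min_choice u.2 (D.h - u.2) with h' | h' <;> rw [h'] <;> linarith

theorem pk_bd {b : ℝ} (hb0 : 0 ≤ b) (hb1 : b < 1) {s : ℕ} (hs : 1 ≤ s) (D : Dm) (n : ℝ)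
    (hD : D.Ok) (hn : 1 ≤ n) (h1 : ((D.r - D.l : ℤ) : ℝ) ≤ n) (h2 : (D.h : ℝ) ≤ n) :
    ∑ v ∈ Finset.Icc D.l D.r ×ˢ Finset.Icc 0 D.h, pk b s (D.bd v) ≤
      8 * (1 + 1 / (1 - b)) * (n * (s : ℝ) ^ (1 - b)) := by
  have hb2 : 0 < 1 - b := by linarith
  obtain ⟨hl, hr, hh, -, -⟩ := hD
  obtain ⟨N, hN⟩ := Int.eq_ofNat_of_zero_le (show 0 ≤ D.r - D.l by omega)
  obtain ⟨M, hM⟩ := Int.eq_ofNat_of_zero_le (show 0 ≤ D.h - 0 by omega)
  have hNn : (N : ℝ) ≤ n := by rw [hN] at h1; exact_mod_cast h1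
  have hMn : (M : ℝ) ≤ n := by
    have : (D.h : ℝ) = M := by
      have : D.h = M := by omega
      rw [this]; simp
    rw [← this]; exact h2
  set S : ℝ := (1 + 1 / (1 - b)) * (s : ℝ) ^ (1 - b) with hS
  have hS0 : 0 ≤ S := by positivity
  have l1 := pk_line hb0 hb1 hs N
  have l2 := pk_line hb0 hb1 hs M
  have c1 : ((Finset.Icc D.l D.r).card : ℝ) ≤ 2 * n := by
    rw [Int.card_Icc]
    have : (D.r + 1 - D.l).toNat = N + 1 := by omega
    rw [this]; push_cast; linarith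
  have c2 : ((Finset.Icc 0 D.h).card : ℝ) ≤ 2 * n := by
    rw [Int.card_Icc]
    have : (D.h + 1 - 0).toNat = M + 1 := by omega
    rw [this]; push_cast; linarith
  have hsum : ∑ v ∈ Finset.Icc D.l D.r ×ˢ Finset.Icc 0 D.h, pk b s (D.bd v) ≤
      ∑ v ∈ Finset.Icc D.l D.r ×ˢ Finset.Icc 0 D.h,
        (pk b s (v.1 - D.l) + pk b s (D.r - v.1) + (pk b s (v.2 - 0) + pk b s (D.h - v.2))) :=
    Finset.sum_le_sum fun v _ => pk_min b s D v
  refine hsum.trans ?_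
  rw [Finset.sum_product]
  simp only [Finset.sum_add_distrib, Finset.sum_const, nsmul_eq_mul, ← Finset.mul_sum]
  rw [suma_shift (pk b s) D.l D.r N hN, suma_refl (pk b s) D.l D.r N hN,
    suma_shift (pk b s) 0 D.h M hM, suma_refl (pk b s) 0 D.h M hM]
  set s1 := ∑ x ∈ Finset.Icc (0:ℤ) N, pk b s x with hs1
  set s2 := ∑ x ∈ Finset.Icc (0:ℤ) M, pk b s x with hs2
  have p1 : 0 ≤ s1 := Finset.sum_nonneg fun _ _ => pk_nonneg _ _ _
  have p2 : 0 ≤ s2 := Finset.sum_nonneg fun _ _ => pk_nonneg _ _ _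
  have m1 : ((Finset.Icc 0 D.h).card : ℝ) * s1 ≤ 2 * n * S :=
    mul_le_mul c2 l1 p1 (by linarith)
  have m2 : ((Finset.Icc D.l D.r).card : ℝ) * s2 ≤ 2 * n * S :=
    mul_le_mul c1 l2 p2 (by linarith)
  have e : 8 * (1 + 1 / (1 - b)) * (n * (s : ℝ) ^ (1 - b)) = 4 * (2 * n * S) := by
    rw [hS]
    ring
  rw [e]
  linarith

/-- one edge, one size -/
theorem per_s (h4 : S_A4U) (h2 : S_A2U) (h1 : S_A1U) : ∃ C c : ℝ, 1 ≤ C ∧ 0 < c ∧
    ∀ (D : Dm), D.Ok → ∀ (ε : ℝ) (N s : ℕ), 0 ≤ ε → ε ≤ 1 → ε * (N : ℝ) ^ (3/4 : ℝ) ≤ c →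
    D.r - D.l ≤ N → D.h ≤ N → 1 ≤ s → ∀ e ∈ D.edges, e ∉ D.wir →
    Q ε D.edges (fun U B => e ∈ U ∧ Sw (fun F => Exc D F e s) U B) ≤
    ε * (C * ((s : ℝ) ^ (-1 : ℝ) * ((D.bd (src e) : ℝ) + 1) ^ (-(1/4) : ℝ) +
      (s : ℝ) ^ (-(1/3) : ℝ) * pk (11/12) s (D.bd (src e)) +
        ((D.bd (src e) : ℝ) + 1) ^ (-(11/12) : ℝ) *
        ((sec D (src e) : ℝ) + 1) ^ (-(1/3) : ℝ))) := by
  obtain ⟨C1, c1, hC1, hc1, hA⟩ := e1U h4 h2
  obtain ⟨C2, c2, hC2, hc2, hB⟩ := e2U h4 h1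
  refine ⟨C1 + C2, min c1 c2, by linarith, lt_min hc1 hc2, ?_⟩
  intro D hD ε N s h0 h1 hN hw1 hw2 hs e he hw
  have hN1 := hN.trans (min_le_left _ _)
  have hN2 := hN.trans (min_le_right _ _)
  have hv := src_in he
  obtain ⟨hb0, hbs⟩ := bd_sec hv
  have hv' := hv
  unfold inR at hv'
  have hsN : sec D (src e) ≤ N := by
    have : sec D (src e) ≤ max ((src e).1 - D.l) (D.r - (src e).1) := by
      unfold sec
      exact (min_le_left _ _).trans (min_le_left _ _)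
    refine this.trans (max_le ?_ ?_) <;> omega
  have hbN : D.bd (src e) ≤ N := hbs.trans hsN
  have hs0 : (0:ℝ) < s := by exact_mod_cast hs
  obtain ⟨d, hdd⟩ : ∃ d : ℕ, (d : ℤ) = D.bd (src e) := ⟨(D.bd (src e)).toNat, by omega⟩
  obtain ⟨t, htt⟩ : ∃ t : ℕ, (t : ℤ) = sec D (src e) := ⟨(sec D (src e)).toNat, by omega⟩
  have a1 := pk_nonneg (11/12) s (D.bd (src e))
  rcases le_total (s : ℤ) (D.bd (src e)) with h | h
  · refine (hA D hD ε e s N h0 h1 he hN1 hbN hs h).trans ?_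
    apply mul_le_mul_of_nonneg_left _ h0
    rw [← hdd, ← htt, Int.cast_natCast, Int.cast_natCast]
    rw [← hdd] at a1
    set y := ((d : ℝ) + 1) ^ (-(1/4) : ℝ) with hy
    set x := ((d : ℝ) + 1) ^ (-(11/12) : ℝ) with hx
    set z := ((t : ℝ) + 1) ^ (-(1/3) : ℝ) with hz
    have hy0 : 0 < y := by positivity
    have hx0 : 0 < x := by positivity
    have hz0 : 0 < z := by positivity
    have b1 : 0 ≤ (s : ℝ) ^ (-1 : ℝ) * y := by positivity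
    have b2 : 0 ≤ (s : ℝ) ^ (-(1/3) : ℝ) * pk (11/12) s (d:ℤ) := by positivity
    have b3 : 0 ≤ x * z := by positivity
    nlinarith
  · refine (hB D hD ε e s N h0 h1 he hw hN2 hsN hs h).trans ?_
    apply mul_le_mul_of_nonneg_left _ h0
    have hmm : min (s : ℤ) (sec D (src e)) = ((min s t : ℕ) : ℤ) := by
      rw [← htt]
      push_cast
      rfl
    have hpk : ((d : ℝ) + 1) ^ (-(11/12) : ℝ) ≤ pk (11/12) s (D.bd (src e)) := by
      unfold pk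
      rw [if_pos h]
      have hv2 : src e ∈ Finset.Icc D.l D.r ×ˢ Finset.Icc 0 D.h := by
        rw [Finset.mem_product, Finset.mem_Icc, Finset.mem_Icc]
        exact hv
      have := sumb_ph (b := 11/12) (by norm_num) hv2
      rw [← hdd, Int.cast_natCast] at this
      rw [← hdd]
      exact this
    rw [← hdd] at hpk a1 ⊢
    rw [hmm, ← htt, Int.cast_natCast, Int.cast_natCast, Int.cast_natCast]
    have hmin : (((min s t : ℕ) : ℝ) + 1) ^ (-(1/3) : ℝ) ≤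
        (s : ℝ) ^ (-(1/3) : ℝ) + ((t : ℝ) + 1) ^ (-(1/3) : ℝ) := by
      have q1 : 0 ≤ (s : ℝ) ^ (-(1/3) : ℝ) := by positivity
      have q2 : 0 ≤ ((t : ℝ) + 1) ^ (-(1/3) : ℝ) := by positivity
      rcases le_total s t with h' | h'
      · rw [min_eq_left h']
        have : ((s:ℝ) + 1) ^ (-(1/3) : ℝ) ≤ (s:ℝ) ^ (-(1/3) : ℝ) :=
          Real.rpow_le_rpow_of_nonpos hs0 (by linarith) (by norm_num)
        linarith
      · rw [min_eq_right h']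
        linarith
    set y := ((d : ℝ) + 1) ^ (-(1/4) : ℝ) with hy
    set x := ((d : ℝ) + 1) ^ (-(11/12) : ℝ) with hx
    set z := ((t : ℝ) + 1) ^ (-(1/3) : ℝ) with hz
    have hy0 : 0 < y := by positivity
    have hx0 : 0 < x := by positivity
    have hz0 : 0 < z := by positivity
    have hsp : 0 < (s : ℝ) ^ (-(1/3) : ℝ) := by positivity
    have b1 : 0 ≤ (s : ℝ) ^ (-1 : ℝ) * y := by positivity
    have b2 : 0 ≤ (s : ℝ) ^ (-(1/3) : ℝ) * pk (11/12) s (d:ℤ) := by positivity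
    have b3 : 0 ≤ x * z := by positivity
    have b4 := mul_le_mul_of_nonneg_left hmin hx0.le
    have b5 := mul_le_mul_of_nonneg_left hpk hsp.le
    have b6 : x * (((min s t : ℕ) : ℝ) + 1) ^ (-(1/3) : ℝ) ≤
        (s : ℝ) ^ (-(1/3) : ℝ) * pk (11/12) s (d:ℤ) + x * z := by linarith
    have b7 := mul_le_mul_of_nonneg_left b6 (by linarith : 0 ≤ C2)
    nlinarith

/-- the sum over all edges, one size -/
theorem sum_s (h4 : S_A4U) (h2 : S_A2U) (h1 : S_A1U) {κ : ℝ} (hκ : 0 < κ) :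
    ∃ C c : ℝ, 0 < C ∧ 0 < c ∧ ∀ (D : Dm) (n : ℝ), D.Shape κ n → 1 ≤ n →
    ∀ (ε : ℝ) (N s : ℕ), 0 ≤ ε → ε ≤ 1 → ε * (N : ℝ) ^ (3/4 : ℝ) ≤ c → n ≤ N → (N : ℝ) ≤ 2 * n →
    1 ≤ s → s ≤ N →
    ∑ e ∈ D.edges, ind (e ∉ D.wir) *
      Q ε D.edges (fun U B => e ∈ U ∧ Sw (fun F => Exc D F e s) U B) ≤
    C * (ε * (n ^ (7/4 : ℝ) / s)) := by
  obtain ⟨C1, c, hC1, hc, hP⟩ := per_s h4 h2 h1
  obtain ⟨CS, hCS, hS⟩ := Pool.Agent.Zk96.NS.t_SUM κ hκ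
  refine ⟨2 * C1 * (8 * (1 + 1 / (1 - 1/4)) + 2 * (8 * (1 + 1 / (1 - 11/12))) + 2 * CS), c,
    by positivity, hc, ?_⟩
  intro D n hSh hn ε N s h0 h1' hN hnN hN2 hs hsN
  have hD := hSh.ok
  have hw1 : D.r - D.l ≤ N := by
    have := hSh.w_le.trans hnN
    exact_mod_cast this
  have hw2 : D.h ≤ N := by
    have := hSh.h_le.trans hnN
    exact_mod_cast this
  have hNR : (1:ℝ) ≤ N := hn.trans hnN
  have hn0 : 0 < n := by linarith
  have hs0 : (0:ℝ) < s := by exact_mod_cast hs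
  have hs1 : (1:ℝ) ≤ s := by exact_mod_cast hs
  have hsn : (s:ℝ) ≤ 2 * n := by
    have : (s:ℝ) ≤ N := by exact_mod_cast hsN
    linarith
  set G : Vtx → ℝ := fun v => |(s : ℝ) ^ (-1 : ℝ) * ((D.bd v : ℝ) + 1) ^ (-(1/4) : ℝ) +
      (s : ℝ) ^ (-(1/3) : ℝ) * pk (11/12) s (D.bd v) +
      ((D.bd v : ℝ) + 1) ^ (-(11/12) : ℝ) * ((sec D v : ℝ) + 1) ^ (-(1/3) : ℝ)| with hG
  have g1 : ∀ e ∈ D.edges, ind (e ∉ D.wir) *
      Q ε D.edges (fun U B => e ∈ U ∧ Sw (fun F => Exc D F e s) U B) ≤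
      ε * C1 * G (src e) := by
    intro e he
    have hGn : 0 ≤ G (src e) := abs_nonneg _
    by_cases hw : e ∈ D.wir
    · rw [ind_not_of (by rw [not_not]; exact hw), zero_mul]
      positivity
    · rw [ind_of hw, one_mul]
      refine (hP D hD ε N s h0 h1' hN hw1 hw2 hs e he hw).trans ?_
      rw [mul_assoc]
      apply mul_le_mul_of_nonneg_left _ h0
      exact mul_le_mul_of_nonneg_left (le_abs_self _) (by linarith)
  refine (Finset.sum_le_sum g1).trans ?_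
  rw [← Finset.mul_sum]
  have g2 := sum_edges D G (fun v => abs_nonneg _)
  have g3 : ∑ v ∈ Finset.Icc D.l D.r ×ˢ Finset.Icc 0 D.h, G v =
      (s : ℝ) ^ (-1 : ℝ) * ∑ v ∈ Finset.Icc D.l D.r ×ˢ Finset.Icc 0 D.h,
        ((D.bd v : ℝ) + 1) ^ (-(1/4) : ℝ) +
      (s : ℝ) ^ (-(1/3) : ℝ) * ∑ v ∈ Finset.Icc D.l D.r ×ˢ Finset.Icc 0 D.h,
        pk (11/12) s (D.bd v) +
      ∑ v ∈ Finset.Icc D.l D.r ×ˢ Finset.Icc 0 D.h,
        (((D.bd v : ℝ) + 1) ^ (-(11/12) : ℝ) * ((sec D v : ℝ) + 1) ^ (-(1/3) : ℝ)) := by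
    rw [Finset.mul_sum, Finset.mul_sum, ← Finset.sum_add_distrib, ← Finset.sum_add_distrib]
    apply Finset.sum_congr rfl
    intro v hv
    have hb0 := sumb_bd0 hv
    have hv' : inR D.l D.r 0 D.h v := by
      rw [Finset.mem_product, Finset.mem_Icc, Finset.mem_Icc] at hv
      exact hv
    have hs0 : 0 ≤ sec D v := (bd_sec hv').1.trans (bd_sec hv').2
    have hb0' : (0:ℝ) ≤ D.bd v := by exact_mod_cast hb0
    have hs0' : (0:ℝ) ≤ sec D v := by exact_mod_cast hs0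
    have hpk := pk_nonneg (11/12) s (D.bd v)
    rw [hG]
    apply abs_of_nonneg
    positivity
  have g4 : ∑ v ∈ Finset.Icc D.l D.r ×ˢ Finset.Icc 0 D.h, ((D.bd v : ℝ) + 1) ^ (-(1/4) : ℝ) ≤
      8 * (1 + 1 / (1 - 1/4)) * n ^ (7/4 : ℝ) := by
    have a1 := suma_bd (C := 1) (b := 1/4) zero_le_one (by norm_num) (by norm_num) D n hD hn
      hSh.w_le hSh.h_le
    have a2 : (2:ℝ) - 1/4 = 7/4 := by norm_num
    rw [a2] at a1
    refine (Finset.sum_le_sum fun v hv => ?_).trans a1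
    exact sumb_ph (by norm_num) hv
  have g5 := hS D n hSh hn
  have g6 := pk_bd (b := 11/12) (by norm_num) (by norm_num) hs D n hD hn hSh.w_le hSh.h_le
  have hsi : (s:ℝ) ^ (-1 : ℝ) = 1 / s := by rw [Real.rpow_neg_one, one_div]
  -- powers
  have e1 : (s : ℝ) ^ (-(1/3) : ℝ) * (n * (s : ℝ) ^ (1 - 11/12 : ℝ)) ≤
      2 * (n ^ (7/4 : ℝ) / s) := by
    have a1 : (s : ℝ) ^ (-(1/3) : ℝ) * (n * (s : ℝ) ^ (1 - 11/12 : ℝ)) =
        n * ((s:ℝ) ^ (3/4 : ℝ) / s) := by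
      have b1 : (s:ℝ) ^ (3/4 : ℝ) / s = (s : ℝ) ^ (-(1/3) : ℝ) * (s : ℝ) ^ (1 - 11/12 : ℝ) := by
        rw [← Real.rpow_add hs0, div_eq_mul_inv, ← Real.rpow_neg_one, ← Real.rpow_add hs0]
        norm_num
      rw [b1]
      ring
    have a2 : (s:ℝ) ^ (3/4 : ℝ) ≤ 2 * n ^ (3/4 : ℝ) := by
      calc (s:ℝ) ^ (3/4 : ℝ) ≤ (2 * n) ^ (3/4 : ℝ) :=
            Real.rpow_le_rpow hs0.le hsn (by norm_num)
        _ = 2 ^ (3/4 : ℝ) * n ^ (3/4 : ℝ) := Real.mul_rpow (by norm_num) hn0.le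
        _ ≤ 2 * n ^ (3/4 : ℝ) := by
            apply mul_le_mul_of_nonneg_right _ (by positivity)
            calc (2:ℝ) ^ (3/4 : ℝ) ≤ 2 ^ (1:ℝ) :=
                  Real.rpow_le_rpow_of_exponent_le (by norm_num) (by norm_num)
              _ = 2 := Real.rpow_one 2
    have a3 : n ^ (7/4 : ℝ) = n * n ^ (3/4 : ℝ) := by
      nth_rewrite 2 [← Real.rpow_one n]
      rw [← Real.rpow_add hn0]
      norm_num
    rw [a1, a3]
    have a4 : n * ((s:ℝ) ^ (3/4 : ℝ) / s) ≤ n * ((2 * n ^ (3/4 : ℝ)) / s) := by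
      apply mul_le_mul_of_nonneg_left _ hn0.le
      exact div_le_div_of_nonneg_right a2 hs0.le
    refine a4.trans (le_of_eq ?_)
    ring
  have e2 : n ^ (3/4 : ℝ) ≤ 2 * (n ^ (7/4 : ℝ) / s) := by
    have a3 : n ^ (7/4 : ℝ) = n * n ^ (3/4 : ℝ) := by
      nth_rewrite 2 [← Real.rpow_one n]
      rw [← Real.rpow_add hn0]
      norm_num
    rw [a3, mul_div_assoc', le_div_iff₀ hs0]
    have : 0 ≤ n ^ (3/4 : ℝ) := by positivity
    nlinarith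
  have hX0 : 0 ≤ n ^ (7/4 : ℝ) / s := by positivity
  have hsp : 0 < (s : ℝ) ^ (-(1/3) : ℝ) := by positivity
  have f1 : (s : ℝ) ^ (-1 : ℝ) * ∑ v ∈ Finset.Icc D.l D.r ×ˢ Finset.Icc 0 D.h,
        ((D.bd v : ℝ) + 1) ^ (-(1/4) : ℝ) ≤
      8 * (1 + 1 / (1 - 1/4)) * (n ^ (7/4 : ℝ) / s) := by
    rw [hsi]
    refine (mul_le_mul_of_nonneg_left g4 (by positivity)).trans (le_of_eq ?_)
    ring
  have f2 : (s : ℝ) ^ (-(1/3) : ℝ) * ∑ v ∈ Finset.Icc D.l D.r ×ˢ Finset.Icc 0 D.h,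
        pk (11/12) s (D.bd v) ≤ 8 * (1 + 1 / (1 - 11/12)) * (2 * (n ^ (7/4 : ℝ) / s)) := by
    refine (mul_le_mul_of_nonneg_left g6 hsp.le).trans ?_
    have a1 := mul_le_mul_of_nonneg_left e1 (by norm_num : (0:ℝ) ≤ 8 * (1 + 1 / (1 - 11/12)))
    refine le_trans (le_of_eq ?_) a1
    ring
  have f3 : ∑ v ∈ Finset.Icc D.l D.r ×ˢ Finset.Icc 0 D.h,
        (((D.bd v : ℝ) + 1) ^ (-(11/12) : ℝ) * ((sec D v : ℝ) + 1) ^ (-(1/3) : ℝ)) ≤
      CS * (2 * (n ^ (7/4 : ℝ) / s)) :=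
    g5.trans (mul_le_mul_of_nonneg_left e2 hCS.le)
  have g8 : ε * C1 * ∑ e ∈ D.edges, G (src e) ≤ ε * C1 * (2 *
      ((8 * (1 + 1 / (1 - 1/4)) + 2 * (8 * (1 + 1 / (1 - 11/12))) + 2 * CS) *
        (n ^ (7/4 : ℝ) / s))) := by
    apply mul_le_mul_of_nonneg_left _ (by positivity)
    rw [g3] at g2
    linarith
  refine g8.trans (le_of_eq ?_)
  ring

/-- the sum over all edges of the probability that the edge is examined -/
theorem sum_m (h2 : S_A2U) {κ : ℝ} :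
    ∃ C c : ℝ, 0 < C ∧ 0 < c ∧ ∀ (D : Dm) (n : ℝ), D.Shape κ n → 1 ≤ n →
    ∀ (ε : ℝ) (N : ℕ), 0 ≤ ε → ε ≤ 1 → ε * (N : ℝ) ^ (3/4 : ℝ) ≤ c → n ≤ N →
    ∑ e ∈ D.edges, Q ε D.edges (fun U B => e ∈ U ∧ Sw (fun F => Exm D F e) U B) ≤
    C * (ε * n ^ (7/4 : ℝ)) := by
  obtain ⟨C1, c, hC1, hc, hP⟩ := emU h2
  refine ⟨2 * C1 * (8 * (1 + 1 / (1 - 1/4))), c, by positivity, hc, ?_⟩
  intro D n hSh hn ε N h0 h1' hN hnN
  have hD := hSh.ok
  set G : Vtx → ℝ := fun v => |((D.bd v : ℝ) + 1) ^ (-(1/4) : ℝ)| with hG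
  have g1 : ∀ e ∈ D.edges,
      Q ε D.edges (fun U B => e ∈ U ∧ Sw (fun F => Exm D F e) U B) ≤ ε * C1 * G (src e) := by
    intro e he
    have hv := src_in he
    have hb : D.bd (src e) ≤ N := by
      have a1 : D.bd (src e) ≤ D.h := by
        unfold inR at hv
        unfold Dm.bd
        omega
      have a2 : D.h ≤ (N:ℤ) := by
        have := hSh.h_le.trans hnN
        exact_mod_cast this
      omega
    refine (hP D hD ε e N h0 h1' he hN hb).trans ?_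
    rw [mul_assoc]
    apply mul_le_mul_of_nonneg_left _ h0
    exact mul_le_mul_of_nonneg_left (le_abs_self _) (by linarith)
  refine (Finset.sum_le_sum g1).trans ?_
  rw [← Finset.mul_sum]
  have g2 := sum_edges D G (fun v => abs_nonneg _)
  have g4 : ∑ v ∈ Finset.Icc D.l D.r ×ˢ Finset.Icc 0 D.h, G v ≤
      8 * (1 + 1 / (1 - 1/4)) * n ^ (7/4 : ℝ) := by
    have a1 := suma_bd (C := 1) (b := 1/4) zero_le_one (by norm_num) (by norm_num) D n hD hn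
      hSh.w_le hSh.h_le
    have a2 : (2:ℝ) - 1/4 = 7/4 := by norm_num
    rw [a2] at a1
    refine (Finset.sum_le_sum fun v hv => ?_).trans a1
    have hb0 := sumb_bd0 hv
    have hb0' : (0:ℝ) ≤ D.bd v := by exact_mod_cast hb0
    have e : G v = ((D.bd v : ℝ) + 1) ^ (-(1/4) : ℝ) := abs_of_nonneg (by positivity)
    rw [e]
    exact sumb_ph (by norm_num) hv
  have g8 : ε * C1 * ∑ e ∈ D.edges, G (src e) ≤
      ε * C1 * (2 * (8 * (1 + 1 / (1 - 1/4)) * n ^ (7/4 : ℝ))) := by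
    apply mul_le_mul_of_nonneg_left _ (by positivity)
    linarith
  refine g8.trans (le_of_eq ?_)
  ring

end Pool.Agent.Zk72.NS
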