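import Pool.Agent.Zk72.NS.Flp
import Pool.Agent.H984R4.NP.SumB
import Pool.Agent.Zk36.TT.Mom

/-!
# Stability of the exploration path: sums over the sizes of the excursions and over the edges
-/

set_option autoImplicit false

namespace Pool.Agent.Zk72.NS

open H974 Finset H342P H984P H984N H12S H389NS Pool.Agent.Zk36.TT Pool.Agent.W92.DP

theorem step_t (n : ℕ) : 3 * (n : ℝ) ^ (2 / 3 : ℝ) + ((n + 1 : ℕ) : ℝ) ^ (-(1 / 3) : ℝ) ≤
    3 * ((n + 1 : ℕ) : ℝ) ^ (2 / 3 : ℝ) := by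
  set x : ℝ := ((n + 1 : ℕ) : ℝ) with hx
  have hx1 : 1 ≤ x := by rw [hx]; push_cast; linarith [Nat.cast_nonneg (α := ℝ) n]
  have hx0 : 0 < x := by linarith
  have hn : (n : ℝ) = x * (1 + -(1 / x)) := by
    rw [hx]; push_cast; field_simp; ring
  have hinv : 1 / x ≤ 1 := by rw [div_le_one hx0]; exact hx1
  have h1 : (n : ℝ) ^ (2 / 3 : ℝ) ≤ x ^ (2 / 3 : ℝ) * (1 + 2 / 3 * (-(1 / x))) := by
    rw [hn, Real.mul_rpow hx0.le (by linarith)]
    apply mul_le_mul_of_nonneg_left _ (by positivity)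
    exact rpow_one_add_le_one_add_mul_self (by linarith) (by norm_num) (by norm_num)
  have h2 : x ^ (-(1 / 3) : ℝ) = x ^ (2 / 3 : ℝ) * (1 / x) := by
    have h5 : 1 / x = x ^ (-1 : ℝ) := by rw [Real.rpow_neg_one, one_div]
    rw [h5, ← Real.rpow_add hx0]
    norm_num
  rw [h2]
  have h3 : 0 ≤ x ^ (2 / 3 : ℝ) * (1 / x) := by positivity
  nlinarith

theorem sum_t (n : ℕ) : ∑ s ∈ Icc 1 n, ((s : ℕ) : ℝ) ^ (-(1 / 3) : ℝ) ≤
    3 * (n : ℝ) ^ (2 / 3 : ℝ) := by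
  induction n with
  | zero => simp
  | succ n ih =>
    rw [Finset.sum_Icc_succ_top (by omega)]
    have := step_t n
    push_cast at this ih ⊢
    linarith

theorem sum_min {N t : ℕ} (hN : 1 ≤ N) (ht : t ≤ N) :
    ∑ r ∈ Icc 1 N, (((min r t : ℕ) : ℝ) + 1) ^ (-(1/3) : ℝ) ≤
      13 * (N * ((t : ℝ) + 1) ^ (-(1/3) : ℝ)) := by
  have hN0 : (0:ℝ) < N := by exact_mod_cast hN
  set z := ((t : ℝ) + 1) ^ (-(1/3) : ℝ) with hz
  have hz0 : 0 < z := by positivity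
  have h1 : ∀ r ∈ Icc 1 N, (((min r t : ℕ) : ℝ) + 1) ^ (-(1/3) : ℝ) ≤
      ((r : ℕ) : ℝ) ^ (-(1/3) : ℝ) + z := by
    intro r hr
    rw [Finset.mem_Icc] at hr
    have hr0 : (0:ℝ) < r := by exact_mod_cast hr.1
    have hr3 : 0 ≤ (r:ℝ) ^ (-(1/3) : ℝ) := by positivity
    rcases le_total r t with h | h
    · rw [min_eq_left h]
      have : ((r:ℝ) + 1) ^ (-(1/3) : ℝ) ≤ (r:ℝ) ^ (-(1/3) : ℝ) :=
        Real.rpow_le_rpow_of_nonpos hr0 (by linarith) (by norm_num)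
      linarith
    · rw [min_eq_right h]
      linarith
  refine (Finset.sum_le_sum h1).trans ?_
  rw [Finset.sum_add_distrib, Finset.sum_const, Nat.card_Icc, nsmul_eq_mul]
  have h2 := sum_t N
  have h3 : (N:ℝ) ^ (2/3 : ℝ) = N * (N:ℝ) ^ (-(1/3) : ℝ) := by
    nth_rewrite 2 [← Real.rpow_one (N:ℝ)]
    rw [← Real.rpow_add hN0]
    norm_num
  have h4 := pw_le (x := (N:ℝ)) (y := (t:ℝ) + 1) (c := 2) (1/3) (by norm_num) hN0 (by positivity)
    (by norm_num) (by norm_num) (by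
      have : (t:ℝ) ≤ N := by exact_mod_cast ht
      have : (1:ℝ) ≤ N := by exact_mod_cast hN
      linarith)
  have h5 : (2:ℝ) ^ (2:ℝ) = 4 := by norm_num
  rw [h5] at h4
  rw [h3] at h2
  have h6 : (N:ℝ) * (N:ℝ) ^ (-(1/3) : ℝ) ≤ N * (4 * z) := mul_le_mul_of_nonneg_left h4 hN0.le
  rw [Nat.add_sub_cancel]
  linarith

theorem sum_inv (N : ℕ) : ∑ r ∈ Icc 1 N, ((r : ℕ) : ℝ) ^ (-1 : ℝ) ≤ 1 + Real.log N := by
  have h := harmonic_le_one_add_log N
  refine le_trans (le_of_eq ?_) h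
  rw [harmonic_eq_sum_Icc]
  push_cast
  apply Finset.sum_congr rfl
  intro r _
  exact Real.rpow_neg_one _

/-- one edge -/
theorem per_edge (h4 : S_A4U) (h2 : S_A2U) (h1 : S_A1U) : ∃ C c : ℝ, 1 ≤ C ∧ 0 < c ∧
    ∀ (D : Dm), D.Ok → ∀ (ε : ℝ) (N : ℕ), 0 ≤ ε → ε ≤ 1 → ε * (N : ℝ) ^ (3/4 : ℝ) ≤ c →
    D.r - D.l ≤ N → D.h ≤ N → ∀ e ∈ D.edges, e ∉ D.wir →
    5 * Q ε D.edges (fun U B => e ∈ U ∧ Sw (fun F => Exm D F e) U B) +
      4 * ∑ r ∈ Icc 1 N, Q ε D.edges (fun U B => e ∈ U ∧ Sw (fun F => Exc D F e r) U B) ≤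
    ε * (C * ((1 + Real.log N) * ((D.bd (src e) : ℝ) + 1) ^ (-(1/4) : ℝ) +
      N * (((D.bd (src e) : ℝ) + 1) ^ (-(11/12) : ℝ) *
        ((sec D (src e) : ℝ) + 1) ^ (-(1/3) : ℝ)))) := by
  obtain ⟨C1, c1, hC1, hc1, hA⟩ := e1U h4 h2
  obtain ⟨C2, c2, hC2, hc2, hB⟩ := e2U h4 h1
  obtain ⟨C3, c3, hC3, hc3, hE⟩ := emU h2
  refine ⟨5 * C3 + 4 * C1 + 52 * C2, min c1 (min c2 c3), by linarith,
    lt_min hc1 (lt_min hc2 hc3), ?_⟩
  intro D hD ε N h0 h1 hN hw1 hw2 e he hw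
  have hN1 := hN.trans (min_le_left _ _)
  have hN2 := (hN.trans (min_le_right _ _)).trans (min_le_left _ _)
  have hN3 := (hN.trans (min_le_right _ _)).trans (min_le_right _ _)
  have hv := src_in he
  obtain ⟨hb0, hbs⟩ := bd_sec hv
  have hv' := hv
  unfold inR at hv'
  have hsN : sec D (src e) ≤ N := by
    have : sec D (src e) ≤ max ((src e).1 - D.l) (D.r - (src e).1) := by
      unfold sec
      exact (min_le_left _ _).trans (min_le_left _ _)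
    refine this.trans (max_le ?_ ?_) <;> omega
  have hbN : D.bd (src e) ≤ N := hbs.trans hsN
  have hNpos : 1 ≤ N := by
    have := hD.h_pos
    omega
  have hNR : (1:ℝ) ≤ N := by exact_mod_cast hNpos
  have hlog : 0 ≤ Real.log N := Real.log_nonneg hNR
  obtain ⟨d, hdd⟩ : ∃ d : ℕ, (d : ℤ) = D.bd (src e) := ⟨(D.bd (src e)).toNat, by omega⟩
  obtain ⟨t, htt⟩ : ∃ t : ℕ, (t : ℤ) = sec D (src e) := ⟨(sec D (src e)).toNat, by omega⟩
  have gE := hE D hD ε e N h0 h1 he hN3 hbN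
  have key : ∀ r ∈ Icc 1 N, Q ε D.edges (fun U B => e ∈ U ∧ Sw (fun F => Exc D F e r) U B) ≤
      ε * (C1 * ((r : ℝ) ^ (-1 : ℝ) * ((d : ℝ) + 1) ^ (-(1/4) : ℝ)) +
        C2 * (((d : ℝ) + 1) ^ (-(11/12) : ℝ) * (((min r t : ℕ) : ℝ) + 1) ^ (-(1/3) : ℝ))) := by
    intro r hr
    rw [Finset.mem_Icc] at hr
    have hr0 : (0:ℝ) < r := by exact_mod_cast hr.1
    rcases le_total (r : ℤ) (D.bd (src e)) with h | h
    · have g1 := hA D hD ε e r N h0 h1 he hN1 hbN hr.1 h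
      rw [← hdd, Int.cast_natCast] at g1
      refine g1.trans (mul_le_mul_of_nonneg_left ?_ h0)
      have : 0 ≤ C2 * (((d : ℝ) + 1) ^ (-(11/12) : ℝ) *
        (((min r t : ℕ) : ℝ) + 1) ^ (-(1/3) : ℝ)) := by positivity
      linarith
    · have g1 := hB D hD ε e r N h0 h1 he hw hN2 hsN hr.1 h
      have hmm : min (r : ℤ) (sec D (src e)) = ((min r t : ℕ) : ℤ) := by
        rw [← htt]
        push_cast
        rfl
      rw [← hdd, hmm, Int.cast_natCast, Int.cast_natCast] at g1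
      refine g1.trans (mul_le_mul_of_nonneg_left ?_ h0)
      have : 0 ≤ C1 * ((r : ℝ) ^ (-1 : ℝ) * ((d : ℝ) + 1) ^ (-(1/4) : ℝ)) := by positivity
      linarith
  rw [← hdd, Int.cast_natCast] at gE
  rw [← hdd, ← htt, Int.cast_natCast, Int.cast_natCast]
  have g2 := Finset.sum_le_sum key
  rw [← Finset.mul_sum, Finset.sum_add_distrib, ← Finset.mul_sum, ← Finset.mul_sum,
    ← Finset.sum_mul, ← Finset.mul_sum] at g2
  have g3 := sum_inv N
  have g4 := sum_min (t := t) hNpos (by omega)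
  set y := ((d : ℝ) + 1) ^ (-(1/4) : ℝ) with hy
  set x := ((d : ℝ) + 1) ^ (-(11/12) : ℝ) with hx
  set z := ((t : ℝ) + 1) ^ (-(1/3) : ℝ) with hz
  have hy0 : 0 < y := by positivity
  have hx0 : 0 < x := by positivity
  have hz0 : 0 < z := by positivity
  have g5 := mul_le_mul_of_nonneg_right g3 hy0.le
  have g6 := mul_le_mul_of_nonneg_left g4 hx0.le
  have g7 := mul_le_mul_of_nonneg_left g5 (by linarith : 0 ≤ C1)
  have g8 := mul_le_mul_of_nonneg_left g6 (by linarith : 0 ≤ C2)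
  have g9 := mul_le_mul_of_nonneg_left (add_le_add g7 g8) h0
  have g10 := g2.trans g9
  have p1 : y ≤ (1 + Real.log N) * y := by nlinarith
  have p2 : C3 * y ≤ C3 * ((1 + Real.log N) * y) := mul_le_mul_of_nonneg_left p1 (by linarith)
  have p3 : 0 ≤ (1 + Real.log N) * y := by positivity
  have p4 : 0 ≤ (N:ℝ) * (x * z) := by positivity
  have p5 : 5 * (C3 * y) + 4 * (C1 * ((1 + Real.log N) * y) + C2 * (x * (13 * (N * z)))) ≤
      (5 * C3 + 4 * C1 + 52 * C2) * ((1 + Real.log N) * y + N * (x * z)) := by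
    have q1 : 0 ≤ C2 * ((1 + Real.log N) * y) := by positivity
    have q2 : 0 ≤ C1 * ((N:ℝ) * (x * z)) := by positivity
    have q3 : 0 ≤ C3 * ((N:ℝ) * (x * z)) := by positivity
    nlinarith
  have p6 := mul_le_mul_of_nonneg_left p5 h0
  nlinarith

end Pool.Agent.Zk72.NS
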